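import Pool.Agent.Lib.MP_f11a48_ag.helper16.GalPt
import Pool.Agent.Lib.TranscendentalPi

/-! Period data of an object with complex multiplication. -/

namespace Pool.Agent.Lib.MPf11a48.CM

open Matrix Module

theorem two_pi_I_zpow {n : ℤ} (h : (2 * Real.pi * Complex.I : ℂ) ^ n ∈ Qbar) : n = 0 := by
  by_contra hn
  have h1 : (2 * Real.pi * Complex.I : ℂ) ^ n.natAbs ∈ Qbar := by
    rcases Int.natAbs_eq n with h2 | h2
    · rw [h2, zpow_natCast] at h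
      exact h
    · rw [h2, _root_.zpow_neg, zpow_natCast] at h
      simpa using inv_mem h
  have h2 : (2 * Real.pi * Complex.I : ℂ) ∈ Qbar :=
    mem_Qbar_of_pow (Int.natAbs_ne_zero.2 hn) h1
  have hI : Complex.I ∈ Qbar := mem_Qbar_of_pow (n := 2) two_ne_zero (by
    rw [Complex.I_sq]
    exact neg_mem (one_mem _))
  have h3 : (Real.pi : ℂ) ∈ Qbar := by
    have h4 : (Real.pi : ℂ) = (2 * Real.pi * Complex.I : ℂ) / (2 * Complex.I) := by
      have := Complex.I_ne_zero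
      field_simp
    rw [h4]
    exact div_mem h2 (mul_mem (by
      have : (2 : ℂ) = algebraMap ℚ ℂ 2 := by simp
      rw [this]
      exact (algebraicClosure ℚ ℂ).algebraMap_mem 2) hI)
  rw [mem_algebraicClosure_iff] at h3
  exact TranscendentalPi.transcendental_pi h3

theorem two_pi_I_ne (w : ℤ) : (2 * Real.pi * Complex.I : ℂ) ^ w ≠ 0 := by
  refine zpow_ne_zero _ ?_
  simp [Real.pi_ne_zero]

theorem act_gl_mul {ι : Type} [Fintype ι] [DecidableEq ι] {r : ℕ} (sh : Fin r → ℕ × ℕ)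
    (f g : GL ι ℂ) (v : SIdx ι sh → ℂ) :
    act sh (f * g).1 (f * g)⁻¹.1 v = act sh f.1 f⁻¹.1 (act sh g.1 g⁻¹.1 v) := by
  have h : (f * g)⁻¹.1 = g⁻¹.1 * f⁻¹.1 := by
    rw [_root_.mul_inv_rev]
    rfl
  have h' : (f * g).1 = f.1 * g.1 := rfl
  rw [h, h', act_mul]

theorem toC_diagonal {κ : Type} [DecidableEq κ] (d : κ → Qbar) :
    toC (diagonal d) = diagonal fun σ => ((d σ : Qbar) : ℂ) := by
  refine Matrix.ext fun i j => ?_
  simp only [map_apply, diagonal_apply]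
  split_ifs <;> simp

theorem toC_rat {ι : Type} (N : Matrix ι ι ℚ) :
    toC (N.map (algebraMap ℚ Qbar)) = N.map (algebraMap ℚ ℂ) := by
  refine Matrix.ext fun i j => ?_
  simp only [map_apply]
  exact (IsScalarTower.algebraMap_apply ℚ Qbar ℂ _).symm

theorem map_gal_rat {ι : Type} (γ : Qbar ≃ₐ[ℚ] Qbar) (N : Matrix ι ι ℚ) :
    (N.map (algebraMap ℚ Qbar)).map γ = N.map (algebraMap ℚ Qbar) := by
  refine Matrix.ext fun i j => ?_
  exact γ.commutes _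

theorem map_gal_mul {μ ν ξ : Type} [Fintype ν] (γ : Qbar ≃ₐ[ℚ] Qbar) (M : Matrix μ ν Qbar)
    (N : Matrix ν ξ Qbar) : (M * N).map γ = M.map γ * N.map γ :=
  Matrix.map_mul (f := (γ : Qbar →+* Qbar))

theorem map_gal_one {μ : Type} [DecidableEq μ] (γ : Qbar ≃ₐ[ℚ] Qbar) :
    (1 : Matrix μ μ Qbar).map γ = 1 :=
  Matrix.map_one _ (map_zero _) (map_one _)

variable {K : IntermediateField ℚ ℂ} {ι E : Type} [Fintype ι] [DecidableEq ι]
  [CommRing E] [Algebra ℚ E] {ρ : E ≃ₐ[ℚ] E}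

/-- The matrices that diagonalise an object with complex multiplication. -/
structure PData (M : CMObj K ι E ρ) [Fintype (Emb E)] [DecidableEq (Emb E)] where
  P' : Matrix ι (Emb E) Qbar
  h1 : embMat M.b * P' = 1
  h2 : P' * embMat M.b = 1
  s : Emb E → ℂ
  q : Matrix (Emb E) ι Qbar
  q' : Matrix ι (Emb E) Qbar
  hs : ∀ σ, s σ ≠ 0
  hq : q * q' = 1
  hq' : q' * q = 1
  hc : toC (embMat M.b) * M.c.1 = diagonal s * toC q
  hqA : ∀ a, q * M.AdR a = diagonal (fun σ : Emb E => σ a) * q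

theorem exists_pdata (M : CMObj K ι E ρ) (cm : IsCM ρ) [Fintype (Emb E)]
    [DecidableEq (Emb E)] : Nonempty (PData M) := by
  obtain ⟨P', h1, h2⟩ := exists_embInv M.b cm.card
  obtain ⟨s, q, q', hs, hq, hq', hc, hqA⟩ := M.exists_periods h1 h2
  refine ⟨⟨P', h1, h2, s, q, q', hs, hq, hq', hc, fun a => ?_⟩⟩
  apply toC_injective
  rw [toC_mul, hqA a, toC_mul, toC_diagonal]

namespace PData

variable {M : CMObj K ι E ρ} [Fintype (Emb E)] [DecidableEq (Emb E)] (D : PData M)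

theorem h1C : toC (embMat M.b) * toC D.P' = 1 := by rw [← toC_mul, D.h1, toC_one]
theorem h2C : toC D.P' * toC (embMat M.b) = 1 := by rw [← toC_mul, D.h2, toC_one]
theorem hqC : toC D.q * toC D.q' = 1 := by rw [← toC_mul, D.hq, toC_one]
theorem hqC' : toC D.q' * toC D.q = 1 := by rw [← toC_mul, D.hq', toC_one]

/-- the Gram matrix of the polarisation in the eigenbasis -/
noncomputable def Φ : Matrix (Emb E) (Emb E) Qbar :=
  D.P'ᵀ * M.ψB.map (algebraMap ℚ Qbar) * D.P'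

theorem hΦ (σ τ : Emb E) : D.Φ σ τ ≠ 0 ↔ σ = bar ρ τ := M.phi_facts D.h1 D.h2 σ τ

theorem hΦC : toC D.Φ = (toC D.P')ᵀ * M.ψB.map (algebraMap ℚ ℂ) * toC D.P' := by
  rw [Φ, toC_mul, toC_mul, toC_rat]
  rfl

/-- the de Rham Gram matrix over `Qbar` -/
noncomputable def ψ' (M : CMObj K ι E ρ) (hK : K ≤ Qbar) : Matrix ι ι Qbar :=
  fun i j => ⟨(M.ψdR i j : ℂ), hK (M.ψdR i j).2⟩

omit [Fintype (Emb E)] [DecidableEq (Emb E)] in
theorem hψ' (M : CMObj K ι E ρ) (hK : K ≤ Qbar) :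
    toC (ψ' M hK) = M.ψdR.map (algebraMap K ℂ) := rfl

/-- the de Rham Gram matrix in the eigenbasis -/
noncomputable def Θ (hK : K ≤ Qbar) : Matrix (Emb E) (Emb E) Qbar :=
  D.q'ᵀ * ψ' M hK * D.q'

theorem hΘC (hK : K ≤ Qbar) :
    toC (D.Θ hK) = (toC D.q')ᵀ * M.ψdR.map (algebraMap K ℂ) * toC D.q' := by
  rw [Θ, toC_mul, toC_mul, hψ']
  rfl

theorem htrans (g : Matrix ι ι ℂ) (d : Emb E → ℂ)
    (hg : toC (embMat M.b) * g = diagonal d * toC D.q) :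
    (toC D.q')ᵀ * (gᵀ * M.ψB.map (algebraMap ℚ ℂ) * g) * toC D.q' =
      diagonal d * toC D.Φ * diagonal d := by
  have e1 : g * toC D.q' = toC D.P' * diagonal d := by
    calc g * toC D.q' = (toC D.P' * toC (embMat M.b)) * g * toC D.q' := by
          rw [D.h2C, Matrix.one_mul]
      _ = toC D.P' * (toC (embMat M.b) * g) * toC D.q' := by simp only [Matrix.mul_assoc]
      _ = toC D.P' * diagonal d * (toC D.q * toC D.q') := by
        rw [hg]
        simp only [Matrix.mul_assoc]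
      _ = toC D.P' * diagonal d := by rw [D.hqC, Matrix.mul_one]
  have e2 : (toC D.q')ᵀ * gᵀ = diagonal d * (toC D.P')ᵀ := by
    rw [← transpose_mul, e1, transpose_mul, diagonal_transpose]
  calc (toC D.q')ᵀ * (gᵀ * M.ψB.map (algebraMap ℚ ℂ) * g) * toC D.q'
      = ((toC D.q')ᵀ * gᵀ) * M.ψB.map (algebraMap ℚ ℂ) * (g * toC D.q') := by
        simp only [Matrix.mul_assoc]
    _ = diagonal d * toC D.Φ * diagonal d := by
      rw [e1, e2, D.hΦC]
      simp only [Matrix.mul_assoc]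

theorem hback (N : Matrix ι ι ℂ) :
    (toC D.q)ᵀ * ((toC D.q')ᵀ * N * toC D.q') * toC D.q = N := by
  calc (toC D.q)ᵀ * ((toC D.q')ᵀ * N * toC D.q') * toC D.q
      = ((toC D.q)ᵀ * (toC D.q')ᵀ) * N * (toC D.q' * toC D.q) := by simp only [Matrix.mul_assoc]
    _ = N := by rw [← transpose_mul, D.hqC', transpose_one, Matrix.one_mul, Matrix.mul_one]

theorem hent (hK : K ≤ Qbar) (g : Matrix ι ι ℂ) (d : Emb E → ℂ) (μ : ℂ)
    (hg : toC (embMat M.b) * g = diagonal d * toC D.q) :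
    (gᵀ * M.ψB.map (algebraMap ℚ ℂ) * g = μ • M.ψdR.map (algebraMap K ℂ) ↔
      ∀ σ τ, d σ * ((D.Φ σ τ : Qbar) : ℂ) * d τ = μ * ((D.Θ hK σ τ : Qbar) : ℂ)) := by
  constructor
  · intro h σ τ
    have h3 := D.htrans g d hg
    rw [h] at h3
    have h4 := congrFun (congrFun h3 σ) τ
    rw [Matrix.mul_smul, Matrix.smul_mul, ← D.hΘC hK] at h4
    simp only [Matrix.smul_apply, smul_eq_mul, mul_diagonal, diagonal_mul] at h4
    exact h4.symm
  · intro h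
    have h3 : (toC D.q')ᵀ * (gᵀ * M.ψB.map (algebraMap ℚ ℂ) * g) * toC D.q' =
        (toC D.q')ᵀ * (μ • M.ψdR.map (algebraMap K ℂ)) * toC D.q' := by
      rw [D.htrans g d hg]
      rw [Matrix.mul_smul, Matrix.smul_mul, ← D.hΘC hK]
      refine Matrix.ext fun σ τ => ?_
      simp only [Matrix.smul_apply, smul_eq_mul, mul_diagonal, diagonal_mul]
      exact h σ τ
    rw [← D.hback (gᵀ * M.ψB.map (algebraMap ℚ ℂ) * g), h3, D.hback]

/-- the algebraic numbers `s σ * s (bar σ) / (2 π i) ^ w` -/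
noncomputable def α (hK : K ≤ Qbar) : Emb E → Qbar :=
  fun τ => D.Θ hK (bar ρ τ) τ / D.Φ (bar ρ τ) τ

theorem hαC (hK : K ≤ Qbar) (τ : Emb E) : ((D.α hK τ : Qbar) : ℂ) =
    ((D.Θ hK (bar ρ τ) τ : Qbar) : ℂ) / ((D.Φ (bar ρ τ) τ : Qbar) : ℂ) :=
  map_div₀ (algebraMap Qbar ℂ) _ _

theorem hΦne (τ : Emb E) : ((D.Φ (bar ρ τ) τ : Qbar) : ℂ) ≠ 0 := by
  intro h0
  exact ((D.hΦ (bar ρ τ) τ).2 rfl) (Subtype.ext h0)

theorem hcent (hK : K ≤ Qbar) (σ τ : Emb E) : D.s σ * ((D.Φ σ τ : Qbar) : ℂ) * D.s τ =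
    (2 * Real.pi * Complex.I : ℂ) ^ M.w * ((D.Θ hK σ τ : Qbar) : ℂ) :=
  (D.hent hK M.c.1 D.s _ D.hc).1 M.pol σ τ

theorem hpol (hK : K ≤ Qbar) (σ : Emb E) : D.s σ * D.s (bar ρ σ) =
    (2 * Real.pi * Complex.I : ℂ) ^ M.w * (D.α hK σ : ℂ) := by
  have h3 := D.hcent hK (bar ρ σ) σ
  rw [hαC, ← mul_div_assoc, ← h3]
  have := D.hΦne σ
  field_simp

theorem hα (hK : K ≤ Qbar) (σ : Emb E) : D.α hK σ ≠ 0 := by
  intro h0
  have h3 := D.hpol hK σ
  rw [h0] at h3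
  have h4 : ((0 : Qbar) : ℂ) = 0 := rfl
  rw [h4, mul_zero] at h3
  exact mul_ne_zero (D.hs _) (D.hs _) h3

theorem hαC0 (hK : K ≤ Qbar) (σ : Emb E) : ((D.α hK σ : Qbar) : ℂ) ≠ 0 :=
  fun h0 => D.hα hK σ (Subtype.ext h0)

theorem hΘ0 (hK : K ≤ Qbar) (σ τ : Emb E) (hne : σ ≠ bar ρ τ) :
    ((D.Φ σ τ : Qbar) : ℂ) = 0 ∧ ((D.Θ hK σ τ : Qbar) : ℂ) = 0 := by
  have h3 : D.Φ σ τ = 0 := by
    by_contra h4
    exact hne ((D.hΦ σ τ).1 h4)
  have h5 := D.hcent hK σ τ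
  rw [h3] at h5 ⊢
  have h4 : ((0 : Qbar) : ℂ) = 0 := rfl
  rw [h4, mul_zero, zero_mul] at h5
  exact ⟨h4, (mul_eq_zero.1 h5.symm).resolve_left (two_pi_I_ne _)⟩

/-- similitudes among the torus points -/
theorem hsim (hK : K ≤ Qbar) (g : Matrix ι ι ℂ) (d : Emb E → ℂ) (μ : ℂ)
    (hg : toC (embMat M.b) * g = diagonal d * toC D.q) :
    (gᵀ * M.ψB.map (algebraMap ℚ ℂ) * g = μ • M.ψdR.map (algebraMap K ℂ) ↔
      ∀ σ, d σ * d (bar ρ σ) = μ * (D.α hK σ : ℂ)) := by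
  rw [D.hent hK g d μ hg]
  constructor
  · intro h σ
    have h3 := h (bar ρ σ) σ
    have h4 := D.hΦne σ
    rw [hαC, ← mul_div_assoc, ← h3]
    field_simp
  · intro h σ τ
    by_cases hστ : σ = bar ρ τ
    · subst hστ
      have h3 := h τ
      have h4 := D.hΦne τ
      rw [hαC, ← mul_div_assoc, eq_div_iff h4] at h3
      rw [← h3]
      ring
    · rw [(D.hΘ0 hK σ τ hστ).1, (D.hΘ0 hK σ τ hστ).2]
      ring

theorem hαbar (hK : K ≤ Qbar) (cm : IsCM ρ) (σ : Emb E) : D.α hK (bar ρ σ) = D.α hK σ := by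
  have h3 := D.hpol hK σ
  have h4 := D.hpol hK (bar ρ σ)
  rw [bar_bar cm, mul_comm] at h4
  rw [h3] at h4
  exact (Subtype.ext (mul_left_cancel₀ (two_pi_I_ne _) h4)).symm

/-- an algebraic solution of `β σ * β (bar σ) = α σ` -/
theorem exists_beta (hK : K ≤ Qbar) (cm : IsCM ρ) :
    ∃ β : Emb E → Qbar, (∀ σ, β σ ≠ 0) ∧ ∀ σ, β σ * β (bar ρ σ) = D.α hK σ := by
  classical
  obtain ⟨H, hH⟩ := exists_half cm
  have hβ : ∀ σ, (if σ ∈ H then 1 else D.α hK σ) *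
      (if bar ρ σ ∈ H then 1 else D.α hK (bar ρ σ)) = D.α hK σ := by
    intro σ
    by_cases hσ : σ ∈ H
    · rw [if_pos hσ, if_neg ((hH σ).1 hσ), one_mul, hαbar _ hK cm]
    · have : bar ρ σ ∈ H := by
        by_contra h3
        exact hσ ((hH σ).2 h3)
      rw [if_neg hσ, if_pos this, mul_one]
  refine ⟨fun σ => if σ ∈ H then 1 else D.α hK σ, fun σ h0 => ?_, hβ⟩
  have := hβ σ
  simp only at h0
  rw [h0, zero_mul] at this
  exact D.hα hK σ this.symm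

end PData

end Pool.Agent.Lib.MPf11a48.CM
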