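import Pool.Agent.Lib.MP_f11a48_ag.helper16.Main

/-! Classes: `Ω^dRB ⊆ Ω_S` for every set `S` of de Rham-Betti classes. -/

namespace Pool.Agent.Lib.MPf11a48.CM

open Matrix Module

variable {K : IntermediateField ℚ ℂ} {ι : Type} [Fintype ι] [DecidableEq ι]

/-- the shape `T^{0,0} ⊕ T^{n,m}` -/
def shape (n m : ℕ) : Fin 2 → ℕ × ℕ := ![(0, 0), (n, m)]

/-- the vector `(a, v)` of `T^{0,0} ⊕ T^{n,m}` -/
def vec {R : Type} {n m : ℕ} (a : R) (v : TIdx ι n m → R) : SIdx ι (shape n m) → R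
  | ⟨0, _⟩ => a
  | ⟨1, I⟩ => v I

omit [DecidableEq ι] in
theorem sum_zero_zero {R : Type} [CommRing R] (g g' : Matrix ι ι R) (a : R) (I : TIdx ι 0 0) :
    ∑ J : TIdx ι 0 0, tens 0 0 g g' I J * a = a := by
  have h : ∀ J : TIdx ι 0 0, tens 0 0 g g' I J * a = a := by
    intro J
    simp [tens]
  simp only [h]
  simp

theorem act_vec {R : Type} [CommRing R] {n m : ℕ} (g g' : Matrix ι ι R) (a : R)
    (v : TIdx ι n m → R) :
    act (shape n m) g g' (vec a v) = vec a (fun I => ∑ J, tens n m g g' I J * v J) := by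
  funext x
  match x with
  | ⟨0, I⟩ =>
    exact sum_zero_zero g g' a I
  | ⟨1, I⟩ => rfl

theorem drb_subset {c : GL ι ℂ} {S : Set (TPair K ι)} (hS : ∀ α ∈ S, Fixes c α) :
    OmegaDRB K c ⊆ OmegaS S := by
  intro f hf α hα
  have hcα := hS α hα
  -- the graph sub-object
  let vdR : SIdx ι (shape α.n α.m) → K := vec 1 α.dR
  let vB : SIdx ι (shape α.n α.m) → ℚ := vec 1 α.B
  have hdR : spanC (Submodule.span K {vdR}) =
      Submodule.span ℂ {fun j => algebraMap K ℂ (vdR j)} := by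
    change spanL ℂ (Submodule.span K {vdR}) = _
    rw [spanL_span]
    congr 1
    ext v
    simp
  have hB : spanC (Submodule.span ℚ {vB}) =
      Submodule.span ℂ {fun j => algebraMap ℚ ℂ (vB j)} := by
    change spanL ℂ (Submodule.span ℚ {vB}) = _
    rw [spanL_span]
    congr 1
    ext v
    simp
  have hvdR : (fun j => algebraMap K ℂ (vdR j)) =
      vec 1 (fun J => ((α.dR J : K) : ℂ)) := by
    funext j
    match j with
    | ⟨0, _⟩ => exact map_one _
    | ⟨1, _⟩ => rfl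
  have hvB : (fun j => algebraMap ℚ ℂ (vB j)) =
      vec 1 (fun J => ((α.B J : ℚ) : ℂ)) := by
    funext j
    match j with
    | ⟨0, _⟩ => exact map_one _
    | ⟨1, _⟩ => rfl
  have hsub : IsSub K c (shape α.n α.m) (Submodule.span K {vdR}) (Submodule.span ℚ {vB}) := by
    unfold IsSub
    rw [hdR, hB, Submodule.map_span, Set.image_singleton, hvdR, hvB, act_vec]
    congr 2
    congr 1
    funext I
    exact hcα I
  have h := hf 2 (shape α.n α.m) _ _ hsub
  rw [hdR, hB, Submodule.map_span, Set.image_singleton, hvdR, hvB, act_vec] at h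
  have h2 : vec 1 (fun I => ∑ J, tens α.n α.m f.1 f⁻¹.1 I J * ((α.dR J : K) : ℂ)) ∈
      Submodule.span ℂ {vec 1 (fun J => ((α.B J : ℚ) : ℂ))} := by
    rw [← h]
    exact Submodule.mem_span_singleton_self _
  obtain ⟨a, ha⟩ := Submodule.mem_span_singleton.1 h2
  have h0 := congrFun ha ⟨0, (fun i => Fin.elim0 i, fun i => Fin.elim0 i)⟩
  have ha1 : a = 1 := by
    have : a * 1 = 1 := h0
    rwa [mul_one] at this
  intro I
  have h1 := congrFun ha ⟨1, I⟩
  have h3 : a * ((α.B I : ℚ) : ℂ) =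
      ∑ J, tens α.n α.m f.1 f⁻¹.1 I J * ((α.dR J : K) : ℂ) := h1
  rw [ha1, one_mul] at h3
  exact h3.symm

end Pool.Agent.Lib.MPf11a48.CM
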