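import Pool.Agent.Lib.MP_f11a48_ag.helper16.Defs2

/-!
# The lattice criterion: definitions
-/

namespace Pool.Agent.Lib.MPf11a48.CM

open Matrix Module

/-- The absolute Galois group of `ℚ`. -/
abbrev GalQ : Type := Qbar ≃ₐ[ℚ] Qbar

/-- `γ` fixes the elements of `k` -/
def Over (k : IntermediateField ℚ ℂ) (γ : GalQ) : Prop :=
  ∀ z : Qbar, (z : ℂ) ∈ k → γ z = z

section Embeddings

variable {E : Type} [CommRing E] [Algebra ℚ E]

/-- The embedding `γ ∘ σ`. -/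
noncomputable def galE (γ : GalQ) (σ : Emb E) : Emb E := (γ : Qbar →ₐ[ℚ] Qbar).comp σ

/-- The conjugate embedding `σ ∘ ρ`. -/
noncomputable def conjE (ρ : E ≃ₐ[ℚ] E) (σ : Emb E) : Emb E := σ.comp (ρ : E →ₐ[ℚ] E)

/-- Every permutation of the embeddings of `E` induced by `Gal(Qbar/k)` is induced by
`Gal(Qbar/K)`. -/
def ImageContains (K k : IntermediateField ℚ ℂ) (E : Type) [CommRing E] [Algebra ℚ E] : Prop :=
  ∀ γ : GalQ, Over k γ → ∃ γ' : GalQ, Over K γ' ∧ ∀ σ : Emb E, galE γ' σ = galE γ σ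

/-- the difference `δ_σ - δ_τ` lies in `Λ` for some `σ ≠ τ` -/
def HasDiff (Λ : AddSubgroup (Emb E → ℤ)) : Prop :=
  ∃ σ τ : Emb E, σ ≠ τ ∧ ∃ χ ∈ Λ, χ σ = 1 ∧ χ τ = -1 ∧ ∀ κ, κ ≠ σ → κ ≠ τ → χ κ = 0

/-- `Λ` is stable under `Gal(Qbar/k)` -/
def StableOver (k : IntermediateField ℚ ℂ) (Λ : AddSubgroup (Emb E → ℤ)) : Prop :=
  ∀ γ : GalQ, Over k γ → ∀ χ ∈ Λ, (fun σ => χ (galE γ σ)) ∈ Λ

/-- `Λ` is saturated -/
def Saturated (Λ : AddSubgroup (Emb E → ℤ)) : Prop :=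
  ∀ (n : ℤ) (χ : Emb E → ℤ), n ≠ 0 → n • χ ∈ Λ → χ ∈ Λ

/-- If `Λ` contains `χ` and its conjugate `χ ∘ ρ`, then `χ` has degree zero. -/
def DegreeZero (ρ : E ≃ₐ[ℚ] E) (Λ : AddSubgroup (Emb E → ℤ)) : Prop :=
  ∀ χ ∈ Λ, (fun σ => χ (conjE ρ σ)) ∈ Λ → ∑ᶠ σ, χ σ = 0

/-- A relation lattice over `k`: a saturated `Gal(Qbar/k)`-stable group of characters `χ` of
`(E ⊗ ℂ)^×` in which every `χ` whose conjugate also lies in it has degree zero. -/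
def RelLattice (k : IntermediateField ℚ ℂ) (ρ : E ≃ₐ[ℚ] E)
    (Λ : AddSubgroup (Emb E → ℤ)) : Prop :=
  StableOver k Λ ∧ Saturated Λ ∧ DegreeZero ρ Λ

/-- `U` is stable under `Gal(Qbar/k)` -/
def SubStable (k : IntermediateField ℚ ℂ) (U : Submodule ℚ (Emb E → ℚ)) : Prop :=
  ∀ γ : GalQ, Over k γ → ∀ u ∈ U, (fun σ => u (galE γ σ)) ∈ U

/-- `U` consists of odd functions -/
def SubOdd (ρ : E ≃ₐ[ℚ] E) (U : Submodule ℚ (Emb E → ℚ)) : Prop :=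
  ∀ u ∈ U, ∀ σ, u (conjE ρ σ) = -u σ

/-- `U` contains `(δ_σ - δ_{σ ∘ ρ}) - (δ_τ - δ_{τ ∘ ρ})` for some `σ ≠ τ` -/
def HasOddDiff (ρ : E ≃ₐ[ℚ] E) (U : Submodule ℚ (Emb E → ℚ)) : Prop :=
  ∃ σ τ : Emb E, σ ≠ τ ∧ oddVec ρ σ - oddVec ρ τ ∈ U

/-- The odd part of the functions on the embeddings is separating over `k`: some element of
`Gal(Qbar/k)` acts on the embeddings of `E` as complex conjugation, and every nonzero
`Gal(Qbar/k)`-stable space of odd functions contains `(δ_σ - δ_{σ ∘ ρ}) - (δ_τ - δ_{τ ∘ ρ})` for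
some `σ ≠ τ`. -/
def SeparatingOver (k : IntermediateField ℚ ℂ) (ρ : E ≃ₐ[ℚ] E) : Prop :=
  (∃ γ : GalQ, Over k γ ∧ ∀ σ : Emb E, galE γ σ = conjE ρ σ) ∧
  ∀ U : Submodule ℚ (Emb E → ℚ), SubOdd ρ U → SubStable k U → U ≠ ⊥ → HasOddDiff ρ U

/-- Some element of `Gal(Qbar/k)` acts on all embeddings of `E` as complex conjugation, and for
any two embeddings `σ, τ` in different conjugate pairs some element of `Gal(Qbar/k)` preserves all
conjugate pairs, fixes `σ` and exchanges `τ` and its conjugate. -/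
def PairsOver (k : IntermediateField ℚ ℂ) (ρ : E ≃ₐ[ℚ] E) : Prop :=
  (∃ γ : GalQ, Over k γ ∧ ∀ σ : Emb E, galE γ σ = conjE ρ σ) ∧
  ∀ σ τ : Emb E, τ ≠ σ → τ ≠ conjE ρ σ → ∃ γ : GalQ, Over k γ ∧
    (∀ κ : Emb E, galE γ κ = κ ∨ galE γ κ = conjE ρ κ) ∧ galE γ σ = σ ∧ galE γ τ = conjE ρ τ

end Embeddings

/-- `F` has no imaginary quadratic subfield. -/
def NoImagQuad (F : Type) [Field F] [NumberField F] : Prop :=
  ∀ (x : F) (q : ℚ), x ^ 2 = algebraMap ℚ F q → 0 ≤ q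

/-- `F` has degree `4`, or degree `2 p` for an odd prime `p` and no imaginary quadratic subfield,
or is cyclic over `ℚ` of degree a power of `2`. -/
def Listed (F : Type) [Field F] [NumberField F] : Prop :=
  finrank ℚ F = 4 ∨ (∃ p : ℕ, p.Prime ∧ p ≠ 2 ∧ finrank ℚ F = 2 * p ∧ NoImagQuad F) ∨
    (IsGalois ℚ F ∧ IsCyclic (F ≃ₐ[ℚ] F) ∧ ∃ j : ℕ, finrank ℚ F = 2 ^ j)

namespace CMObj

variable {K : IntermediateField ℚ ℂ} {ι E : Type} [Fintype ι] [DecidableEq ι]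
  [CommRing E] [Algebra ℚ E] {ρ : E ≃ₐ[ℚ] E}

/-- The isomorphisms `f : M_dR ⊗ ℂ → M_B ⊗ ℂ` that are `E`-linear up to a Galois twist over `K`. -/
def OmegaE (M : CMObj K ι E ρ) : Set (GL ι ℂ) :=
  {f | ∃ γ : GalQ, Over K γ ∧
    ∀ a, f.1 * ((M.AdR a).map γ).map (algebraMap Qbar ℂ) =
      (Algebra.leftMulMatrix M.b a).map (algebraMap ℚ ℂ) * f.1}

/-- `θ` acts on the `σ`-line of `M_B ⊗ ℂ = E ⊗ ℂ` as multiplication by `t σ`. -/
def Eigen (M : CMObj K ι E ρ) (θ : GL ι ℂ) (t : Emb E → ℂ) : Prop :=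
  ∀ (σ : Emb E) (j : ι),
    ∑ i, ((σ (M.b i) : Qbar) : ℂ) * θ.1 i j = t σ * ((σ (M.b j) : Qbar) : ℂ)

/-- The character `χ` of `(E ⊗ ℂ)^×` is trivial on the group `T_S` of those `θ ∈ (E ⊗ ℂ)^×` for
which `θ ∘ c ∈ Ω_S`. -/
def Trivial (M : CMObj K ι E ρ) (S : Set (TPair K ι)) (χ : Emb E → ℤ) : Prop :=
  ∀ (θ : GL ι ℂ) (t : Emb E → ℂ), M.Eigen θ t → θ * M.c ∈ OmegaS S →
    ∏ᶠ σ, t σ ^ χ σ = 1

/-- Every endomorphism `(B', B)` of `M ⊗ Qbar` whose Betti matrix `B` has entries in `k` is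
`E`-linear. -/
def EndLinear (M : CMObj K ι E ρ) (k : IntermediateField ℚ ℂ) : Prop :=
  ∀ (B : Matrix ι ι k) (B' : Matrix ι ι Qbar),
    M.c.1 * B'.map (algebraMap Qbar ℂ) = B.map (algebraMap k ℂ) * M.c.1 →
    ∀ a : E, B.map (algebraMap k ℂ) * (Algebra.leftMulMatrix M.b a).map (algebraMap ℚ ℂ) =
      (Algebra.leftMulMatrix M.b a).map (algebraMap ℚ ℂ) * B.map (algebraMap k ℂ)

/-- **The lattice criterion.** Every relation lattice `Λ` over `k` that contains the characters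
trivial on `T_S = {θ | θ ∘ c ∈ Ω_S}` either consists of characters trivial on `T_S` or contains
`δ_σ - δ_τ` for some embeddings `σ ≠ τ`. -/
def LatticeCrit (M : CMObj K ι E ρ) (k : IntermediateField ℚ ℂ) (S : Set (TPair K ι)) : Prop :=
  ∀ Λ : AddSubgroup (Emb E → ℤ), RelLattice k ρ Λ → (∀ χ, M.Trivial S χ → χ ∈ Λ) →
    (∀ χ ∈ Λ, M.Trivial S χ) ∨ HasDiff Λ

/-- `S` consists of de Rham-Betti classes of `M` and every point of `Ω_S` is `E`-linear up to a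
Galois twist over `K`. -/
def Admissible (M : CMObj K ι E ρ) (S : Set (TPair K ι)) : Prop :=
  (∀ α ∈ S, Fixes M.c α) ∧ OmegaS S ⊆ M.OmegaE

/-- Either `M ⊗ Qbar` has an endomorphism with Betti matrix over `k` that is not `E`-linear, or
`Ω^dRB_M = Ω_S`, and also `Ω_M = Ω_S` if every permutation of the embeddings of `E` induced by
`Gal(Qbar/k)` is induced by `Gal(Qbar/K)`. -/
def Comparison (M : CMObj K ι E ρ) (k : IntermediateField ℚ ℂ)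
    (S : Set (TPair K ι)) : Prop :=
  ¬ M.EndLinear k ∨
    (OmegaDRB K M.c = OmegaS S ∧ (ImageContains K k E → OmegaM K M.c = OmegaS S))

end CMObj

end Pool.Agent.Lib.MPf11a48.CM
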