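import Pool.Agent.Lib.MP_f11a48_ag.helper16.Torus

/-! The lattice of Galois-stable period relations of a polarised object. -/

namespace Pool.Agent.Lib.MPf11a48.CM

open Matrix Module

variable {E : Type} [CommRing E] [Algebra ℚ E]

instance algebraicQbar : Algebra.IsAlgebraic ℚ Qbar := ⟨fun x => by
  have h : IsAlgebraic ℚ (x : ℂ) := mem_algebraicClosure_iff.1 x.2
  have h2 := (isAlgebraic_algHom_iff (R := ℚ) ((algebraMap Qbar ℂ).toRatAlgHom)
    (algebraMap Qbar ℂ).injective (a := x)).1 h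
  exact h2⟩

instance algClosedQbar : IsAlgClosed Qbar :=
  (@algebraicClosure.isAlgClosure ℚ ℂ _ _ _ _).isAlgClosed

instance algClosureQbar : IsAlgClosure ℚ Qbar := ⟨inferInstance, inferInstance⟩

instance normalQbar : Normal ℚ Qbar := IsAlgClosure.normal ℚ Qbar

/-- complex conjugation on the algebraic numbers -/
noncomputable def ccQ : Qbar ≃ₐ[ℚ] Qbar :=
  (Complex.conjAe.restrictScalars ℚ : ℂ ≃ₐ[ℚ] ℂ).restrictNormal Qbar

theorem ccQ_coe (x : Qbar) : ((ccQ x : Qbar) : ℂ) = starRingEnd ℂ (x : ℂ) :=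
  AlgEquiv.restrictNormal_commutes (Complex.conjAe.restrictScalars ℚ : ℂ ≃ₐ[ℚ] ℂ) Qbar x

/-- The conjugate embedding `σ ∘ ρ`. -/
noncomputable def bar (ρ : E ≃ₐ[ℚ] E) : Emb E ≃ Emb E where
  toFun σ := σ.comp (ρ : E →ₐ[ℚ] E)
  invFun σ := σ.comp (ρ.symm : E →ₐ[ℚ] E)
  left_inv σ := by
    refine AlgHom.ext fun x => ?_
    simp
  right_inv σ := by
    refine AlgHom.ext fun x => ?_
    simp

@[simp] theorem bar_apply (ρ : E ≃ₐ[ℚ] E) (σ : Emb E) (x : E) : bar ρ σ x = σ (ρ x) := rfl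

theorem bar_eq_gal {ρ : E ≃ₐ[ℚ] E} (cm : IsCM ρ) (σ : Emb E) : bar ρ σ = gal ccQ σ := by
  refine AlgHom.ext fun x => Subtype.ext ?_
  rw [bar_apply, gal_apply, cm.conj, ccQ_coe]

theorem bar_bar {ρ : E ≃ₐ[ℚ] E} (cm : IsCM ρ) (σ : Emb E) : bar ρ (bar ρ σ) = σ := by
  refine AlgHom.ext fun x => Subtype.ext ?_
  rw [bar_apply, cm.conj, bar_apply, cm.conj, Complex.conj_conj]

theorem bar_gal {ρ : E ≃ₐ[ℚ] E} (γ : Qbar ≃ₐ[ℚ] Qbar) (σ : Emb E) :
    bar ρ (gal γ σ) = gal γ (bar ρ σ) := rfl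

section Core

variable [Fintype (Emb E)]

/-- `χ` is a relation all of whose Galois conjugates are relations. -/
def InCore (s : Emb E → ℂ) (χ : Emb E → ℤ) : Prop :=
  ∀ γ : Qbar ≃ₐ[ℚ] Qbar, (∏ σ, s (gal γ σ) ^ χ σ) ∈ Qbar

variable {s : Emb E → ℂ}

theorem InCore.add (hs : ∀ σ, s σ ≠ 0) {χ χ' : Emb E → ℤ} (h : InCore s χ) (h' : InCore s χ') :
    InCore s (fun σ => χ σ + χ' σ) := by
  intro γ
  have : (∏ σ, s (gal γ σ) ^ (χ σ + χ' σ)) =
      (∏ σ, s (gal γ σ) ^ χ σ) * ∏ σ, s (gal γ σ) ^ χ' σ := by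
    simp only [zpow_add₀ (hs _), Finset.prod_mul_distrib]
  rw [this]
  exact mul_mem (h γ) (h' γ)

theorem InCore.zero : InCore s (fun _ => 0) := by
  intro γ
  simp only [zpow_zero, Finset.prod_const_one]
  exact one_mem _

theorem InCore.smul {χ : Emb E → ℤ} (h : InCore s χ) (n : ℤ) :
    InCore s (fun σ => n * χ σ) := by
  intro γ
  have : (∏ σ, s (gal γ σ) ^ (n * χ σ)) = (∏ σ, s (gal γ σ) ^ χ σ) ^ n := by
    rw [← Finset.prod_zpow]
    refine Finset.prod_congr rfl fun σ _ => ?_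
    rw [mul_comm, _root_.zpow_mul]
  rw [this]
  exact zpow_mem (h γ) n

theorem mem_Qbar_of_pow {z : ℂ} {n : ℕ} (hn : n ≠ 0) (h : z ^ n ∈ Qbar) : z ∈ Qbar := by
  rw [mem_algebraicClosure_iff] at h ⊢
  exact IsAlgebraic.of_pow (Nat.pos_of_ne_zero hn) h

theorem InCore.sat {χ : Emb E → ℤ} {n : ℕ} (hn : n ≠ 0)
    (h : InCore s (fun σ => (n : ℤ) * χ σ)) : InCore s χ := by
  intro γ
  have h1 := h γ
  have : (∏ σ, s (gal γ σ) ^ ((n : ℤ) * χ σ)) = (∏ σ, s (gal γ σ) ^ χ σ) ^ n := by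
    rw [← Finset.prod_pow]
    refine Finset.prod_congr rfl fun σ _ => ?_
    rw [mul_comm, _root_.zpow_mul, zpow_natCast]
  rw [this] at h1
  exact mem_Qbar_of_pow hn h1

theorem InCore.gal {χ : Emb E → ℤ} (h : InCore s χ) (δ : Qbar ≃ₐ[ℚ] Qbar) :
    InCore s (fun σ => χ (gal δ σ)) := by
  intro γ
  have h1 := h (δ.symm.trans γ)
  have : (∏ σ, s (CM.gal γ σ) ^ χ (CM.gal δ σ)) =
      ∏ σ, s (CM.gal (δ.symm.trans γ) σ) ^ χ σ := by
    refine Fintype.prod_equiv (CM.gal δ) _ _ fun σ => ?_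
    congr 2
    refine AlgHom.ext fun x => ?_
    simp
  rw [this]
  exact h1

end Core

/-- The odd part of the Galois module of functions on the embeddings is rigid: every nonzero
Galois-stable space of odd functions contains `δ_σ - δ_{σ ∘ ρ}` for some embedding `σ`. -/
def OddRigid (ρ : E ≃ₐ[ℚ] E) : Prop :=
  ∀ U : Submodule ℚ ((E →ₐ[ℚ] Qbar) → ℚ), (∀ u ∈ U, IsOdd ρ u) →
    (∀ γ : Qbar ≃ₐ[ℚ] Qbar, ∀ u ∈ U, (fun σ => u ((γ : Qbar →ₐ[ℚ] Qbar).comp σ)) ∈ U) →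
    U ≠ ⊥ → ∃ σ : E →ₐ[ℚ] Qbar, oddVec ρ σ ∈ U

section Main

variable [Fintype (Emb E)] {s : Emb E → ℂ} {ρ : E ≃ₐ[ℚ] E}

/-- the space of odd functions some multiple of which is a Galois-stable relation -/
noncomputable def oddCore (ρ : E ≃ₐ[ℚ] E) (s : Emb E → ℂ) (hs : ∀ σ, s σ ≠ 0) :
    Submodule ℚ ((E →ₐ[ℚ] Qbar) → ℚ) where
  carrier := {u | IsOdd ρ u ∧ ∃ (n : ℕ) (χ : Emb E → ℤ), n ≠ 0 ∧
    (∀ σ, (n : ℚ) * u σ = χ σ) ∧ InCore s χ}
  zero_mem' := ⟨fun σ => by simp, 1, fun _ => 0, one_ne_zero, fun σ => by simp, InCore.zero⟩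
  add_mem' := by
    rintro u v ⟨hu, n, χ, hn, hχ, hc⟩ ⟨hv, m, χ', hm, hχ', hc'⟩
    refine ⟨fun σ => ?_, n * m, fun σ => (m : ℤ) * χ σ + (n : ℤ) * χ' σ,
      Nat.mul_ne_zero hn hm, fun σ => ?_, InCore.add hs (hc.smul m) (hc'.smul n)⟩
    · simp only [Pi.add_apply, hu σ, hv σ]
      ring
    · push_cast
      rw [Pi.add_apply, ← hχ σ, ← hχ' σ]
      ring
  smul_mem' := by
    rintro a u ⟨hu, n, χ, hn, hχ, hc⟩
    refine ⟨fun σ => ?_, n * a.den, fun σ => a.num * χ σ,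
      Nat.mul_ne_zero hn a.den_ne_zero, fun σ => ?_, hc.smul _⟩
    · simp only [Pi.smul_apply, hu σ, smul_eq_mul]
      ring
    · push_cast
      rw [Pi.smul_apply, smul_eq_mul, ← hχ σ]
      have := Rat.num_div_den a
      have hd : (a.den : ℚ) ≠ 0 := by exact_mod_cast a.den_ne_zero
      calc (n : ℚ) * a.den * (a * u σ) = a.den * a * (n * u σ) := by ring
        _ = a.num * (n * u σ) := by
          congr 1
          rw [mul_comm]
          exact Rat.mul_den_eq_num a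

theorem core_even (cm : IsCM ρ) (hs : ∀ σ, s σ ≠ 0) (hrig : OddRigid ρ) {w : ℤ} (hw : w ≠ 0)
    (hpi : ∀ n : ℤ, (2 * Real.pi * Complex.I : ℂ) ^ n ∈ Qbar → n = 0)
    {α : Emb E → Qbar} (hα : ∀ σ, α σ ≠ 0)
    (hpol : ∀ σ, s σ * s (bar ρ σ) = (2 * Real.pi * Complex.I : ℂ) ^ w * (α σ : ℂ))
    {lam : ℂ} (hlam : lam ^ 2 = (2 * Real.pi * Complex.I : ℂ) ^ w)
    (hne : ∀ σ, s σ / lam ∉ Qbar) {χ : Emb E → ℤ} (hχ : InCore s χ) :
    (∀ σ, χ (bar ρ σ) = χ σ) ∧ ∑ σ, χ σ = 0 := by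
  have hχ' : InCore s (fun σ => χ (bar ρ σ)) := by
    have := hχ.gal ccQ
    simpa only [bar_eq_gal cm] using this
  constructor
  · -- the odd part vanishes
    by_contra hcon
    push Not at hcon
    obtain ⟨σ₁, hσ₁⟩ := hcon
    have hodd : InCore s (fun σ => χ σ - χ (bar ρ σ)) := by
      have := InCore.add hs hχ (hχ'.smul (-1))
      simpa only [neg_mul, one_mul, ← sub_eq_add_neg] using this
    have hmem : (fun σ => ((χ σ - χ (bar ρ σ) : ℤ) : ℚ)) ∈ oddCore ρ s hs := by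
      refine ⟨fun σ => ?_, 1, _, one_ne_zero, fun σ => ?_, hodd⟩
      · change ((χ (bar ρ σ) - χ (bar ρ (bar ρ σ)) : ℤ) : ℚ) = -((χ σ - χ (bar ρ σ) : ℤ) : ℚ)
        rw [bar_bar cm]
        push_cast
        ring
      · simp
    have hne0 : oddCore ρ s hs ≠ ⊥ := by
      intro h0
      rw [h0, Submodule.mem_bot] at hmem
      have := congrFun hmem σ₁
      simp only [Pi.zero_apply] at this
      have h2 : χ σ₁ - χ (bar ρ σ₁) = 0 := by exact_mod_cast this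
      exact hσ₁ (by omega)
    obtain ⟨σ, -, n, χ₀, hn, hχ₀, hc₀⟩ := hrig (oddCore ρ s hs) (fun u hu => hu.1)
      (by
        rintro γ u ⟨hu, n, χ, hn, hχ, hc⟩
        exact ⟨fun σ => hu (gal γ σ), n, fun σ => χ (gal γ σ), hn, fun σ => hχ _,
          hc.gal γ⟩) hne0
    -- `n (δ_σ - δ_{σ̄})` is in the core
    classical
    have h1 : InCore s (fun τ => (n : ℤ) * ((if τ = σ then 1 else 0) -
        if τ = bar ρ σ then 1 else 0)) := by
      convert hc₀ using 2 with τ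
      have h2 := hχ₀ τ
      have h3 : (((n : ℤ) * ((if τ = σ then 1 else 0) - if τ = bar ρ σ then 1 else 0) : ℤ) : ℚ) =
          χ₀ τ := by
        rw [← h2, oddVec]
        push_cast
        rfl
      exact_mod_cast h3
    have h2 := h1.sat hn 1
    have h3 : (∏ τ, s (gal (1 : Qbar ≃ₐ[ℚ] Qbar) τ) ^ ((if τ = σ then (1 : ℤ) else 0) -
        if τ = bar ρ σ then 1 else 0)) = s σ / s (bar ρ σ) := by
      have e1 : ∀ τ : Emb E, gal (1 : Qbar ≃ₐ[ℚ] Qbar) τ = τ := fun τ =>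
        AlgHom.ext fun x => rfl
      simp only [e1, zpow_sub₀ (hs _), Finset.prod_div_distrib]
      congr 1
      · rw [Finset.prod_eq_single σ]
        · simp
        · intro τ _ hτ
          simp [hτ]
        · intro h
          exact absurd (Finset.mem_univ _) h
      · rw [Finset.prod_eq_single (bar ρ σ)]
        · simp
        · intro τ _ hτ
          simp [hτ]
        · intro h
          exact absurd (Finset.mem_univ _) h
    rw [h3] at h2
    -- hence `(s σ / lam) ^ 2` is algebraic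
    have hpi0 : (2 * Real.pi * Complex.I : ℂ) ^ w ≠ 0 := by
      refine zpow_ne_zero _ ?_
      simp [Real.pi_ne_zero]
    have hlam0 : lam ≠ 0 := by
      intro h0
      rw [h0] at hlam
      exact hpi0 (by rw [← hlam]; simp)
    apply hne σ
    refine mem_Qbar_of_pow (n := 2) two_ne_zero ?_
    have h4 : (s σ / lam) ^ 2 = (s σ / s (bar ρ σ)) * (α σ : ℂ) := by
      rw [div_pow, hlam]
      have h5 := hpol σ
      have h6 := hs (bar ρ σ)
      field_simp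
      rw [pow_two, mul_assoc, h5]
      ring
    rw [h4]
    exact mul_mem h2 (α σ).2
  · -- the degree vanishes
    have h1 := InCore.add hs hχ hχ' 1
    have e1 : ∀ τ : Emb E, gal (1 : Qbar ≃ₐ[ℚ] Qbar) τ = τ := fun τ =>
      AlgHom.ext fun x => rfl
    have h2 : (∏ σ, s (gal (1 : Qbar ≃ₐ[ℚ] Qbar) σ) ^ (χ σ + χ (bar ρ σ))) =
        ((2 * Real.pi * Complex.I : ℂ) ^ (w * ∑ σ, χ σ)) * ∏ σ, (α σ : ℂ) ^ χ σ := by
      simp only [e1, zpow_add₀ (hs _), Finset.prod_mul_distrib]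
      have e2 : (∏ σ, s σ ^ χ (bar ρ σ)) = ∏ σ, s (bar ρ σ) ^ χ σ := by
        refine Fintype.prod_equiv (bar ρ) _ _ fun σ => ?_
        rw [bar_bar cm]
      rw [e2, ← Finset.prod_mul_distrib]
      have e3 : ∀ σ, s σ ^ χ σ * s (bar ρ σ) ^ χ σ =
          ((2 * Real.pi * Complex.I : ℂ) ^ w) ^ χ σ * (α σ : ℂ) ^ χ σ := by
        intro σ
        rw [← _root_.mul_zpow, hpol, _root_.mul_zpow]
      simp only [e3, Finset.prod_mul_distrib]
      congr 1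
      have hpi0 : (2 * Real.pi * Complex.I : ℂ) ^ w ≠ 0 := by
        refine zpow_ne_zero _ ?_
        simp [Real.pi_ne_zero]
      rw [← zpow_sum₀ _ hpi0, ← _root_.zpow_mul]
    rw [h2] at h1
    have h3 : (∏ σ, (α σ : ℂ) ^ χ σ) ∈ Qbar := prod_mem fun σ _ => zpow_mem (α σ).2 _
    have h4 : (∏ σ, (α σ : ℂ) ^ χ σ) ≠ 0 := Finset.prod_ne_zero_iff.2 fun σ _ =>
      zpow_ne_zero _ (by
        intro h0
        exact hα σ (Subtype.ext h0))
    have h5 : (2 * Real.pi * Complex.I : ℂ) ^ (w * ∑ σ, χ σ) ∈ Qbar := by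
      have := div_mem h1 h3
      rwa [mul_div_assoc, div_self h4, mul_one] at this
    exact (mul_eq_zero.1 (hpi _ h5)).resolve_left hw

/-- a choice of one embedding in each conjugate pair -/
theorem exists_half (cm : IsCM ρ) : ∃ Φ : Finset (Emb E), ∀ σ, (σ ∈ Φ ↔ bar ρ σ ∉ Φ) := by
  classical
  obtain ⟨f⟩ : Nonempty (Emb E ≃ Fin (Fintype.card (Emb E))) := ⟨Fintype.equivFin _⟩
  refine ⟨Finset.univ.filter fun σ => f σ < f (bar ρ σ), fun σ => ?_⟩
  simp only [Finset.mem_filter, Finset.mem_univ, true_and, bar_bar cm, not_lt]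
  constructor
  · exact fun h => h.le
  · intro h
    refine lt_of_le_of_ne h fun h1 => cm.ne σ ?_
    exact (f.injective h1).symm

theorem prod_sim (cm : IsCM ρ) {χ : Emb E → ℤ} (h1 : ∀ σ, χ (bar ρ σ) = χ σ)
    (h2 : ∑ σ, χ σ = 0) {t : Emb E → ℂ} (ht : ∀ σ, t σ ≠ 0) {μ : ℂ}
    (hμ : ∀ σ, t σ * t (bar ρ σ) = μ) : ∏ σ, t σ ^ χ σ = 1 := by
  classical
  obtain ⟨Φ, hΦ⟩ := exists_half cm
  have hcompl : ∀ {M : Type} [CommMonoid M] (g : Emb E → M),
      ∏ σ, g σ = (∏ σ ∈ Φ, g σ) * ∏ σ ∈ Φ, g (bar ρ σ) := by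
    intro M _ g
    rw [← Finset.prod_mul_prod_compl Φ g]
    congr 1
    refine Finset.prod_bij' (fun σ _ => bar ρ σ) (fun σ _ => bar ρ σ) ?_ ?_ ?_ ?_ ?_
    · intro σ hσ
      rw [Finset.mem_compl] at hσ
      by_contra h
      exact hσ ((hΦ σ).2 h)
    · intro σ hσ
      rw [Finset.mem_compl]
      exact (hΦ σ).1 hσ
    · intro σ _
      exact bar_bar cm σ
    · intro σ _
      exact bar_bar cm σ
    · intro σ _
      rw [bar_bar cm]
  have hsum : ∑ σ ∈ Φ, χ σ = 0 := by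
    have h3 := hcompl (M := Multiplicative ℤ) (fun σ => Multiplicative.ofAdd (χ σ))
    have h4 : ∑ σ, χ σ = (∑ σ ∈ Φ, χ σ) + ∑ σ ∈ Φ, χ (bar ρ σ) := by
      have := congrArg Multiplicative.toAdd h3
      simpa only [toAdd_mul, toAdd_prod, toAdd_ofAdd] using this
    simp only [h1] at h4
    rw [h2] at h4
    omega
  rw [hcompl, ← Finset.prod_mul_distrib]
  have e : ∀ σ, t σ ^ χ σ * t (bar ρ σ) ^ χ (bar ρ σ) = μ ^ χ σ := by
    intro σ
    rw [h1, ← _root_.mul_zpow, hμ]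
  simp only [e]
  by_cases hΦe : Φ.Nonempty
  · obtain ⟨σ, _⟩ := hΦe
    have hμ0 : μ ≠ 0 := by
      rw [← hμ σ]
      exact mul_ne_zero (ht _) (ht _)
    rw [← zpow_sum₀ _ hμ0, hsum, zpow_zero]
  · rw [Finset.not_nonempty_iff_eq_empty.1 hΦe, Finset.prod_empty]

end Main

end Pool.Agent.Lib.MPf11a48.CM
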