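import Pool.Agent.Lib.MP_f11a48_ag.helper16.Defs

/-! Basic facts on the action on tensor spaces. -/

namespace Pool.Agent.Lib.MPf11a48.CM

open Matrix

variable {ι κ μ R : Type} [CommRing R]

theorem tens_mul [Fintype κ] (n m : ℕ) (g : Matrix μ κ R) (g' : Matrix κ μ R)
    (h : Matrix κ ι R) (h' : Matrix ι κ R) :
    tens n m (g * h) (h' * g') = tens n m g g' * tens n m h h' := by
  classical
  ext I J
  simp only [tens, Matrix.mul_apply]
  rw [Fintype.sum_prod_type]
  have e1 : (∏ a, ∑ j, g (I.1 a) j * h j (J.1 a)) =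
      ∑ p : Fin n → κ, ∏ a, (g (I.1 a) (p a) * h (p a) (J.1 a)) := by
    rw [Finset.prod_univ_sum]
    simp
  have e2 : (∏ b, ∑ j, h' (J.2 b) j * g' j (I.2 b)) =
      ∑ p : Fin m → κ, ∏ b, (h' (J.2 b) (p b) * g' (p b) (I.2 b)) := by
    rw [Finset.prod_univ_sum]
    simp
  rw [e1, e2, Finset.sum_mul_sum]
  refine Finset.sum_congr rfl fun p _ => Finset.sum_congr rfl fun q _ => ?_
  simp only [Finset.prod_mul_distrib]
  ring

theorem act_mul [Fintype ι] [Fintype κ] {r : ℕ} (s : Fin r → ℕ × ℕ) (g : Matrix μ κ R)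
    (g' : Matrix κ μ R) (h : Matrix κ ι R) (h' : Matrix ι κ R) (v : SIdx ι s → R) :
    act s (g * h) (h' * g') v = act s g g' (act s h h' v) := by
  funext x
  simp only [act, LinearMap.coe_mk, AddHom.coe_mk, tens_mul, Matrix.mul_apply, Finset.sum_mul,
    Finset.mul_sum]
  rw [Finset.sum_comm]
  exact Finset.sum_congr rfl fun _ _ => Finset.sum_congr rfl fun _ _ => by ring

/-- the weight of an index for a diagonal matrix -/
def wt {r : ℕ} {s : Fin r → ℕ × ℕ} (d d' : κ → R) (x : SIdx κ s) : R :=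
  (∏ a, d (x.2.1 a)) * ∏ b, d' (x.2.2 b)

theorem tens_diagonal [DecidableEq κ] (n m : ℕ) (d d' : κ → R) (I J : TIdx κ n m) :
    tens n m (diagonal d) (diagonal d') I J =
      if I = J then (∏ a, d (I.1 a)) * ∏ b, d' (I.2 b) else 0 := by
  classical
  unfold tens
  split_ifs with h
  · subst h
    simp
  · by_cases h1 : I.1 = J.1
    · have h2 : I.2 ≠ J.2 := fun h2 => h (Prod.ext h1 h2)
      obtain ⟨b, hb⟩ := Function.ne_iff.1 h2
      have : (∏ b, diagonal d' (J.2 b) (I.2 b)) = 0 :=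
        Finset.prod_eq_zero (Finset.mem_univ b) (diagonal_apply_ne _ (Ne.symm hb))
      rw [this, mul_zero]
    · obtain ⟨a, ha⟩ := Function.ne_iff.1 h1
      have : (∏ a, diagonal d (I.1 a) (J.1 a)) = 0 :=
        Finset.prod_eq_zero (Finset.mem_univ a) (diagonal_apply_ne _ ha)
      rw [this, zero_mul]

theorem act_diagonal [Fintype κ] [DecidableEq κ] {r : ℕ} (s : Fin r → ℕ × ℕ) (d d' : κ → R)
    (v : SIdx κ s → R) (x : SIdx κ s) :
    act s (diagonal d) (diagonal d') v x = wt d d' x * v x := by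
  simp only [act, LinearMap.coe_mk, AddHom.coe_mk, tens_diagonal, wt]
  rw [Finset.sum_eq_single x.2]
  · simp
  · intro J _ hJ
    rw [if_neg (Ne.symm hJ), zero_mul]
  · intro h
    exact absurd (Finset.mem_univ _) h

theorem act_one [Fintype ι] [DecidableEq ι] {r : ℕ} (s : Fin r → ℕ × ℕ) (v : SIdx ι s → R) :
    act s (1 : Matrix ι ι R) 1 v = v := by
  funext x
  have := act_diagonal s (fun _ => (1 : R)) (fun _ => (1 : R)) v x
  rw [diagonal_one] at this
  rw [this]
  simp [wt]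

/-- compatibility with ring homomorphisms -/
theorem act_map {R' : Type} [CommRing R'] (φ : R →+* R') [Fintype ι] {r : ℕ}
    (s : Fin r → ℕ × ℕ) (g : Matrix κ ι R) (g' : Matrix ι κ R) (v : SIdx ι s → R)
    (x : SIdx κ s) :
    φ (act s g g' v x) = act s (g.map φ) (g'.map φ) (fun y => φ (v y)) x := by
  simp only [act, LinearMap.coe_mk, AddHom.coe_mk, tens, map_sum, map_mul, map_prod, Matrix.map_apply]

theorem act_congr [Fintype ι] {r : ℕ} (s : Fin r → ℕ × ℕ) {g h : Matrix κ ι R}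
    {g' h' : Matrix ι κ R} (e : g = h) (e' : g' = h') : act s g g' = act s h h' := by
  rw [e, e']

end Pool.Agent.Lib.MPf11a48.CM
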