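import Mathlib

/-!
# de Rham-Betti objects in coordinates, and objects with complex multiplication

Bases are chosen: a de Rham-Betti object of rank `#ι` over `K ⊆ ℂ` is `M_dR = K^ι`,
`M_B = ℚ^ι` and an invertible complex matrix `c` (the period comparison isomorphism).
-/

namespace Pool.Agent.Lib.MPf11a48.CM

open Matrix

/-- The field of algebraic numbers, as an intermediate field of `ℂ / ℚ`. -/
noncomputable abbrev Qbar : IntermediateField ℚ ℂ := algebraicClosure ℚ ℂ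

/-- Indices of the coordinates of the tensor space `V^{⊗ n} ⊗ (V^∨)^{⊗ m}` of a space `V` with a
basis indexed by `ι`. -/
abbrev TIdx (ι : Type) (n m : ℕ) : Type := (Fin n → ι) × (Fin m → ι)

/-- Indices of the coordinates of the direct sum of the tensor spaces
`V^{⊗ (s k).1} ⊗ (V^∨)^{⊗ (s k).2}`, `k < r`. -/
abbrev SIdx (ι : Type) {r : ℕ} (s : Fin r → ℕ × ℕ) : Type :=
  (k : Fin r) × TIdx ι (s k).1 (s k).2

/-- The matrix of the map `V^{⊗ n} ⊗ (V^∨)^{⊗ m} → V'^{⊗ n} ⊗ (V'^∨)^{⊗ m}` induced by an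
isomorphism `V → V'` with matrix `g` and inverse matrix `g'`. -/
def tens {ι κ R : Type} [CommRing R] (n m : ℕ) (g : Matrix κ ι R) (g' : Matrix ι κ R) :
    Matrix (TIdx κ n m) (TIdx ι n m) R :=
  fun I J => (∏ a, g (I.1 a) (J.1 a)) * ∏ b, g' (J.2 b) (I.2 b)

/-- The action of `g` (with inverse `g'`) on a direct sum of tensor spaces. -/
def act {ι κ R : Type} [Fintype ι] [CommRing R] {r : ℕ} (s : Fin r → ℕ × ℕ)
    (g : Matrix κ ι R) (g' : Matrix ι κ R) : (SIdx ι s → R) →ₗ[R] (SIdx κ s → R) where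
  toFun v x := ∑ J, tens (s x.1).1 (s x.1).2 g g' x.2 J * v ⟨x.1, J⟩
  map_add' u v := by
    funext x
    simp only [Pi.add_apply, mul_add, Finset.sum_add_distrib]
  map_smul' a v := by
    funext x
    simp only [Pi.smul_apply, smul_eq_mul, RingHom.id_apply, Finset.mul_sum]
    exact Finset.sum_congr rfl fun _ _ => by ring

/-- The complex span of a set of vectors with coordinates in a subfield `k` of `ℂ`. -/
def spanC {k : Type} [Field k] [Algebra k ℂ] {J : Type} (W : Submodule k (J → k)) :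
    Submodule ℂ (J → ℂ) :=
  Submodule.span ℂ {v | ∃ w ∈ W, v = fun j => algebraMap k ℂ (w j)}

variable {ι : Type} [Fintype ι] [DecidableEq ι]

/-- `(WdR, WB)` is a sub-object of the direct sum of the tensor spaces (described by `s`) of the
de Rham-Betti object `(K^ι, ℚ^ι, c)`. -/
def IsSub (K : IntermediateField ℚ ℂ) (c : GL ι ℂ) {r : ℕ} (s : Fin r → ℕ × ℕ)
    (WdR : Submodule K (SIdx ι s → K)) (WB : Submodule ℚ (SIdx ι s → ℚ)) : Prop :=
  (spanC WdR).map (act s c.1 c⁻¹.1) = spanC WB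

/-- The complex points of the torsor `Ω^dRB_M` of isomorphisms `M_dR ⊗ ℂ → M_B ⊗ ℂ` that respect
every sub-object of every finite direct sum of tensor spaces of `M = (K^ι, ℚ^ι, c)`. -/
def OmegaDRB (K : IntermediateField ℚ ℂ) (c : GL ι ℂ) : Set (GL ι ℂ) :=
  {f | ∀ (r : ℕ) (s : Fin r → ℕ × ℕ) (WdR : Submodule K (SIdx ι s → K))
    (WB : Submodule ℚ (SIdx ι s → ℚ)), IsSub K c s WdR WB →
      (spanC WdR).map (act s f.1 f⁻¹.1) = spanC WB}

/-- A pair of tensors `α_dR ∈ V_dR^{⊗ n} ⊗ (V_dR^∨)^{⊗ m}`, `α_B ∈ V_B^{⊗ n} ⊗ (V_B^∨)^{⊗ m}`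
(given by their coordinates). -/
structure TPair (K : IntermediateField ℚ ℂ) (ι : Type) where
  /-- number of factors `V` -/
  n : ℕ
  /-- number of factors `V^∨` -/
  m : ℕ
  /-- the de Rham tensor -/
  dR : TIdx ι n m → K
  /-- the Betti tensor -/
  B : TIdx ι n m → ℚ

/-- `f` maps the de Rham tensor of `α` to the Betti tensor of `α`, i.e. `f ∈ Ω_α`. -/
def Fixes {K : IntermediateField ℚ ℂ} (f : GL ι ℂ) (α : TPair K ι) : Prop :=
  ∀ I, ∑ J, tens α.n α.m f.1 f⁻¹.1 I J * (α.dR J : ℂ) = (α.B I : ℂ)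

/-- For a set `S` of classes, `Ω_S = ⋂_{α ∈ S} Ω_α` (complex points). -/
def OmegaS {K : IntermediateField ℚ ℂ} (S : Set (TPair K ι)) : Set (GL ι ℂ) :=
  {f | ∀ α ∈ S, Fixes f α}

end Pool.Agent.Lib.MPf11a48.CM
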