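import Pool.Agent.Lib.MP_f11a48_ag.helper16.Sep
import Pool.Agent.Lib.MP_f11a48_ag.helper17.Rigid

/-! CM fields of degree `2 p` without imaginary quadratic subfield are separating. -/

namespace Pool.Agent.Lib.MPf11a48.CM

open Module

variable {F : Type} [Field F] [NumberField F] {ρ : F ≃ₐ[ℚ] F}

/-- An odd eigenvector of the Galois group yields an imaginary quadratic subfield. -/
theorem no_eigen (cm : IsCM ρ)
    (hF : ∀ (x : F) (q : ℚ), x ^ 2 = algebraMap ℚ F q → 0 ≤ q)
    {u : (F →ₐ[ℚ] Qbar) → ℚ} (hodd : IsOdd ρ u) {σ₀ : F →ₐ[ℚ] Qbar} (hu0 : u σ₀ ≠ 0)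
    (heig : ∀ γ : Qbar ≃ₐ[ℚ] Qbar, ∀ τ, u (gal γ τ) = u (gal γ σ₀) / u σ₀ * u τ) : False := by
  classical
  have := Fintype.ofFinite (F →ₐ[ℚ] Qbar)
  have hsq : ∀ γ : Qbar ≃ₐ[ℚ] Qbar, (u (gal γ σ₀) / u σ₀) ^ 2 = 1 := by
    intro γ
    have h1 : ∑ τ, u (gal γ τ) ^ 2 = ∑ τ, u τ ^ 2 :=
      Equiv.sum_comp (gal γ) (fun τ => u τ ^ 2)
    have h2 : ∑ τ, u (gal γ τ) ^ 2 = (u (gal γ σ₀) / u σ₀) ^ 2 * ∑ τ, u τ ^ 2 := by
      rw [Finset.mul_sum]
      refine Finset.sum_congr rfl fun τ _ => ?_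
      rw [heig γ τ]
      ring
    have h3 : 0 < ∑ τ, u τ ^ 2 := by
      refine Finset.sum_pos' (fun τ _ => sq_nonneg _) ⟨σ₀, Finset.mem_univ _, ?_⟩
      exact pow_pos (lt_of_le_of_ne (sq_nonneg _) (Ne.symm (pow_ne_zero 2 hu0))) 1 |>.trans_eq
        (pow_one _)
    rw [h1] at h2
    exact mul_right_cancel₀ h3.ne' (by rw [← h2, one_mul])
  -- the Gauss-sum like element
  let t : F → Qbar := fun y => ∑ τ : F →ₐ[ℚ] Qbar, algebraMap ℚ Qbar (u τ) * τ y
  have ht : ∀ (γ : Qbar ≃ₐ[ℚ] Qbar) (y : F),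
      γ (t y) = algebraMap ℚ Qbar (u (gal γ.symm σ₀) / u σ₀) * t y := by
    intro γ y
    simp only [t, map_sum, map_mul, AlgEquiv.commutes, Finset.mul_sum]
    rw [← Equiv.sum_comp (gal γ) (fun τ => algebraMap ℚ Qbar (u (gal γ.symm σ₀) / u σ₀) *
      (algebraMap ℚ Qbar (u τ) * τ y))]
    refine Finset.sum_congr rfl fun τ _ => ?_
    have h1 : u τ = u (gal γ.symm σ₀) / u σ₀ * u (gal γ τ) := by
      rw [← heig γ.symm (gal γ τ)]
      congr 1
      refine AlgHom.ext fun z => ?_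
      exact (γ.symm_apply_apply (τ z)).symm
    rw [gal_apply, ← mul_assoc, ← map_mul, ← h1]
  obtain ⟨y, hy⟩ : ∃ y, t y ≠ 0 := by
    by_contra h
    push Not at h
    have hli := linearIndependent_toLinearMap ℚ F Qbar
    rw [Fintype.linearIndependent_iff] at hli
    have h1 := hli (fun τ => algebraMap ℚ Qbar (u τ)) (by
      refine LinearMap.ext fun y => ?_
      simp only [LinearMap.sum_apply, LinearMap.smul_apply, smul_eq_mul, LinearMap.zero_apply]
      exact h y) σ₀
    exact hu0 ((map_eq_zero _).1 h1)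
  -- its square is rational
  obtain ⟨q, hq⟩ := TranscendentalPi.exists_rat_of_fixed (t y ^ 2) (by
    intro γ
    rw [map_pow]
    have h1 : γ (t y) = algebraMap ℚ Qbar (u (gal γ.symm σ₀) / u σ₀) * t y := ht γ y
    rw [h1, mul_pow, ← map_pow, hsq, map_one, one_mul])
  -- it is purely imaginary
  have hconj : ccQ (t y) = -t y := by
    rw [ht ccQ y]
    have h1 : gal ccQ.symm σ₀ = bar ρ σ₀ := by
      have h2 : gal ccQ (bar ρ σ₀) = σ₀ := by rw [← bar_eq_gal cm, bar_bar cm]
      rw [← h2]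
      refine AlgHom.ext fun z => ?_
      rw [gal_apply, gal_apply, AlgEquiv.symm_apply_apply, h2]
    rw [h1]
    have h3 : u (bar ρ σ₀) = -u σ₀ := hodd σ₀
    rw [h3, neg_div, div_self hu0]
    simp
  -- it lies in the image of `F`
  have hmem : ∃ x : F, σ₀ x = t y := by
    have hG : IsGalois σ₀.fieldRange Qbar := inferInstance
    have h1 : t y ∈ (⊥ : IntermediateField σ₀.fieldRange Qbar) := by
      rw [InfiniteGalois.mem_bot_iff_fixed]
      intro φ
      let γ : Qbar ≃ₐ[ℚ] Qbar := φ.restrictScalars ℚ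
      have h2 : gal γ.symm σ₀ = σ₀ := by
        refine AlgHom.ext fun x => ?_
        rw [gal_apply, AlgEquiv.symm_apply_eq]
        exact (φ.commutes ⟨σ₀ x, x, rfl⟩).symm
      have h3 : γ (t y) = t y := by
        rw [ht γ y, h2, div_self hu0, map_one, one_mul]
      exact h3
    obtain ⟨⟨z, x, hx⟩, hz⟩ := IntermediateField.mem_bot.1 h1
    refine ⟨x, ?_⟩
    rw [← hz]
    exact hx
  obtain ⟨x, hx⟩ := hmem
  have hx2 : x ^ 2 = algebraMap ℚ F q := by
    have h1 : σ₀ (x ^ 2) = σ₀ (algebraMap ℚ F q) := by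
      rw [map_pow, hx, σ₀.commutes]
      exact hq.symm
    exact σ₀.injective h1
  have hq0 := hF x q hx2
  -- contradiction
  have h5 : ((t y : Qbar) : ℂ) ^ 2 = (q : ℂ) := by
    have := congrArg (algebraMap Qbar ℂ) hq
    rw [map_pow] at this
    rw [← IsScalarTower.algebraMap_apply] at this
    exact this.symm.trans (by simp)
  have h6 : starRingEnd ℂ ((t y : Qbar) : ℂ) = -((t y : Qbar) : ℂ) := by
    rw [← ccQ_coe, hconj]
    rfl
  have h7 : ((t y : Qbar) : ℂ) ≠ 0 := fun h => hy (Subtype.ext h)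
  have h8 : ((Complex.normSq ((t y : Qbar) : ℂ) : ℝ) : ℂ) = ((-(q : ℝ) : ℝ) : ℂ) := by
    rw [Complex.normSq_eq_conj_mul_self, h6]
    push_cast
    rw [← h5]
    ring
  have h9 : Complex.normSq ((t y : Qbar) : ℂ) = -(q : ℝ) := Complex.ofReal_injective h8
  have h10 := Complex.normSq_pos.2 h7
  rw [h9] at h10
  have : (0 : ℝ) ≤ (q : ℝ) := by exact_mod_cast hq0
  linarith

/-- the Galois action as a homomorphism to the permutations of the embeddings -/
noncomputable def galHom (F : Type) [Field F] [NumberField F] :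
    (Qbar ≃ₐ[ℚ] Qbar) →* Equiv.Perm (Emb F) where
  toFun := gal
  map_one' := by
    refine Equiv.ext fun σ => AlgHom.ext fun x => ?_
    rfl
  map_mul' γ δ := by
    refine Equiv.ext fun σ => AlgHom.ext fun x => ?_
    rfl

/-- an element of order `p` of the Galois group -/
theorem exists_gal_order {p : ℕ} (hp : p.Prime) (h : p ∣ Nat.card (F →ₐ[ℚ] Qbar)) :
    ∃ γ : Qbar ≃ₐ[ℚ] Qbar, orderOf (gal γ : Equiv.Perm (Emb F)) = p := by
  classical
  have := Fact.mk hp
  let σ₀ : F →ₐ[ℚ] Qbar := IsAlgClosed.lift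
  let H := (galHom F).range
  have hdvd : p ∣ Nat.card H := by
    have h1 : MulAction.orbit H σ₀ = Set.univ := by
      rw [Set.eq_univ_iff_forall]
      intro τ
      obtain ⟨γ, hγ⟩ := exists_gal σ₀ τ
      exact ⟨⟨galHom F γ, γ, rfl⟩, hγ⟩
    have h2 := MulAction.index_stabilizer H σ₀
    rw [h1, Set.ncard_univ] at h2
    rw [← h2] at h
    exact h.trans (Subgroup.index_dvd_card _)
  obtain ⟨⟨g, γ, hγ⟩, hg⟩ := exists_prime_orderOf_dvd_card' (G := H) p hdvd
  refine ⟨γ, ?_⟩
  have h1 : (gal γ : Equiv.Perm (Emb F)) = g := hγ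
  have h2 : orderOf (((⟨g, γ, hγ⟩ : H) : Equiv.Perm (Emb F))) = orderOf (⟨g, γ, hγ⟩ : H) :=
    Subgroup.orderOf_coe _
  rw [h1, ← hg, ← h2]

open Polynomial in
/-- **CM fields of degree `2 p`** (`p` an odd prime) without imaginary quadratic subfield. -/
theorem separating_of_prime (cm : IsCM ρ) {p : ℕ} (hp : p.Prime) (hp2 : p ≠ 2)
    (h : finrank ℚ F = 2 * p)
    (hF : ∀ (x : F) (q : ℚ), x ^ 2 = algebraMap ℚ F q → 0 ≤ q) : OddSeparating ρ := by
  classical
  have := Fact.mk hp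
  have := Fintype.ofFinite (F →ₐ[ℚ] Qbar)
  have hcard : Fintype.card (F →ₐ[ℚ] Qbar) = 2 * p := by
    rw [← Nat.card_eq_fintype_card, cm.card, h]
  obtain ⟨γ₀, hγ₀⟩ := exists_gal_order (F := F) hp (by
    rw [Nat.card_eq_fintype_card, hcard]
    exact dvd_mul_left _ _)
  set g : Equiv.Perm (Emb F) := gal γ₀ with hg
  have hgp : g ^ p = 1 := by
    rw [← hγ₀]
    exact pow_orderOf_eq_one g
  have hg1 : g ≠ 1 := by
    intro h1
    rw [h1, orderOf_one] at hγ₀
    exact hp.one_lt.ne hγ₀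
  obtain ⟨σ₀, hσ₀⟩ : ∃ σ, g σ ≠ σ := by
    by_contra hcon
    push Not at hcon
    exact hg1 (Equiv.ext hcon)
  have hcomm1 : ∀ σ, bar ρ (g σ) = g (bar ρ σ) := fun σ => bar_gal γ₀ σ
  have hcomm : ∀ (i : ℕ) σ, bar ρ ((g ^ i) σ) = (g ^ i) (bar ρ σ) := by
    intro i
    induction i with
    | zero => intro σ; rfl
    | succ i ih =>
      intro σ
      rw [pow_succ', Equiv.Perm.mul_apply, Equiv.Perm.mul_apply, hcomm1, ih]
  have hper : Function.IsPeriodicPt g p σ₀ := by
    change g^[p] σ₀ = σ₀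
    rw [Equiv.Perm.iterate_eq_pow, hgp]
    rfl
  have hmin : Function.minimalPeriod g σ₀ = p :=
    Function.minimalPeriod_eq_prime hper hσ₀
  have hinj : ∀ i j, i < p → j < p → (g ^ i) σ₀ = (g ^ j) σ₀ → i = j := by
    intro i j hi hj hij
    rw [← Equiv.Perm.iterate_eq_pow, ← Equiv.Perm.iterate_eq_pow] at hij
    exact (Function.iterate_eq_iterate_iff_of_lt_minimalPeriod (by rw [hmin]; exact hi)
      (by rw [hmin]; exact hj)).1 hij
  have hbar : ∀ i j : ℕ, (g ^ i) σ₀ ≠ bar ρ ((g ^ j) σ₀) := by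
    intro i j hij
    have h1 : bar ρ σ₀ = (g ^ ((p - 1) * j + i)) σ₀ := by
      rw [pow_add, Equiv.Perm.mul_apply, hij, hcomm, ← Equiv.Perm.mul_apply, ← pow_add]
      have h2 : (p - 1) * j + j = p * j := by
        have := hp.one_lt
        rw [Nat.sub_mul, one_mul, Nat.sub_add_cancel]
        exact Nat.le_mul_of_pos_left _ hp.pos
      rw [h2, pow_mul, hgp, one_pow]
      rfl
    set k := (p - 1) * j + i with hk
    have h2 : (g ^ (2 * k)) σ₀ = σ₀ := by
      have h3 : bar ρ (bar ρ σ₀) = (g ^ k) ((g ^ k) σ₀) := by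
        conv_lhs => rw [h1, hcomm, h1]
      rw [bar_bar cm, ← Equiv.Perm.mul_apply, ← pow_add, ← two_mul] at h3
      exact h3.symm
    have h3 : p ∣ 2 * k := by
      rw [← hmin]
      refine Function.IsPeriodicPt.minimalPeriod_dvd ?_
      change g^[2 * k] σ₀ = σ₀
      rw [Equiv.Perm.iterate_eq_pow, h2]
    have h4 : p ∣ k := by
      rcases hp.dvd_mul.1 h3 with h5 | h5
      · exact absurd ((Nat.prime_dvd_prime_iff_eq hp Nat.prime_two).1 h5) hp2
      · exact h5
    obtain ⟨m, hm⟩ := h4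
    rw [hm, pow_mul, hgp, one_pow] at h1
    exact cm.ne σ₀ h1
  have hbar' : ∀ i j : ℕ, (g ^ i) σ₀ ≠ ((g ^ j) σ₀ : Emb F).comp (ρ : F →ₐ[ℚ] F) :=
    fun i j => hbar i j
  have hall : ∀ τ : Emb F, ∃ i < p, τ = (g ^ i) σ₀ ∨ τ = bar ρ ((g ^ i) σ₀) := by
    let φ : Fin p × Bool → Emb F := fun x =>
      if x.2 then (g ^ (x.1 : ℕ)) σ₀ else bar ρ ((g ^ (x.1 : ℕ)) σ₀)
    have hφ : Function.Injective φ := by
      rintro ⟨i, a⟩ ⟨j, b⟩ hij
      cases a <;> cases b <;> simp only [φ] at hij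
      · have := hinj i j i.2 j.2 ((bar ρ).injective (by simpa using hij))
        rw [Fin.ext this]
      · exact absurd (by simpa using hij.symm) (hbar j i)
      · exact absurd (by simpa using hij) (hbar i j)
      · have := hinj i j i.2 j.2 (by simpa using hij)
        rw [Fin.ext this]
    have hφ2 : Function.Bijective φ := by
      rw [Fintype.bijective_iff_injective_and_card]
      refine ⟨hφ, ?_⟩
      rw [hcard, Fintype.card_prod, Fintype.card_fin, Fintype.card_bool, mul_comm]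
    intro τ
    obtain ⟨⟨i, a⟩, hi⟩ := hφ2.2 τ
    refine ⟨i, i.2, ?_⟩
    cases a
    · right
      rw [← hi]
      simp [φ]
    · left
      rw [← hi]
      simp [φ]
  intro U hodd hstab hne
  let T : Module.End ℚ (Emb F → ℚ) := LinearMap.funLeft ℚ ℚ (g⁻¹ : Equiv.Perm (Emb F))
  have hT : ∀ u τ, T u τ = u (g⁻¹ τ) := fun u τ => rfl
  have hTU : ∀ u ∈ U, T u ∈ U := fun u hu => hstab γ₀.symm u hu
  have hTpow : ∀ (i : ℕ) u τ, (T ^ i) u τ = u ((g⁻¹ ^ i) τ) := by
    intro i
    induction i with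
    | zero => intro u τ; rfl
    | succ i ih =>
      intro u τ
      rw [pow_succ, Module.End.mul_apply, ih, hT, pow_succ', Equiv.Perm.mul_apply]
  have hTp : T ^ p = 1 := by
    refine LinearMap.ext fun u => funext fun τ => ?_
    rw [hTpow, inv_pow, hgp, inv_one]
    rfl
  have hTodd : ∀ i : ℕ, (T ^ i) (oddVec ρ σ₀) = oddVec ρ ((g ^ i) σ₀) := by
    intro i
    funext τ
    rw [hTpow]
    have e1 : ∀ x : Emb F, ((g⁻¹ ^ i) τ = x) ↔ (τ = (g ^ i) x) := by
      intro x
      rw [inv_pow, Equiv.Perm.inv_eq_iff_eq]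
    have e2 : ((g ^ i) σ₀ : Emb F).comp (ρ : F →ₐ[ℚ] F) = (g ^ i) (bar ρ σ₀) := hcomm i σ₀
    simp only [oddVec]
    rw [e2, if_congr (e1 σ₀) rfl rfl]
    congr 1
    exact if_congr (e1 (bar ρ σ₀)) rfl rfl
  have hPU : ∀ (P : ℚ[X]) (u), u ∈ U → aeval T P u ∈ U := by
    intro P u hu
    induction P using Polynomial.induction_on' with
    | add P Q hP hQ =>
      rw [map_add]
      exact U.add_mem hP hQ
    | monomial n a =>
      rw [aeval_monomial, Module.End.mul_apply, Module.algebraMap_end_apply]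
      refine U.smul_mem a ?_
      induction n with
      | zero => exact hu
      | succ n ih =>
        rw [pow_succ', Module.End.mul_apply]
        exact hTU _ ih
  -- the polynomial of an odd function
  let Pol : (Emb F → ℚ) → ℚ[X] := fun v =>
    ∑ i ∈ Finset.range p, C (v ((g ^ i) σ₀)) * X ^ i
  have hPol : ∀ v, IsOdd ρ v → aeval T (Pol v) (oddVec ρ σ₀) = v := by
    intro v hv
    have h1 : aeval T (Pol v) (oddVec ρ σ₀) =
        ∑ i ∈ Finset.range p, v ((g ^ i) σ₀) • oddVec ρ ((g ^ i) σ₀) := by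
      simp only [Pol, map_sum, map_mul, aeval_C, map_pow, aeval_X]
      rw [LinearMap.sum_apply]
      refine Finset.sum_congr rfl fun i _ => ?_
      rw [Module.End.mul_apply, Module.algebraMap_end_apply, hTodd]
    rw [h1]
    have h2 : ∀ j < p, (∑ i ∈ Finset.range p, v ((g ^ i) σ₀) • oddVec ρ ((g ^ i) σ₀))
        ((g ^ j) σ₀) = v ((g ^ j) σ₀) := by
      intro j hj
      rw [Finset.sum_apply, Finset.sum_eq_single j]
      · simp only [Pi.smul_apply, smul_eq_mul, oddVec, if_true]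
        rw [if_neg (hbar' j j)]
        ring
      · intro i hi hij
        simp only [Pi.smul_apply, smul_eq_mul, oddVec]
        rw [if_neg (fun h3 => hij (hinj i j (Finset.mem_range.1 hi) hj h3.symm)),
          if_neg (hbar' j i)]
        ring
      · intro h3
        exact absurd (Finset.mem_range.2 hj) h3
    have h3 : ∀ τ, (∑ i ∈ Finset.range p, v ((g ^ i) σ₀) • oddVec ρ ((g ^ i) σ₀)) (bar ρ τ) =
        -(∑ i ∈ Finset.range p, v ((g ^ i) σ₀) • oddVec ρ ((g ^ i) σ₀)) τ := by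
      intro τ
      rw [Finset.sum_apply, Finset.sum_apply, ← Finset.sum_neg_distrib]
      refine Finset.sum_congr rfl fun i _ => ?_
      simp only [Pi.smul_apply, smul_eq_mul, oddVec]
      have e1 : (bar ρ τ = (g ^ i) σ₀) ↔ (τ = ((g ^ i) σ₀ : Emb F).comp (ρ : F →ₐ[ℚ] F)) := by
        constructor
        · intro h4
          have h5 := congrArg (bar ρ) h4
          rw [bar_bar cm] at h5
          exact h5
        · intro h4
          rw [h4]
          exact bar_bar cm _
      have e2 : (bar ρ τ = ((g ^ i) σ₀ : Emb F).comp (ρ : F →ₐ[ℚ] F)) ↔ (τ = (g ^ i) σ₀) := by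
        constructor
        · intro h4
          exact (bar ρ).injective h4
        · intro h4
          rw [h4]
          rfl
      rw [if_congr e1 rfl rfl, if_congr e2 rfl rfl]
      ring
    funext τ
    obtain ⟨i, hi, h4 | h4⟩ := hall τ
    · rw [h4, h2 i hi]
    · rw [h4, h3, h2 i hi]
      exact (hv ((g ^ i) σ₀)).symm
  have hirr : Irreducible (cyclotomic p ℚ) := cyclotomic.irreducible_rat hp.pos
  by_cases hcase : ∃ v ∈ U, ¬ cyclotomic p ℚ ∣ Pol v
  · obtain ⟨v, hv, hndvd⟩ := hcase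
    have hcop : IsCoprime (cyclotomic p ℚ) (Pol v) := (hirr.coprime_iff_not_dvd).2 hndvd
    obtain ⟨B, A, hAB⟩ := hcop
    refine ⟨(g ^ 1) σ₀, (g ^ 0) σ₀, ?_, ?_⟩
    · intro h1
      exact one_ne_zero (hinj 1 0 hp.one_lt hp.pos h1)
    · have h1 : (X - 1 : ℚ[X]) = A * (X - 1) * Pol v + B * (cyclotomic p ℚ * (X - 1)) := by
        linear_combination (1 - X : ℚ[X]) * hAB
      have h2 := congrArg (fun P => aeval T P (oddVec ρ σ₀)) h1
      rw [cyclotomic_prime_mul_X_sub_one] at h2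
      simp only [map_add, map_mul, map_sub, map_pow, aeval_X, map_one, LinearMap.add_apply,
        Module.End.mul_apply, hTp, sub_self, LinearMap.zero_apply, map_zero, add_zero] at h2
      rw [hPol v (hodd v hv)] at h2
      have h3 : oddVec ρ ((g ^ 1) σ₀) - oddVec ρ ((g ^ 0) σ₀) =
          (T - 1) (oddVec ρ σ₀) := by
        rw [← hTodd, ← hTodd, pow_one, pow_zero]
        rfl
      rw [h3, h2]
      exact hPU A _ (U.sub_mem (hTU v hv) hv)
  · exfalso
    push Not at hcase
    -- all functions in `U` are constant on the orbit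
    have hconst : ∀ v ∈ U, ∀ i < p, v ((g ^ i) σ₀) = v σ₀ := by
      intro v hv
      obtain ⟨Q, hQ⟩ := hcase v hv
      have hcoef : ∀ i < p, (Pol v).coeff i = v ((g ^ i) σ₀) := by
        intro i hi
        simp only [Pol, finsetSum_coeff, coeff_C_mul, coeff_X_pow]
        rw [Finset.sum_eq_single i]
        · simp
        · intro j _ hj
          rw [if_neg (Ne.symm hj), mul_zero]
        · intro h1
          exact absurd (Finset.mem_range.2 hi) h1
      have hcyc : ∀ i < p, (cyclotomic p ℚ).coeff i = 1 := by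
        intro i hi
        rw [cyclotomic_prime]
        simp only [finsetSum_coeff, coeff_X_pow]
        rw [Finset.sum_eq_single i]
        · simp
        · intro j _ hj
          rw [if_neg (Ne.symm hj)]
        · intro h1
          exact absurd (Finset.mem_range.2 hi) h1
      have hdeg : (Pol v).degree < p := by
        refine lt_of_le_of_lt (degree_sum_le _ _) ?_
        rw [Finset.sup_lt_iff (by exact_mod_cast WithBot.bot_lt_coe p)]
        intro i hi
        refine lt_of_le_of_lt (degree_C_mul_X_pow_le _ _) ?_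
        exact_mod_cast Finset.mem_range.1 hi
      obtain ⟨c, hc⟩ : ∃ c, Q = C c := by
        by_cases hQ0 : Q = 0
        · exact ⟨0, by rw [hQ0, C_0]⟩
        · have h1 : (cyclotomic p ℚ).degree = ((p - 1 : ℕ) : WithBot ℕ) := by
            rw [degree_cyclotomic, Nat.totient_prime hp]
          have h2 : (Pol v).degree = (cyclotomic p ℚ).degree + Q.degree := by
            rw [hQ, degree_mul]
          rw [h1, degree_eq_natDegree hQ0] at h2
          rw [h2] at hdeg
          have h3 : p - 1 + Q.natDegree < p := by exact_mod_cast hdeg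
          have h4 : Q.natDegree = 0 := by omega
          exact ⟨_, eq_C_of_natDegree_eq_zero h4⟩
      have h1 : ∀ i < p, v ((g ^ i) σ₀) = c := by
        intro i hi
        rw [← hcoef i hi, hQ, hc, mul_comm, coeff_C_mul, hcyc i hi, mul_one]
      intro i hi
      rw [h1 i hi]
      exact (h1 0 hp.pos).symm
    obtain ⟨v, hv, hv0⟩ := Submodule.exists_mem_ne_zero_of_ne_bot hne
    have hvodd : ∀ τ, v (bar ρ τ) = -v τ := fun τ => hodd v hv τ
    have hvσ : v σ₀ ≠ 0 := by
      intro h0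
      apply hv0
      funext τ
      obtain ⟨i, hi, h4 | h4⟩ := hall τ
      · rw [h4, hconst v hv i hi, h0]
        rfl
      · rw [h4, hvodd, hconst v hv i hi, h0]
        simp
    refine no_eigen cm hF (hodd v hv) hvσ fun γ τ => ?_
    have h1 : ∀ i < p, v (gal γ ((g ^ i) σ₀)) = v (gal γ σ₀) :=
      fun i hi => hconst _ (hstab γ v hv) i hi
    obtain ⟨i, hi, h4 | h4⟩ := hall τ
    · rw [h4, h1 i hi, hconst v hv i hi, div_mul_cancel₀ _ hvσ]
    · rw [h4, ← bar_gal, hvodd, hvodd, h1 i hi, hconst v hv i hi]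
      field_simp

end Pool.Agent.Lib.MPf11a48.CM
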