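import Pool.Agent.Lib.MP_f11a48_ag.helper16.Rel5
import Pool.Agent.Lib.MP_f11a48_ag.helper16.Prime

/-! The comparison theorem for objects with complex multiplication. -/

namespace Pool.Agent.Lib.MPf11a48.CM

open Matrix Module

variable {K : IntermediateField ℚ ℂ} {ι E : Type} [Fintype ι] [DecidableEq ι]
  [CommRing E] [Algebra ℚ E] {ρ : E ≃ₐ[ℚ] E}

theorem CMObj.comparison (M : CMObj K ι E ρ) (hK : K ≤ Qbar) (cm : IsCM ρ)
    {k : IntermediateField ℚ ℂ} {S : Set (TPair K ι)} (hS : M.Admissible S)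
    (hcrit : M.LatticeCrit k S ∨ (OmegaS S ⊆ M.OmegaCM ∧ SeparatingOver k ρ)) :
    M.Comparison k S := by
  by_cases hend : M.EndLinear k
  · right
    have hcrit' : M.LatticeCrit k S := by
      rcases hcrit with h | ⟨h1, h2⟩
      · exact h
      · exact M.crit_of_separating hK cm h1 h2
    exact ⟨M.drb_eq hK cm hS.1 hS.2 hcrit'.bot hend.bot,
      fun him => M.omegaM_eq hK cm hS.1 hS.2 him hcrit' hend⟩
  · exact Or.inl hend

theorem separating_of_listed {F : Type} [Field F] [NumberField F] {ρ : F ≃ₐ[ℚ] F}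
    (cm : IsCM ρ) (h : Listed F) : SeparatingOver ⊥ ρ := by
  rcases h with h | ⟨p, hp, hp2, h, hF⟩ | ⟨hG, hcyc, j, hj⟩
  · exact (separating_quartic cm h).over cm
  · exact (separating_of_prime cm hp hp2 h hF).over cm
  · exact ((oddRigid_cyclic cm hcyc hj).separating cm).over cm

theorem separating_of_pairs [Module.Finite ℚ E] (cm : IsCM ρ) {k : IntermediateField ℚ ℂ}
    (h : PairsOver k ρ) : SeparatingOver k ρ := by
  have : Finite (E →ₐ[ℚ] Qbar) := by
    let _ : Fintype (Emb E) := minpoly.AlgHom.fintype _ _ _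
    exact Finite.of_fintype _
  exact separatingOver_of_pairs cm k h

end Pool.Agent.Lib.MPf11a48.CM
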