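import Mathlib

/-! Pivot coordinates of a subspace, and descent of vectors by linear functionals. -/

namespace Pool.Agent.Lib.MPf11a48.CM

section Pivot

variable {k : Type} [Field k] {J : Type} [Fintype J]

theorem exists_pivot (W : Submodule k (J → k)) :
    ∃ (κ : Type) (_ : Fintype κ) (_ : DecidableEq κ) (a : κ → J) (w : κ → (J → k)),
      (∀ p, w p ∈ W) ∧ (∀ p p', w p (a p') = if p = p' then 1 else 0) ∧
      (∀ v ∈ W, v = ∑ p, v (a p) • w p) := by
  classical
  let ev : J → Module.Dual k W := fun j => (LinearMap.proj j).comp W.subtype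
  obtain ⟨κ, a, ha, hspan, hli⟩ := exists_linearIndependent' k ev
  have : Finite κ := Finite.of_injective a ha
  let _ : Fintype κ := Fintype.ofFinite κ
  let res : W →ₗ[k] (κ → k) := LinearMap.pi (fun p => ev (a p))
  have hinj : Function.Injective res := by
    rw [injective_iff_map_eq_zero]
    intro v hv
    have h0 : ∀ p, ev (a p) v = 0 := fun p => congrFun hv p
    have h1 : ∀ φ ∈ Submodule.span k (Set.range ev), φ v = 0 := by
      intro φ hφ
      rw [← hspan] at hφ
      induction hφ using Submodule.span_induction with
      | mem x hx =>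
        obtain ⟨p, rfl⟩ := hx
        exact h0 p
      | zero => rfl
      | add x y _ _ hx hy => rw [LinearMap.add_apply, hx, hy, add_zero]
      | smul c x _ hx => rw [LinearMap.smul_apply, hx, smul_zero]
    apply Subtype.ext
    funext j
    exact h1 (ev j) (Submodule.subset_span ⟨j, rfl⟩)
  have hcard : Fintype.card κ ≤ Module.finrank k W := by
    have := hli.fintype_card_le_finrank
    rwa [Subspace.dual_finrank_eq] at this
  have hle : Module.finrank k W ≤ Fintype.card κ := by
    have := LinearMap.finrank_le_finrank_of_injective hinj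
    rwa [Module.finrank_fintype_fun_eq_card] at this
  have hfin : Module.finrank k W = Module.finrank k (κ → k) := by
    rw [Module.finrank_fintype_fun_eq_card]
    omega
  have hsurj : Function.Surjective res :=
    (LinearMap.injective_iff_surjective_of_finrank_eq_finrank hfin).1 hinj
  choose w hw using fun p : κ => hsurj (Pi.single p 1)
  refine ⟨κ, inferInstance, inferInstance, a, fun p => (w p : J → k), fun p => (w p).2, ?_, ?_⟩
  · intro p p'
    have := congrFun (hw p) p'
    rw [Pi.single_apply] at this
    have h2 : res (w p) p' = (w p : J → k) (a p') := rfl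
    rw [h2] at this
    change (w p : J → k) (a p') = _
    rw [this]
    by_cases h : p = p'
    · simp [h]
    · simp [h, Ne.symm h]
  · intro v hv
    have h2 : res ⟨v, hv⟩ = res (∑ p, v (a p) • w p) := by
      rw [map_sum]
      simp only [map_smul, hw]
      funext p
      simp only [Finset.sum_apply, Pi.smul_apply, Pi.single_apply, smul_eq_mul, mul_ite, mul_one,
        mul_zero, Finset.sum_ite_eq, Finset.mem_univ, if_true]
      rfl
    have h3 := congrArg Subtype.val (hinj h2)
    simpa using h3

end Pivot

section Descent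

variable {k L : Type} [Field k] [Field L] [Algebra k L] {J : Type}

/-- the `L`-span of a `k`-subspace -/
def spanL (L : Type) [Field L] [Algebra k L] (W : Submodule k (J → k)) : Submodule L (J → L) :=
  Submodule.span L {v | ∃ w ∈ W, v = fun j => algebraMap k L (w j)}

theorem mem_spanL {W : Submodule k (J → k)} {w : J → k} (hw : w ∈ W) :
    (fun j => algebraMap k L (w j)) ∈ spanL L W :=
  Submodule.subset_span ⟨w, hw, rfl⟩

theorem functional_mem' {W : Submodule k (J → k)} {v : J → L}
    (hv : v ∈ spanL L W) : ∀ l : L →ₗ[k] k, (fun j => l (v j)) ∈ W := by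
  induction hv using Submodule.span_induction with
  | mem x hx =>
    obtain ⟨w, hw, rfl⟩ := hx
    intro l
    have : (fun j => l (algebraMap k L (w j))) = l 1 • w := by
      funext j
      rw [Algebra.algebraMap_eq_smul_one, map_smul, Pi.smul_apply, smul_eq_mul, smul_eq_mul,
        mul_comm]
    rw [this]
    exact W.smul_mem _ hw
  | zero =>
    intro l
    have : (fun j => l ((0 : J → L) j)) = 0 := by
      funext j
      simp
    rw [this]
    exact W.zero_mem
  | add x y _ _ hx hy =>
    intro l
    have : (fun j => l ((x + y) j)) = (fun j => l (x j)) + fun j => l (y j) := by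
      funext j
      simp
    rw [this]
    exact W.add_mem (hx l) (hy l)
  | smul c x _ ih =>
    intro l
    exact ih (l.comp (LinearMap.mulLeft k c))

theorem functional_mem (l : L →ₗ[k] k) {W : Submodule k (J → k)} {v : J → L}
    (hv : v ∈ spanL L W) : (fun j => l (v j)) ∈ W := functional_mem' hv l

theorem exists_functional_one (k L : Type) [Field k] [Field L] [Algebra k L] :
    ∃ l : L →ₗ[k] k, l 1 = 1 :=
  Module.Projective.exists_dual_eq_one k (one_ne_zero : (1 : L) ≠ 0)

/-- the key computation: ratios of the entries of `d` on the support of a pivot vector -/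
theorem pivot_ratio {N W : Submodule k (J → k)} {d : J → L} (hd : ∀ j, d j ≠ 0)
    (h : ∀ v : J → L, v ∈ spanL L N ↔ (fun j => d j * v j) ∈ spanL L W)
    {κ : Type} (a : κ → J) (hinjW : ∀ v ∈ W, (∀ p, v (a p) = 0) → v = 0)
    {w : J → k} (hw : w ∈ W) (p0 : κ) (hp0 : w (a p0) = 1) (hp : ∀ p, p ≠ p0 → w (a p) = 0)
    {j : J} (hj : w j ≠ 0) : ∃ x : k, x ≠ 0 ∧ algebraMap k L x = d j / d (a p0) := by
  -- the vector `n = d (a p0) d⁻¹ w`
  set n : J → L := fun i => d (a p0) * ((d i)⁻¹ * algebraMap k L (w i)) with hn
  have hnN : n ∈ spanL L N := by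
    rw [h]
    have : (fun i => d i * n i) = d (a p0) • fun i => algebraMap k L (w i) := by
      funext i
      simp only [hn, Pi.smul_apply, smul_eq_mul]
      field_simp [hd i]
    rw [this]
    exact Submodule.smul_mem _ _ (mem_spanL hw)
  obtain ⟨l, hl⟩ := exists_functional_one k L
  have hlN := functional_mem l hnN
  have hnp0 : n (a p0) = 1 := by
    simp only [hn, hp0, map_one, mul_one]
    exact mul_inv_cancel₀ (hd _)
  have hnp : ∀ p, p ≠ p0 → n (a p) = 0 := by
    intro p hpp
    simp only [hn, hp p hpp, map_zero, mul_zero]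
  set n' : J → L := fun i => algebraMap k L (l (n i)) with hn'
  have hn'N : n' ∈ spanL L N := mem_spanL hlN
  have hdiff : n - n' ∈ spanL L N := Submodule.sub_mem _ hnN hn'N
  have hzero : ∀ p, (n - n') (a p) = 0 := by
    intro p
    by_cases hpp : p = p0
    · subst hpp
      simp [hn', hnp0, hl]
    · simp [hn', hnp p hpp]
  have hdW := (h _).1 hdiff
  have hall : ∀ i, d i * (n - n') i = 0 := by
    intro i
    by_contra hne
    obtain ⟨l', hl'⟩ := Module.Projective.exists_dual_eq_one k hne
    have hmem := functional_mem l' hdW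
    have := hinjW _ hmem (fun p => by
      change l' (d (a p) * (n - n') (a p)) = 0
      rw [hzero p, mul_zero, map_zero])
    have h1 := congrFun this i
    change l' (d i * (n - n') i) = 0 at h1
    rw [hl'] at h1
    exact one_ne_zero h1
  have hi := (mul_eq_zero.1 (hall j)).resolve_left (hd j)
  have hj' : n j = algebraMap k L (l (n j)) := by
    have : n j - n' j = 0 := hi
    exact sub_eq_zero.1 this
  have hnj : n j ≠ 0 := by
    simp only [hn]
    refine mul_ne_zero (hd _) (mul_ne_zero (inv_ne_zero (hd _)) ?_)
    exact (map_ne_zero _).2 hj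
  have hlnj : l (n j) ≠ 0 := by
    intro h0
    rw [h0, map_zero] at hj'
    exact hnj hj'
  refine ⟨w j / l (n j), div_ne_zero hj hlnj, ?_⟩
  rw [map_div₀, ← hj']
  simp only [hn]
  have := hd j
  have := hd (a p0)
  have hwj : algebraMap k L (w j) ≠ 0 := (map_ne_zero _).2 hj
  field_simp

end Descent

end Pool.Agent.Lib.MPf11a48.CM
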