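import Pool.Agent.Lib.MP_f11a48_ag.helper16.Defs2
import Pool.Agent.Lib.MP_f11a48_ag.helper16.Tens
import Pool.Agent.Lib.MP_f11a48_ag.helper16.Pivot

/-! The matrix of embeddings of a finite `ℚ`-algebra with enough embeddings. -/

namespace Pool.Agent.Lib.MPf11a48.CM

open Matrix Module

variable {E : Type} [CommRing E] [Algebra ℚ E]

/-- The Galois action on embeddings. -/
noncomputable def gal (γ : Qbar ≃ₐ[ℚ] Qbar) : Emb E ≃ Emb E where
  toFun σ := (γ : Qbar →ₐ[ℚ] Qbar).comp σ
  invFun σ := (γ.symm : Qbar →ₐ[ℚ] Qbar).comp σ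
  left_inv σ := by ext x; simp
  right_inv σ := by ext x; simp

@[simp] theorem gal_apply (γ : Qbar ≃ₐ[ℚ] Qbar) (σ : Emb E) (x : E) : gal γ σ x = γ (σ x) := rfl

variable {ι : Type} [Fintype ι] [DecidableEq ι] (b : Basis ι ℚ E)

/-- The matrix of embeddings. -/
noncomputable def embMat (b : Basis ι ℚ E) : Matrix (Emb E) ι Qbar := fun σ i => σ (b i)

omit [Fintype ι] [DecidableEq ι] in
theorem embMat_gal (γ : Qbar ≃ₐ[ℚ] Qbar) (σ : Emb E) (i : ι) :
    embMat b (gal γ σ) i = γ (embMat b σ i) := rfl

theorem embMat_mul [Fintype (Emb E)] [DecidableEq (Emb E)] (a : E) :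
    embMat b * (Algebra.leftMulMatrix b a).map (algebraMap ℚ Qbar) =
      diagonal (fun σ : Emb E => σ a) * embMat b := by
  refine Matrix.ext fun σ j => ?_
  rw [mul_apply, diagonal_mul]
  simp only [embMat, map_apply, Algebra.leftMulMatrix_eq_repr_mul]
  have h1 : σ (a * b j) = ∑ i, σ (b.repr (a * b j) i • b i) := by
    conv_lhs => rw [← b.sum_repr (a * b j)]
    exact map_sum σ _ _
  have h2 : σ a * σ (b j) = ∑ i, σ (b i) * algebraMap ℚ Qbar (b.repr (a * b j) i) := by
    rw [← map_mul, h1]
    refine Finset.sum_congr rfl fun i _ => ?_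
    rw [map_smul, Algebra.smul_def, mul_comm]
  exact h2.symm

theorem exists_embInv [Fintype (Emb E)] [DecidableEq (Emb E)]
    (hcard : Nat.card (Emb E) = Module.finrank ℚ E) :
    ∃ P' : Matrix ι (Emb E) Qbar, embMat b * P' = 1 ∧ P' * embMat b = 1 := by
  classical
  have hc : Fintype.card (Emb E) = Fintype.card ι := by
    rw [← Nat.card_eq_fintype_card, hcard, Module.finrank_eq_card_basis b]
  obtain ⟨e⟩ : Nonempty (ι ≃ Emb E) := ⟨(Fintype.equivOfCardEq hc).symm⟩
  -- square matrix
  let Q : Matrix ι ι Qbar := (embMat b).submatrix e id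
  have hli : LinearIndependent Qbar Q.row := by
    rw [Fintype.linearIndependent_iff]
    intro g hg
    have h1 := linearIndependent_algHom_toLinearMap ℚ E Qbar
    rw [Fintype.linearIndependent_iff] at h1
    have h2 := h1 (fun σ => g (e.symm σ)) (by
      apply b.ext
      intro i
      have h3 := congrFun hg i
      simp only [Finset.sum_apply, Pi.smul_apply, smul_eq_mul] at h3
      simp only [LinearMap.coe_sum, LinearMap.coe_smul, Finset.sum_apply, Pi.smul_apply,
        AlgHom.toLinearMap_apply, smul_eq_mul, LinearMap.zero_apply]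
      rw [← e.sum_comp]
      simpa [Q, embMat] using h3)
    intro i
    simpa using h2 (e i)
  have hu : IsUnit Q := Matrix.linearIndependent_rows_iff_isUnit.1 hli
  obtain ⟨u, hu⟩ := hu
  have e1 : Q * (u⁻¹).1 = 1 := by rw [← hu]; exact u.mul_inv
  have e2 : (u⁻¹).1 * Q = 1 := by rw [← hu]; exact u.inv_mul
  refine ⟨(u⁻¹).1.submatrix id e.symm, ?_, ?_⟩
  · refine Matrix.ext fun σ τ => ?_
    have := congrFun (congrFun e1 (e.symm σ)) (e.symm τ)
    simp only [mul_apply, submatrix_apply, id, Q, Equiv.apply_symm_apply] at this ⊢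
    rw [this]
    simp [one_apply]
  · refine Matrix.ext fun i j => ?_
    have := congrFun (congrFun e2 i) j
    simp only [mul_apply, submatrix_apply, id, Q] at this ⊢
    rw [← this, ← e.sum_comp]
    simp

/-- the inverse matrix is Galois equivariant -/
theorem embInv_gal [Fintype (Emb E)] [DecidableEq (Emb E)] {P' : Matrix ι (Emb E) Qbar}
    (h1 : embMat b * P' = 1) (h2 : P' * embMat b = 1) (γ : Qbar ≃ₐ[ℚ] Qbar) (i : ι)
    (σ : Emb E) : P' i (gal γ σ) = γ (P' i σ) := by
  -- both sides, as matrices in `(i, σ)`, are left inverse to the twisted matrix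
  have key : (P'.map γ) = P'.submatrix id (gal γ) := by
    have e1 : (P'.map γ) * (embMat b).map γ = 1 := by
      have h3 := congrArg (fun M : Matrix ι ι Qbar => M.map (γ : Qbar →+* Qbar)) h2
      simp only [Matrix.map_mul] at h3
      rw [Matrix.map_one _ (map_zero _) (map_one _)] at h3
      exact h3
    have e2 : (embMat b).map γ = (embMat b).submatrix (gal γ) id :=
      Matrix.ext fun σ i => rfl
    have e3 : (embMat b).map γ * P'.submatrix id (gal γ) = 1 := by
      rw [e2]
      refine Matrix.ext fun σ τ => ?_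
      have := congrFun (congrFun h1 (gal γ σ)) (gal γ τ)
      simp only [mul_apply, submatrix_apply, id] at this ⊢
      rw [this]
      simp [one_apply]
    calc P'.map γ = P'.map γ * ((embMat b).map γ * P'.submatrix id (gal γ)) := by
          rw [e3, Matrix.mul_one]
      _ = P'.submatrix id (gal γ) := by rw [← Matrix.mul_assoc, e1, Matrix.one_mul]
  exact (congrFun (congrFun key i) σ).symm

end Pool.Agent.Lib.MPf11a48.CM
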