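import Pool.Agent.Lib.MP_f11a48_ag.helper16.Heap4
import Pool.Agent.Lib.MP_f11a48_ag.helper16.Classes

/-! `Ω_S` is a closed subtorsor; the smallest subtorsor of an object with complex
multiplication. -/

namespace Pool.Agent.Lib.MPf11a48.CM

open Matrix Module

variable {K : IntermediateField ℚ ℂ} {ι : Type} [Fintype ι] [DecidableEq ι]

omit [Fintype ι] in
theorem tens_one {R : Type} [CommRing R] (n m : ℕ) :
    tens n m (1 : Matrix ι ι R) 1 = 1 := by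
  refine Matrix.ext fun I J => ?_
  have h := tens_diagonal n m (fun _ : ι => (1 : R)) (fun _ => (1 : R)) I J
  rw [diagonal_one] at h
  rw [h, one_apply]
  simp

theorem fixes_iff (f : GL ι ℂ) (α : TPair K ι) : Fixes f α ↔
    tens α.n α.m f.1 f⁻¹.1 *ᵥ (fun J => ((α.dR J : K) : ℂ)) = fun I => ((α.B I : ℚ) : ℂ) := by
  rw [funext_iff]
  rfl

theorem omegaS_heap (S : Set (TPair K ι)) : IsHeap (OmegaS S) := by
  intro x hx y hy z hz α hα
  have h1 := (fixes_iff x α).1 (hx α hα)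
  have h2 := (fixes_iff y α).1 (hy α hα)
  have h3 := (fixes_iff z α).1 (hz α hα)
  have hy2 : y⁻¹.1 * y.1 = 1 := y.inv_mul
  rw [fixes_iff]
  have e1 : (x * y⁻¹ * z).1 = (x.1 * y⁻¹.1) * z.1 := rfl
  have e2 : (x * y⁻¹ * z)⁻¹.1 = z⁻¹.1 * (y.1 * x⁻¹.1) := by
    have : (x * y⁻¹ * z)⁻¹ = z⁻¹ * (y * x⁻¹) := by group
    rw [this]
    rfl
  have e3 : tens α.n α.m (x.1 * y⁻¹.1) (y.1 * x⁻¹.1) * tens α.n α.m y.1 y⁻¹.1 =
      tens α.n α.m x.1 x⁻¹.1 := by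
    rw [← tens_mul, Matrix.mul_assoc, hy2, Matrix.mul_one, ← Matrix.mul_assoc, hy2,
      Matrix.one_mul]
  rw [e1, e2, tens_mul, ← mulVec_mulVec, h3, ← h2, mulVec_mulVec, e3, h1, h2]

/-- the generic matrix -/
noncomputable def genMat (K : IntermediateField ℚ ℂ) (ι : Type) :
    Matrix ι ι (MvPolynomial (ι × ι) K) :=
  fun i j => MvPolynomial.X (i, j)

theorem omegaS_closed (S : Set (TPair K ι)) : IsKClosed K (OmegaS S) := by
  refine ⟨{p | ∃ α ∈ S, ∃ I : TIdx ι α.n α.m, p =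
    (∑ J : TIdx ι α.n α.m, ((∏ a, genMat K ι (I.1 a) (J.1 a)) *
      (∏ b, (genMat K ι).adjugate (J.2 b) (I.2 b))) * MvPolynomial.C (α.dR J)) -
      (genMat K ι).det ^ α.m * MvPolynomial.C (algebraMap ℚ K (α.B I))}, ?_⟩
  ext f
  have hdet : f.1.det ≠ 0 := by
    have h1 : f.1.det * f⁻¹.1.det = 1 := by
      rw [← det_mul]
      have : f.1 * f⁻¹.1 = 1 := f.mul_inv
      rw [this, det_one]
    exact left_ne_zero_of_mul_eq_one h1
  have hinv : ∀ i j, f⁻¹.1 i j = (f.1.det)⁻¹ * f.1.adjugate i j := by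
    intro i j
    have h1 : f⁻¹.1 = f.1⁻¹ := coe_units_inv f
    rw [h1, Matrix.inv_def, Matrix.smul_apply, smul_eq_mul, Ring.inverse_eq_inv']
  let ev : MvPolynomial (ι × ι) K →ₐ[K] ℂ :=
    MvPolynomial.aeval (fun ij : ι × ι => f.1 ij.1 ij.2)
  have hgen : (genMat K ι).map ev = f.1 := by
    refine Matrix.ext fun i j => ?_
    exact MvPolynomial.aeval_X _ _
  have hdetev : ev (genMat K ι).det = f.1.det := by
    have h1 := (ev : MvPolynomial (ι × ι) K →+* ℂ).map_det (genMat K ι)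
    have h2 : (ev : MvPolynomial (ι × ι) K →+* ℂ).mapMatrix (genMat K ι) = f.1 := hgen
    rw [h2] at h1
    exact h1
  have hadj : ∀ i j, ev ((genMat K ι).adjugate i j) = f.1.adjugate i j := by
    intro i j
    have h1 := (ev : MvPolynomial (ι × ι) K →+* ℂ).map_adjugate (genMat K ι)
    have h2 : (ev : MvPolynomial (ι × ι) K →+* ℂ).mapMatrix (genMat K ι) = f.1 := hgen
    rw [h2] at h1
    exact congrFun (congrFun h1 i) j
  have hpoly : ∀ (α : TPair K ι) (I : TIdx ι α.n α.m),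
      ev ((∑ J : TIdx ι α.n α.m, ((∏ a, genMat K ι (I.1 a) (J.1 a)) *
        (∏ b, (genMat K ι).adjugate (J.2 b) (I.2 b))) * MvPolynomial.C (α.dR J)) -
        (genMat K ι).det ^ α.m * MvPolynomial.C (algebraMap ℚ K (α.B I))) =
      f.1.det ^ α.m * ((∑ J, tens α.n α.m f.1 f⁻¹.1 I J * ((α.dR J : K) : ℂ)) -
        ((α.B I : ℚ) : ℂ)) := by
    intro α I
    have e1 : ∀ J : TIdx ι α.n α.m, ev (((∏ a, genMat K ι (I.1 a) (J.1 a)) *
        (∏ b, (genMat K ι).adjugate (J.2 b) (I.2 b))) * MvPolynomial.C (α.dR J)) =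
        f.1.det ^ α.m * (tens α.n α.m f.1 f⁻¹.1 I J * ((α.dR J : K) : ℂ)) := by
      intro J
      rw [map_mul, map_mul, map_prod, map_prod]
      have e2 : (∏ a, ev (genMat K ι (I.1 a) (J.1 a))) = ∏ a, f.1 (I.1 a) (J.1 a) :=
        Finset.prod_congr rfl fun a _ => MvPolynomial.aeval_X _ _
      have e3 : (∏ b, ev ((genMat K ι).adjugate (J.2 b) (I.2 b))) =
          f.1.det ^ α.m * ∏ b, f⁻¹.1 (J.2 b) (I.2 b) := by
        have e4 : ∀ b, ev ((genMat K ι).adjugate (J.2 b) (I.2 b)) =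
            f.1.det * f⁻¹.1 (J.2 b) (I.2 b) := by
          intro b
          rw [hadj, hinv, mul_inv_cancel_left₀ hdet]
        simp only [e4, Finset.prod_mul_distrib, Finset.prod_const, Finset.card_univ,
          Fintype.card_fin]
      have e5 : ev (MvPolynomial.C (α.dR J)) = ((α.dR J : K) : ℂ) := MvPolynomial.algHom_C _ _
      rw [e2, e3, e5]
      simp only [tens]
      ring
    have e6 : ev (MvPolynomial.C (algebraMap ℚ K (α.B I))) = ((α.B I : ℚ) : ℂ) := by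
      have h1 : ev (MvPolynomial.C (algebraMap ℚ K (α.B I))) =
        algebraMap K ℂ (algebraMap ℚ K (α.B I)) := MvPolynomial.algHom_C _ _
      rw [h1]
      simp
    rw [map_sub, map_sum, map_mul, map_pow, hdetev, e6, Finset.sum_congr rfl fun J _ => e1 J,
      ← Finset.mul_sum]
    ring
  constructor
  · rintro hf p ⟨α, hα, I, rfl⟩
    have h1 := hf α hα I
    have h2 := hpoly α I
    rw [h1, sub_self, mul_zero] at h2
    exact h2
  · intro hf α hα I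
    have h1 := hf _ ⟨α, hα, I, rfl⟩
    have h2 := hpoly α I
    have h3 := h2.symm.trans h1
    exact sub_eq_zero.1 ((mul_eq_zero.1 h3).resolve_left (pow_ne_zero _ hdet))

variable {E : Type} [CommRing E] [Algebra ℚ E] {ρ : E ≃ₐ[ℚ] E}

/-- The Galois group of `K` has the same image on the embeddings of `E` as that of `ℚ`. -/
def FullGalois (K : IntermediateField ℚ ℂ) (E : Type) [CommRing E] [Algebra ℚ E] : Prop :=
  ∀ γ : Qbar ≃ₐ[ℚ] Qbar, ∃ γ' : Qbar ≃ₐ[ℚ] Qbar, (∀ z : Qbar, (z : ℂ) ∈ K → γ' z = z) ∧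
    ∀ (σ : E →ₐ[ℚ] Qbar) (x : E), γ' (σ x) = γ (σ x)

theorem fullGalois_bot (E : Type) [CommRing E] [Algebra ℚ E] :
    FullGalois (⊥ : IntermediateField ℚ ℂ) E := by
  intro γ
  refine ⟨γ, fun z hz => ?_, fun _ _ => rfl⟩
  obtain ⟨r, hr⟩ := IntermediateField.mem_bot.1 hz
  have h1 : z = algebraMap ℚ Qbar r := by
    apply Subtype.ext
    rw [← hr]
    exact IsScalarTower.algebraMap_apply ℚ Qbar ℂ r
  rw [h1]
  exact γ.commutes r

namespace CMObj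

theorem omegaCM_subset (M : CMObj K ι E ρ) (hK : K ≤ Qbar) (cm : IsCM ρ)
    (hfull : FullGalois K E) [Fintype (Emb E)] [DecidableEq (Emb E)] (D : PData M)
    (hkill : D.Kill) {T : Set (GL ι ℂ)}
    (hTc : IsKClosed K T) (hTh : IsHeap T) (hcT : M.c ∈ T) : M.OmegaCM ⊆ T := by
  obtain ⟨P, hP⟩ := hTc
  let Si : Sit K ι E := ⟨hK, M.b, D.P', D.h1, D.h2, D.q, D.q', D.hq, D.hq', D.s, D.hs, M.c, D.hc,
    T, P, hP, hTh, hcT⟩
  -- the torus of similitudes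
  have htor : ∀ (θ : GL ι ℂ) (t : Emb E → ℂ),
      toC (embMat M.b) * θ.1 = diagonal t * toC (embMat M.b) →
      (∃ μ : ℂ, ∀ σ, t σ * t (bar ρ σ) = μ) → θ * M.c ∈ T := by
    intro θ t ht hμ
    have ht0 : ∀ σ, t σ ≠ 0 := fun σ => D.diag_ne_zero θ ht σ
    refine Si.torus_heap θ t ht0 ht fun χ hχ => ?_
    refine hkill t ht0 hμ χ fun γ => ?_
    obtain ⟨γ', hγ', hγγ'⟩ := hfull γ
    have h1 := hχ γ' hγ'
    have h2 : ∀ σ : Emb E, gal γ' σ = gal γ σ := fun σ => AlgHom.ext fun x => hγγ' σ x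
    simp only [h2] at h1
    exact h1
  obtain ⟨β, hβ0, hβ⟩ := D.exists_beta hK cm
  have hβ0C : ∀ σ, ((β σ : Qbar) : ℂ) ≠ 0 := fun σ h0 => hβ0 σ (Subtype.ext h0)
  -- the algebraic point lies in `T`
  have hXT : D.X hβ0 ∈ T := by
    obtain ⟨θ, hθ⟩ : ∃ θ : GL ι ℂ, θ = D.X hβ0 * M.c⁻¹ := ⟨_, rfl⟩
    have hcc : M.c.1 * M.c⁻¹.1 = 1 := M.c.mul_inv
    have hq1 : toC D.q * M.c⁻¹.1 = diagonal (fun σ => (D.s σ)⁻¹) * toC (embMat M.b) := by
      have h1 : diagonal (fun σ => (D.s σ)⁻¹) * diagonal D.s = 1 := by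
        rw [diagonal_mul_diagonal]
        simp [inv_mul_cancel₀ (D.hs _)]
      calc toC D.q * M.c⁻¹.1
          = (diagonal (fun σ => (D.s σ)⁻¹) * diagonal D.s) * toC D.q * M.c⁻¹.1 := by
            rw [h1, Matrix.one_mul]
        _ = diagonal (fun σ => (D.s σ)⁻¹) * (diagonal D.s * toC D.q) * M.c⁻¹.1 := by
            simp only [Matrix.mul_assoc]
        _ = diagonal (fun σ => (D.s σ)⁻¹) * toC (embMat M.b) * (M.c.1 * M.c⁻¹.1) := by
            rw [← D.hc]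
            simp only [Matrix.mul_assoc]
        _ = _ := by rw [hcc, Matrix.mul_one]
    have ht : toC (embMat M.b) * θ.1 =
        diagonal (fun σ => ((β σ : Qbar) : ℂ) * (D.s σ)⁻¹) * toC (embMat M.b) := by
      rw [hθ]
      change toC (embMat M.b) * ((D.X hβ0).1 * M.c⁻¹.1) = _
      rw [← Matrix.mul_assoc, D.hPX, Matrix.mul_assoc, hq1, ← Matrix.mul_assoc,
        diagonal_mul_diagonal]
    have h2 := htor θ _ ht ⟨((2 * Real.pi * Complex.I : ℂ) ^ M.w)⁻¹, fun σ => by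
      have h3 : ((β σ : Qbar) : ℂ) * ((β (bar ρ σ) : Qbar) : ℂ) = ((D.α hK σ : Qbar) : ℂ) := by
        rw [← hβ σ]
        rfl
      have h4 := D.hαC0 hK σ
      have h5 := two_pi_I_ne M.w
      have h6 := D.hpol hK σ
      have h7 : ((β σ : Qbar) : ℂ) * (D.s σ)⁻¹ * (((β (bar ρ σ) : Qbar) : ℂ) *
          (D.s (bar ρ σ))⁻¹) = (((β σ : Qbar) : ℂ) * ((β (bar ρ σ) : Qbar) : ℂ)) *
          (D.s σ * D.s (bar ρ σ))⁻¹ := by
        rw [mul_inv]
        ring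
      rw [h7, h3, h6]
      field_simp⟩
    rwa [hθ, inv_mul_cancel_right] at h2
  rintro f ⟨γ, hγ, hfA, μ, hfμ⟩
  -- the Galois conjugate point lies in `T`
  let xg : GL ι Qbar := ⟨D.x β, D.x' β, D.hxx' hβ0, D.hx'x hβ0⟩
  have hx1 : glC xg = D.X hβ0 := Units.ext rfl
  have hYT : D.Y hβ0 γ ∈ T := by
    have h1 : glC xg ∈ T := by rw [hx1]; exact hXT
    have h2 := gal_mem hK ⟨P, hP⟩ γ hγ h1
    have h3 : glC (galG γ xg) = D.Y hβ0 γ := Units.ext rfl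
    rwa [h3] at h2
  set Y := D.Y hβ0 γ with hYdef
  have hYA := D.hYA hβ0 γ
  have hYform := D.hYform hK hβ0 hβ γ hγ
  rw [← hYdef] at hYA hYform
  have hYY : Y.1 * Y⁻¹.1 = 1 := Y.mul_inv
  have hYY' : Y⁻¹.1 * Y.1 = 1 := Y.inv_mul
  obtain ⟨θ, hθ⟩ : ∃ θ : GL ι ℂ, θ = f * Y⁻¹ := ⟨_, rfl⟩
  have hθ1 : θ.1 = f.1 * Y⁻¹.1 := by rw [hθ]; rfl
  have hθA : ∀ a, θ.1 * (Algebra.leftMulMatrix M.b a).map (algebraMap ℚ ℂ) =
      (Algebra.leftMulMatrix M.b a).map (algebraMap ℚ ℂ) * θ.1 := by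
    intro a
    have e1 : Y⁻¹.1 * (Algebra.leftMulMatrix M.b a).map (algebraMap ℚ ℂ) =
        toC ((M.AdR a).map γ) * Y⁻¹.1 := by
      calc Y⁻¹.1 * (Algebra.leftMulMatrix M.b a).map (algebraMap ℚ ℂ)
          = Y⁻¹.1 * ((Algebra.leftMulMatrix M.b a).map (algebraMap ℚ ℂ) * Y.1) * Y⁻¹.1 := by
            rw [Matrix.mul_assoc, Matrix.mul_assoc, hYY, Matrix.mul_one]
        _ = (Y⁻¹.1 * Y.1) * toC ((M.AdR a).map γ) * Y⁻¹.1 := by
            rw [← hYA]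
            simp only [Matrix.mul_assoc]
        _ = _ := by rw [hYY', Matrix.one_mul]
    rw [hθ1, Matrix.mul_assoc, e1, ← Matrix.mul_assoc]
    rw [hfA a, Matrix.mul_assoc]
  obtain ⟨t, ht⟩ := D.diag_of_comm θ.1 hθA
  have hθform : θ.1ᵀ * M.ψB.map (algebraMap ℚ ℂ) * θ.1 = μ • M.ψB.map (algebraMap ℚ ℂ) := by
    have e1 : Y⁻¹.1ᵀ * Y.1ᵀ = 1 := by rw [← transpose_mul, hYY, transpose_one]
    calc θ.1ᵀ * M.ψB.map (algebraMap ℚ ℂ) * θ.1
        = Y⁻¹.1ᵀ * (f.1ᵀ * M.ψB.map (algebraMap ℚ ℂ) * f.1) * Y⁻¹.1 := by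
          rw [hθ1, transpose_mul]
          simp only [Matrix.mul_assoc]
      _ = μ • (Y⁻¹.1ᵀ * (Y.1ᵀ * M.ψB.map (algebraMap ℚ ℂ) * Y.1) * Y⁻¹.1) := by
          rw [hfμ, hYform, Matrix.mul_smul, Matrix.smul_mul]
      _ = μ • ((Y⁻¹.1ᵀ * Y.1ᵀ) * M.ψB.map (algebraMap ℚ ℂ) * (Y.1 * Y⁻¹.1)) := by
          simp only [Matrix.mul_assoc]
      _ = _ := by rw [e1, hYY, Matrix.one_mul, Matrix.mul_one]
  have htμ := D.diag_sim hK hβ0 hβ θ ht hθform
  have h1 := htor θ t ht ⟨μ, htμ⟩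
  have h2 := hTh _ h1 _ hcT _ hYT
  rw [mul_inv_cancel_right] at h2
  have hf : f = θ * Y := by
    rw [hθ, inv_mul_cancel_right]
  rw [hf]
  exact h2

end CMObj

end Pool.Agent.Lib.MPf11a48.CM
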