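import Pool.Agent.Lib.MP_f11a48_ag.helper16.Defs

/-!
# Objects with complex multiplication and subtorsors: definitions
-/

namespace Pool.Agent.Lib.MPf11a48.CM

open Matrix Module

/-- The embeddings of `E`. -/
abbrev Emb (E : Type) [CommRing E] [Algebra ℚ E] : Type := E →ₐ[ℚ] Qbar

section CMAlgebras

variable {E : Type} [CommRing E] [Algebra ℚ E]

/-- `E` with the involution `ρ` is a product of CM fields: `E` has as many embeddings as its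
dimension, `ρ` induces complex conjugation under each of them, and none of them is real. -/
structure IsCM (ρ : E ≃ₐ[ℚ] E) : Prop where
  card : Nat.card (E →ₐ[ℚ] Qbar) = Module.finrank ℚ E
  conj : ∀ (σ : E →ₐ[ℚ] Qbar) (a : E), ((σ (ρ a) : Qbar) : ℂ) = starRingEnd ℂ ((σ a : Qbar) : ℂ)
  ne : ∀ σ : E →ₐ[ℚ] Qbar, σ.comp (ρ : E →ₐ[ℚ] E) ≠ σ

/-- `u` is an odd function on the embeddings. -/
def IsOdd (ρ : E ≃ₐ[ℚ] E) (u : (E →ₐ[ℚ] Qbar) → ℚ) : Prop :=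
  ∀ σ : E →ₐ[ℚ] Qbar, u (σ.comp (ρ : E →ₐ[ℚ] E)) = -u σ

open Classical in
/-- The odd function `δ_σ - δ_{σ ∘ ρ}`. -/
noncomputable def oddVec (ρ : E ≃ₐ[ℚ] E) (σ : E →ₐ[ℚ] Qbar) : (E →ₐ[ℚ] Qbar) → ℚ :=
  fun τ => (if τ = σ then 1 else 0) - if τ = σ.comp (ρ : E →ₐ[ℚ] E) then 1 else 0

end CMAlgebras

/-- A polarised de Rham-Betti object `M` over `K` of weight `w ≠ 0` with complex multiplication
by `(E, ρ)` over `Qbar`.  `M_B = E` with `ℚ`-basis `b`, `M_dR = K^ι`, period isomorphism `c`. -/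
structure CMObj (K : IntermediateField ℚ ℂ) (ι E : Type) [Fintype ι] [DecidableEq ι]
    [CommRing E] [Algebra ℚ E] (ρ : E ≃ₐ[ℚ] E) where
  /-- the basis of `M_B = E` -/
  b : Basis ι ℚ E
  /-- the period isomorphism -/
  c : GL ι ℂ
  /-- the action of `E` on `M_dR ⊗ Qbar` -/
  AdR : E → Matrix ι ι Qbar
  /-- `E` acts by endomorphisms of `M ⊗ Qbar` -/
  comm : ∀ a, c.1 * (AdR a).map (algebraMap Qbar ℂ) =
    (Algebra.leftMulMatrix b a).map (algebraMap ℚ ℂ) * c.1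
  /-- the weight -/
  w : ℤ
  w_ne : w ≠ 0
  /-- the Gram matrix of the polarisation on `M_B` -/
  ψB : Matrix ι ι ℚ
  /-- the Gram matrix of the polarisation on `M_dR` -/
  ψdR : Matrix ι ι K
  det_ne : ψB.det ≠ 0
  /-- `ψ(a x, y) = ψ(x, ρ(a) y)` -/
  adj : ∀ a, (Algebra.leftMulMatrix b a)ᵀ * ψB = ψB * Algebra.leftMulMatrix b (ρ a)
  /-- `ψ_B(c x, c y) = (2 π i)^w ψ_dR(x, y)` -/
  pol : c.1ᵀ * ψB.map (algebraMap ℚ ℂ) * c.1 =
    ((2 * Real.pi * Complex.I : ℂ) ^ w) • ψdR.map (algebraMap K ℂ)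

/-- The isomorphisms `f : M_dR ⊗ ℂ → M_B ⊗ ℂ` that are `E`-linear up to a Galois twist over `K`
and multiply the polarisation by a scalar. -/
def CMObj.OmegaCM {K : IntermediateField ℚ ℂ} {ι E : Type} [Fintype ι] [DecidableEq ι]
    [CommRing E] [Algebra ℚ E] {ρ : E ≃ₐ[ℚ] E} (M : CMObj K ι E ρ) : Set (GL ι ℂ) :=
  {f | ∃ γ : Qbar ≃ₐ[ℚ] Qbar, (∀ z : Qbar, (z : ℂ) ∈ K → γ z = z) ∧
    (∀ a, f.1 * ((M.AdR a).map γ).map (algebraMap Qbar ℂ) =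
      (Algebra.leftMulMatrix M.b a).map (algebraMap ℚ ℂ) * f.1) ∧
    ∃ μ : ℂ, f.1ᵀ * M.ψB.map (algebraMap ℚ ℂ) * f.1 = μ • M.ψdR.map (algebraMap K ℂ)}

section Defs

variable {ι : Type} [Fintype ι] [DecidableEq ι]

/-- `T` is a Zariski closed subset of `GL_ι(ℂ)` defined over `K`. -/
def IsKClosed (K : IntermediateField ℚ ℂ) (T : Set (GL ι ℂ)) : Prop :=
  ∃ P : Set (MvPolynomial (ι × ι) K),
    T = {f | ∀ p ∈ P, MvPolynomial.aeval (fun ij : ι × ι => f.1 ij.1 ij.2) p = 0}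

/-- `T` is a coset of a subgroup (a torsor under a subgroup) or empty. -/
def IsHeap (T : Set (GL ι ℂ)) : Prop :=
  ∀ x ∈ T, ∀ y ∈ T, ∀ z ∈ T, x * y⁻¹ * z ∈ T

/-- The complex points of `Ω_M`, the smallest `K`-subtorsor that contains `c`. -/
def OmegaM (K : IntermediateField ℚ ℂ) (c : GL ι ℂ) : Set (GL ι ℂ) :=
  ⋂₀ {T | IsKClosed K T ∧ IsHeap T ∧ c ∈ T}

end Defs

end Pool.Agent.Lib.MPf11a48.CM
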