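import Pool.Agent.Lib.MP_f11a48_ag.helper16.Obj

/-! Galois conjugates of algebraic points of `Ω^dRB`. -/

namespace Pool.Agent.Lib.MPf11a48.CM

open Matrix Module

theorem mem_of_spanL {k L J : Type} [Field k] [Field L] [Algebra k L] {W : Submodule k (J → k)}
    {w : J → k} (h : (fun j => algebraMap k L (w j)) ∈ spanL L W) : w ∈ W := by
  obtain ⟨l, hl⟩ := exists_functional_one k L
  have h1 := functional_mem l h
  have h2 : (fun j => l (algebraMap k L (w j))) = w := by
    funext j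
    rw [Algebra.algebraMap_eq_smul_one, map_smul, hl, smul_eq_mul, mul_one]
  rwa [h2] at h1

theorem span_galois {J : Type} (γ : Qbar ≃ₐ[ℚ] Qbar) (S : Set (J → Qbar))
    (hS : ∀ v ∈ S, (fun j => γ (v j)) = v) {v : J → Qbar} (hv : v ∈ Submodule.span Qbar S) :
    (fun j => γ (v j)) ∈ Submodule.span Qbar S := by
  induction hv using Submodule.span_induction with
  | mem x hx =>
    rw [hS x hx]
    exact Submodule.subset_span hx
  | zero =>
    have : (fun j => γ ((0 : J → Qbar) j)) = 0 := by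
      funext j
      simp
    rw [this]
    exact Submodule.zero_mem _
  | add x y _ _ hx hy =>
    have : (fun j => γ ((x + y) j)) = (fun j => γ (x j)) + fun j => γ (y j) := by
      funext j
      simp
    rw [this]
    exact Submodule.add_mem _ hx hy
  | smul c x _ hx =>
    have : (fun j => γ ((c • x) j)) = γ c • fun j => γ (x j) := by
      funext j
      simp
    rw [this]
    exact Submodule.smul_mem _ _ hx

variable {ι : Type} [Fintype ι] [DecidableEq ι]

theorem galois_point {K : IntermediateField ℚ ℂ} (hK : K ≤ Qbar) {c : GL ι ℂ}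
    {x x' : Matrix ι ι Qbar} (hx : x * x' = 1) (hx' : x' * x = 1) {f g : GL ι ℂ}
    (hf : f.1 = toC x) (hfm : f ∈ OmegaDRB K c) (γ : Qbar ≃ₐ[ℚ] Qbar)
    (hγ : ∀ z : Qbar, (z : ℂ) ∈ K → γ z = z) (hg : g.1 = toC (x.map γ)) :
    g ∈ OmegaDRB K c := by
  intro r sh WdR WB hsub
  have hmap := hfm r sh WdR WB hsub
  have hf' : f⁻¹.1 = toC x' := by
    have e1 : toC x * toC x' = 1 := by rw [← toC_mul, hx, toC_one]
    have e2 : f⁻¹.1 * f.1 = 1 := f.inv_mul
    calc f⁻¹.1 = f⁻¹.1 * (f.1 * toC x') := by rw [hf, e1, Matrix.mul_one]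
      _ = toC x' := by rw [← Matrix.mul_assoc, e2, Matrix.one_mul]
  have hxγ : x.map γ * x'.map γ = 1 := by
    have h3 := congrArg (fun M : Matrix ι ι Qbar => M.map (γ : Qbar →+* Qbar)) hx
    simp only [Matrix.map_mul] at h3
    rw [Matrix.map_one _ (map_zero _) (map_one _)] at h3
    exact h3
  have hxγ' : x'.map γ * x.map γ = 1 := by
    have h3 := congrArg (fun M : Matrix ι ι Qbar => M.map (γ : Qbar →+* Qbar)) hx'
    simp only [Matrix.map_mul] at h3
    rw [Matrix.map_one _ (map_zero _) (map_one _)] at h3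
    exact h3
  have hg' : g⁻¹.1 = toC (x'.map γ) := by
    have e1 : toC (x.map γ) * toC (x'.map γ) = 1 := by rw [← toC_mul, hxγ, toC_one]
    have e2 : g⁻¹.1 * g.1 = 1 := g.inv_mul
    calc g⁻¹.1 = g⁻¹.1 * (g.1 * toC (x'.map γ)) := by rw [hg, e1, Matrix.mul_one]
      _ = toC (x'.map γ) := by rw [← Matrix.mul_assoc, e2, Matrix.one_mul]
  -- `Qbar`-forms
  let SB : Set (SIdx ι sh → Qbar) := {w | ∃ u ∈ WB, w = fun j => algebraMap ℚ Qbar (u j)}
  let SdR : Set (SIdx ι sh → Qbar) :=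
    {w | ∃ v ∈ WdR, w = fun j => (⟨(v j : ℂ), hK (v j).2⟩ : Qbar)}
  have hSB : spanL ℂ (Submodule.span Qbar SB) = spanC WB := by
    rw [spanL_span, spanC]
    congr 1
    ext v
    constructor
    · rintro ⟨w, ⟨u, hu, rfl⟩, rfl⟩
      exact ⟨u, hu, rfl⟩
    · rintro ⟨u, hu, rfl⟩
      exact ⟨_, ⟨u, hu, rfl⟩, rfl⟩
  have hSdR : spanL ℂ (Submodule.span Qbar SdR) = spanC WdR := by
    rw [spanL_span, spanC]
    congr 1
    ext v
    constructor
    · rintro ⟨w, ⟨u, hu, rfl⟩, rfl⟩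
      exact ⟨u, hu, rfl⟩
    · rintro ⟨u, hu, rfl⟩
      exact ⟨_, ⟨u, hu, rfl⟩, rfl⟩
  have hfixB : ∀ v ∈ SB, (fun j => γ (v j)) = v := by
    rintro _ ⟨u, _, rfl⟩
    funext j
    exact γ.commutes (u j)
  have hfixdR : ∀ v ∈ SdR, (fun j => γ (v j)) = v := by
    rintro _ ⟨u, _, rfl⟩
    funext j
    exact hγ _ (u j).2
  have hcast : ∀ v : SIdx ι sh → Qbar, (fun j => algebraMap Qbar ℂ (act sh x x' v j)) =
      act sh f.1 f⁻¹.1 (fun j => algebraMap Qbar ℂ (v j)) := by
    intro v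
    funext j
    rw [act_map, hf, hf']
  have hcast' : ∀ v : SIdx ι sh → Qbar, (fun j => algebraMap Qbar ℂ (act sh x' x v j)) =
      act sh f⁻¹.1 f.1 (fun j => algebraMap Qbar ℂ (v j)) := by
    intro v
    funext j
    rw [act_map, hf, hf']
  have hcastg : ∀ v : SIdx ι sh → Qbar,
      (fun j => algebraMap Qbar ℂ (act sh (x.map γ) (x'.map γ) v j)) =
      act sh g.1 g⁻¹.1 (fun j => algebraMap Qbar ℂ (v j)) := by
    intro v
    funext j
    rw [act_map, hg, hg']
  have hff : f.1 * f⁻¹.1 = 1 := f.mul_inv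
  have hff' : f⁻¹.1 * f.1 = 1 := f.inv_mul
  have hγact : ∀ v : SIdx ι sh → Qbar, (fun j => γ (v j)) = v →
      (fun j => γ (act sh x x' v j)) = act sh (x.map γ) (x'.map γ) v := by
    intro v hv
    funext j
    have := act_map (γ : Qbar →+* Qbar) sh x x' v j
    have e : (fun y => (γ : Qbar →+* Qbar) (v y)) = v := hv
    rw [e] at this
    exact this
  have hγact' : ∀ v : SIdx ι sh → Qbar, (fun j => γ (v j)) = v →
      (fun j => γ (act sh x' x v j)) = act sh (x'.map γ) (x.map γ) v := by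
    intro v hv
    funext j
    have := act_map (γ : Qbar →+* Qbar) sh x' x v j
    have e : (fun y => (γ : Qbar →+* Qbar) (v y)) = v := hv
    rw [e] at this
    exact this
  apply le_antisymm
  · rw [spanC, Submodule.map_span, Submodule.span_le]
    rintro _ ⟨_, ⟨v, hv, rfl⟩, rfl⟩
    -- the `Qbar`-vector
    let v' : SIdx ι sh → Qbar := fun j => ⟨(v j : ℂ), hK (v j).2⟩
    have hv' : v' ∈ SdR := ⟨v, hv, rfl⟩
    have h1 : act sh x x' v' ∈ Submodule.span Qbar SB := by
      apply mem_of_spanL (L := ℂ)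
      rw [hcast, hSB, ← hmap]
      exact ⟨_, Submodule.subset_span ⟨v, hv, rfl⟩, rfl⟩
    have h2 := span_galois γ SB hfixB h1
    rw [hγact v' (hfixdR v' hv')] at h2
    have h3 := mem_spanL (L := ℂ) h2
    rw [hcastg, hSB] at h3
    exact h3
  · rw [← hSB, spanL_span, Submodule.span_le]
    rintro _ ⟨_, ⟨u, hu, rfl⟩, rfl⟩
    let u' : SIdx ι sh → Qbar := fun j => algebraMap ℚ Qbar (u j)
    have hu' : u' ∈ SB := ⟨u, hu, rfl⟩
    have h1 : act sh x' x u' ∈ Submodule.span Qbar SdR := by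
      apply mem_of_spanL (L := ℂ)
      rw [hcast', hSdR]
      have h4 : (fun j => algebraMap Qbar ℂ (u' j)) ∈ spanC WB := Submodule.subset_span
        ⟨u, hu, rfl⟩
      rw [← hmap] at h4
      obtain ⟨y, hy, hy2⟩ := h4
      rw [← hy2, ← act_mul, hff', act_one]
      exact hy
    have h2 := span_galois γ SdR hfixdR h1
    rw [hγact' u' (hfixB u' hu')] at h2
    have h3 := mem_spanL (L := ℂ) h2
    rw [hSdR] at h3
    refine ⟨_, h3, ?_⟩
    rw [← hcastg]
    funext j
    rw [← act_mul, hxγ, act_one]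

end Pool.Agent.Lib.MPf11a48.CM
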