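import Pool.Agent.Lib.MP_f11a48_ag.helper16.Stable
import Pool.Agent.Lib.MP_f11a48_ag.helper16.Core

/-! Closed subtorsors that contain the period isomorphism of an object with complex
multiplication contain the torus cut out by the Galois-stable relations. -/

namespace Pool.Agent.Lib.MPf11a48.CM

open Matrix Module

/-- Nullstellensatz: a polynomial over `Qbar` that vanishes at the algebraic zeros of a set of
polynomials over `Qbar` vanishes at its complex zeros. -/
theorem null {τ : Type} [Finite τ] (I : Set (MvPolynomial τ Qbar)) (v : τ → ℂ)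
    (hv : ∀ p ∈ I, MvPolynomial.aeval v p = 0) (g : MvPolynomial τ Qbar)
    (hg : ∀ x : τ → Qbar, (∀ p ∈ I, MvPolynomial.aeval x p = 0) → MvPolynomial.aeval x g = 0) :
    MvPolynomial.aeval v g = 0 := by
  have h1 : g ∈ MvPolynomial.vanishingIdeal Qbar
      (MvPolynomial.zeroLocus Qbar (Ideal.span I)) := by
    rw [MvPolynomial.mem_vanishingIdeal_iff]
    intro x hx
    apply hg
    intro p hp
    rw [MvPolynomial.mem_zeroLocus_iff] at hx
    exact hx p (Ideal.subset_span hp)
  rw [MvPolynomial.vanishingIdeal_zeroLocus_eq_radical] at h1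
  obtain ⟨n, hn⟩ := h1
  have h2 : Ideal.span I ≤ RingHom.ker (MvPolynomial.aeval v : MvPolynomial τ Qbar →ₐ[Qbar] ℂ) := by
    rw [Ideal.span_le]
    intro p hp
    exact hv p hp
  have h3 := h2 hn
  rw [RingHom.mem_ker, map_pow] at h3
  by_contra h4
  exact pow_ne_zero n h4 h3

variable {K : IntermediateField ℚ ℂ} {ι E : Type} [Fintype ι] [DecidableEq ι]
  [CommRing E] [Algebra ℚ E] (b : Basis ι ℚ E) [Fintype (Emb E)] [DecidableEq (Emb E)]

/-- the inclusion of `K` in `Qbar` -/
noncomputable def incl (hK : K ≤ Qbar) : K →+* Qbar where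
  toFun x := ⟨(x : ℂ), hK x.2⟩
  map_one' := rfl
  map_mul' _ _ := rfl
  map_zero' := rfl
  map_add' _ _ := rfl

/-- substitution of a matrix `P' diag(x) q` in a polynomial -/
noncomputable def pullPoly (hK : K ≤ Qbar) (P' : Matrix ι (Emb E) Qbar) (q : Matrix (Emb E) ι Qbar) :
    MvPolynomial (ι × ι) K →+* MvPolynomial (Emb E) Qbar :=
  MvPolynomial.eval₂Hom (MvPolynomial.C.comp (incl hK))
    (fun ij => ∑ σ, MvPolynomial.C (P' ij.1 σ * q σ ij.2) * MvPolynomial.X σ)

omit [Fintype ι] [DecidableEq ι] in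
theorem aeval_pull (hK : K ≤ Qbar) (P' : Matrix ι (Emb E) Qbar) (q : Matrix (Emb E) ι Qbar)
    (d : Emb E → ℂ) (p : MvPolynomial (ι × ι) K) :
    MvPolynomial.aeval d (pullPoly hK P' q p) =
      MvPolynomial.aeval (fun ij : ι × ι => (toC P' * diagonal d * toC q) ij.1 ij.2) p := by
  have h : (MvPolynomial.aeval d : MvPolynomial (Emb E) Qbar →ₐ[Qbar] ℂ).toRingHom.comp
      (pullPoly hK P' q) = (MvPolynomial.aeval
        (fun ij : ι × ι => (toC P' * diagonal d * toC q) ij.1 ij.2) :
          MvPolynomial (ι × ι) K →ₐ[K] ℂ).toRingHom := by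
    apply MvPolynomial.ringHom_ext
    · intro r
      simp [pullPoly]
      rfl
    · intro ij
      simp only [pullPoly, AlgHom.toRingHom_eq_coe, RingHom.coe_comp, RingHom.coe_coe,
        Function.comp_apply, MvPolynomial.eval₂Hom_X', map_sum, map_mul, MvPolynomial.aeval_X,
        MvPolynomial.algHom_C]
      rw [mul_apply]
      refine Finset.sum_congr rfl fun σ _ => ?_
      rw [mul_diagonal]
      simp only [map_apply]
      ring
  exact RingHom.congr_fun h p

omit [Fintype ι] [DecidableEq ι] [Fintype (Emb E)] [DecidableEq (Emb E)] in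
theorem aeval_Qbar {τ : Type} (β : τ → Qbar) (g : MvPolynomial τ Qbar) :
    MvPolynomial.aeval (fun σ => ((β σ : Qbar) : ℂ)) g =
      algebraMap Qbar ℂ (MvPolynomial.aeval β g) := by
  rw [← MvPolynomial.aeval_algebraMap_apply]
  rfl

/-- the algebraic isomorphism attached to a point of the torus -/
noncomputable def Xu {P' : Matrix ι (Emb E) Qbar}
    (h1 : embMat b * P' = 1) (h2 : P' * embMat b = 1)
    {q : Matrix (Emb E) ι Qbar} {q' : Matrix ι (Emb E) Qbar} (hq : q * q' = 1) (hq' : q' * q = 1)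
    (u : Emb E → Qbarˣ) : GL ι Qbar where
  val := P' * diagonal (fun σ => (u σ : Qbar)) * q
  inv := q' * diagonal (fun σ => ((u⁻¹) σ : Qbar)) * embMat b
  val_inv := by
    calc P' * diagonal (fun σ => (u σ : Qbar)) * q *
          (q' * diagonal (fun σ => ((u⁻¹) σ : Qbar)) * embMat b)
        = P' * diagonal (fun σ => (u σ : Qbar)) * (q * q') *
          diagonal (fun σ => ((u⁻¹) σ : Qbar)) * embMat b := by simp only [Matrix.mul_assoc]
      _ = P' * (diagonal (fun σ => (u σ : Qbar)) * diagonal (fun σ => ((u⁻¹) σ : Qbar))) *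
          embMat b := by
        rw [hq, Matrix.mul_one]
        simp only [Matrix.mul_assoc]
      _ = 1 := by
        rw [diagonal_mul_diagonal]
        simp [h2]
  inv_val := by
    calc q' * diagonal (fun σ => ((u⁻¹) σ : Qbar)) * embMat b *
          (P' * diagonal (fun σ => (u σ : Qbar)) * q)
        = q' * diagonal (fun σ => ((u⁻¹) σ : Qbar)) * (embMat b * P') *
          diagonal (fun σ => (u σ : Qbar)) * q := by simp only [Matrix.mul_assoc]
      _ = q' * (diagonal (fun σ => ((u⁻¹) σ : Qbar)) * diagonal (fun σ => (u σ : Qbar))) * q := by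
        rw [h1, Matrix.mul_one]
        simp only [Matrix.mul_assoc]
      _ = 1 := by
        rw [diagonal_mul_diagonal]
        simp [hq']

/-- extension of scalars `GL(Qbar) → GL(ℂ)` -/
noncomputable abbrev glC : GL ι Qbar →* GL ι ℂ := Matrix.GeneralLinearGroup.map (algebraMap Qbar ℂ)

omit [Fintype ι] in
theorem glC_val [Fintype ι] (g : GL ι Qbar) : (glC g).1 = toC g.1 := rfl

theorem Xu_mul {P' : Matrix ι (Emb E) Qbar}
    (h1 : embMat b * P' = 1) (h2 : P' * embMat b = 1)
    {q : Matrix (Emb E) ι Qbar} {q' : Matrix ι (Emb E) Qbar} (hq : q * q' = 1) (hq' : q' * q = 1)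
    (u v w : Emb E → Qbarˣ) :
    Xu b h1 h2 hq hq' u * (Xu b h1 h2 hq hq' v)⁻¹ * Xu b h1 h2 hq hq' w =
      Xu b h1 h2 hq hq' (u * v⁻¹ * w) := by
  apply Units.ext
  change P' * diagonal (fun σ => (u σ : Qbar)) * q *
    (q' * diagonal (fun σ => ((v⁻¹) σ : Qbar)) * embMat b) *
      (P' * diagonal (fun σ => (w σ : Qbar)) * q) =
    P' * diagonal (fun σ => (((u * v⁻¹ * w) σ : Qbarˣ) : Qbar)) * q
  calc P' * diagonal (fun σ => (u σ : Qbar)) * q *
        (q' * diagonal (fun σ => ((v⁻¹) σ : Qbar)) * embMat b) *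
          (P' * diagonal (fun σ => (w σ : Qbar)) * q)
      = P' * diagonal (fun σ => (u σ : Qbar)) * (q * q') *
          diagonal (fun σ => ((v⁻¹) σ : Qbar)) * (embMat b * P') *
            diagonal (fun σ => (w σ : Qbar)) * q := by simp only [Matrix.mul_assoc]
    _ = P' * (diagonal (fun σ => (u σ : Qbar)) * diagonal (fun σ => ((v⁻¹) σ : Qbar)) *
          diagonal (fun σ => (w σ : Qbar))) * q := by
        rw [hq, h1, Matrix.mul_one, Matrix.mul_one]
        simp only [Matrix.mul_assoc]
    _ = _ := by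
        rw [diagonal_mul_diagonal, diagonal_mul_diagonal]
        rfl

end Pool.Agent.Lib.MPf11a48.CM
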