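import Pool.Agent.Lib.MP_f11a48_ag.helper16.Heap

/-! Closed subtorsors and the torus, continued. -/

namespace Pool.Agent.Lib.MPf11a48.CM

open Matrix Module

variable {K : IntermediateField ℚ ℂ} {ι E : Type} [Fintype ι] [DecidableEq ι]
  [CommRing E] [Algebra ℚ E] [Fintype (Emb E)] [DecidableEq (Emb E)]

theorem zpow_toNat {k : Type} [Field k] (z : k) (hz : z ≠ 0) (n : ℤ) :
    z ^ n.toNat * z⁻¹ ^ (-n).toNat = z ^ n := by
  rcases le_total 0 n with h | h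
  · obtain ⟨m, rfl⟩ := Int.eq_ofNat_of_zero_le h
    simp
  · obtain ⟨m, hm⟩ := Int.eq_ofNat_of_zero_le (neg_nonneg.2 h)
    have : n = -(m : ℤ) := by omega
    subst this
    simp

/-- The situation: `c = P'⁻¹ diag(s) q` lies in a `K`-closed coset `T`. -/
structure Sit (K : IntermediateField ℚ ℂ) (ι E : Type) [Fintype ι] [DecidableEq ι]
    [CommRing E] [Algebra ℚ E] [Fintype (Emb E)] [DecidableEq (Emb E)] where
  hK : K ≤ Qbar
  b : Basis ι ℚ E
  P' : Matrix ι (Emb E) Qbar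
  h1 : embMat b * P' = 1
  h2 : P' * embMat b = 1
  q : Matrix (Emb E) ι Qbar
  q' : Matrix ι (Emb E) Qbar
  hq : q * q' = 1
  hq' : q' * q = 1
  s : Emb E → ℂ
  hs : ∀ σ, s σ ≠ 0
  c : GL ι ℂ
  hc : toC (embMat b) * c.1 = diagonal s * toC q
  T : Set (GL ι ℂ)
  P : Set (MvPolynomial (ι × ι) K)
  hT : T = {f | ∀ p ∈ P, MvPolynomial.aeval (fun ij : ι × ι => f.1 ij.1 ij.2) p = 0}
  heap : IsHeap T
  mem : c ∈ T

namespace Sit

variable (S : Sit K ι E)

/-- algebraic points of the torus coset -/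
noncomputable def X (u : Emb E → Qbarˣ) : GL ι Qbar := Xu S.b S.h1 S.h2 S.hq S.hq' u

theorem X_val (u : Emb E → Qbarˣ) :
    (S.X u).1 = S.P' * diagonal (fun σ => (u σ : Qbar)) * S.q := rfl

theorem X_mul (u v w : Emb E → Qbarˣ) : S.X u * (S.X v)⁻¹ * S.X w = S.X (u * v⁻¹ * w) :=
  Xu_mul S.b S.h1 S.h2 S.hq S.hq' u v w

theorem mem_T {f : GL ι ℂ} : f ∈ S.T ↔
    ∀ p ∈ S.P, MvPolynomial.aeval (fun ij : ι × ι => f.1 ij.1 ij.2) p = 0 := by
  conv_lhs => rw [S.hT]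
  rfl

theorem toC_X (u : Emb E → Qbarˣ) : toC (S.X u).1 =
    toC S.P' * diagonal (fun σ => (((u σ : Qbar)) : ℂ)) * toC S.q := by
  rw [X_val, toC_mul, toC_mul]
  congr 2
  refine Matrix.ext fun i j => ?_
  simp only [map_apply, diagonal_apply]
  split_ifs <;> simp

theorem X_mem (u : Emb E → Qbarˣ) : glC (S.X u) ∈ S.T ↔
    ∀ p ∈ S.P, MvPolynomial.aeval (fun σ => (u σ : Qbar)) (pullPoly S.hK S.P' S.q p) = 0 := by
  rw [S.mem_T]
  refine forall₂_congr fun p _ => ?_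
  have h1 : MvPolynomial.aeval (fun ij : ι × ι => (glC (S.X u)).1 ij.1 ij.2) p =
      MvPolynomial.aeval (fun σ => (((u σ : Qbar)) : ℂ)) (pullPoly S.hK S.P' S.q p) := by
    rw [aeval_pull, glC_val, toC_X]
  rw [h1, aeval_Qbar]
  exact map_eq_zero_iff _ (algebraMap Qbar ℂ).injective

theorem c_eq : S.c.1 = toC S.P' * diagonal S.s * toC S.q := by
  have h2C : toC S.P' * toC (embMat S.b) = 1 := by rw [← toC_mul, S.h2, toC_one]
  rw [Matrix.mul_assoc, ← S.hc, ← Matrix.mul_assoc, h2C, Matrix.one_mul]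

/-- Nullstellensatz for the torus points of `T`. -/
theorem nullT (g : MvPolynomial (Emb E ⊕ Emb E) Qbar)
    (hg : ∀ u : Emb E → Qbarˣ, glC (S.X u) ∈ S.T →
      MvPolynomial.aeval (Sum.elim (fun σ => (u σ : Qbar)) (fun σ => (u σ : Qbar)⁻¹)) g = 0) :
    MvPolynomial.aeval (Sum.elim S.s (fun σ => (S.s σ)⁻¹)) g = 0 := by
  refine null ({g | ∃ p ∈ S.P, g = MvPolynomial.rename Sum.inl (pullPoly S.hK S.P' S.q p)} ∪
    {g | ∃ σ : Emb E, g = MvPolynomial.X (Sum.inl σ) * MvPolynomial.X (Sum.inr σ) - 1})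
    _ ?_ g ?_
  · rintro _ (⟨p, hp, rfl⟩ | ⟨σ, rfl⟩)
    · rw [MvPolynomial.aeval_rename]
      have e : (Sum.elim S.s (fun σ => (S.s σ)⁻¹)) ∘ Sum.inl = S.s := rfl
      rw [e, aeval_pull, ← S.c_eq]
      exact S.mem_T.1 S.mem p hp
    · simp [mul_inv_cancel₀ (S.hs σ)]
  · intro x hx
    have hx1 : ∀ σ, x (Sum.inl σ) * x (Sum.inr σ) = 1 := by
      intro σ
      have := hx _ (Or.inr ⟨σ, rfl⟩)
      simp only [map_sub, map_mul, MvPolynomial.aeval_X, map_one] at this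
      exact sub_eq_zero.1 this
    let u : Emb E → Qbarˣ := fun σ => ⟨x (Sum.inl σ), x (Sum.inr σ), hx1 σ,
      by rw [mul_comm]; exact hx1 σ⟩
    have hu : glC (S.X u) ∈ S.T := by
      rw [S.X_mem]
      intro p hp
      have := hx _ (Or.inl ⟨p, hp, rfl⟩)
      rw [MvPolynomial.aeval_rename] at this
      exact this
    have h3 := hg u hu
    have e : Sum.elim (fun σ => (u σ : Qbar)) (fun σ => (u σ : Qbar)⁻¹) = x := by
      funext y
      cases y with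
      | inl σ => rfl
      | inr σ => exact inv_eq_of_mul_eq_one_right (hx1 σ)
    rwa [e] at h3

theorem exists_pt : ∃ u : Emb E → Qbarˣ, glC (S.X u) ∈ S.T := by
  by_contra hcon
  push Not at hcon
  have := S.nullT 1 (fun u hu => absurd hu (hcon u))
  rw [map_one] at this
  exact one_ne_zero this

/-- differences of algebraic torus points of `T` -/
noncomputable def Γ (b0 : Emb E → Qbarˣ) (hb0 : glC (S.X b0) ∈ S.T) :
    Subgroup (Emb E → Qbarˣ) where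
  carrier := {u | glC (S.X (u * b0)) ∈ S.T}
  one_mem' := by
    change glC (S.X (1 * b0)) ∈ S.T
    rwa [one_mul]
  mul_mem' := by
    intro u v hu hv
    change glC (S.X (u * v * b0)) ∈ S.T
    have h := S.heap _ hu _ hb0 _ hv
    rw [← map_inv, ← map_mul, ← map_mul, S.X_mul] at h
    have e : u * b0 * b0⁻¹ * (v * b0) = u * v * b0 := by
      rw [mul_inv_cancel_right, mul_assoc]
    rwa [e] at h
  inv_mem' := by
    intro u hu
    change glC (S.X (u⁻¹ * b0)) ∈ S.T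
    have h := S.heap _ hb0 _ hu _ hb0
    rw [← map_inv, ← map_mul, ← map_mul, S.X_mul] at h
    have e : b0 * (u * b0)⁻¹ * b0 = u⁻¹ * b0 := by
      rw [_root_.mul_inv_rev, mul_inv_cancel_left]
    rwa [e] at h

/-- characters that are trivial on `Γ` -/
def Triv (b0 : Emb E → Qbarˣ) (hb0 : glC (S.X b0) ∈ S.T) (χ : Emb E → ℤ) : Prop :=
  ∀ u ∈ S.Γ b0 hb0, ∏ σ, (u σ : Qbar) ^ χ σ = 1

theorem triv_eq {b0 : Emb E → Qbarˣ} {hb0 : glC (S.X b0) ∈ S.T} {χ : Emb E → ℤ}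
    (hχ : S.Triv b0 hb0 χ) :
    ∏ σ, S.s σ ^ χ σ = algebraMap Qbar ℂ (∏ σ, (b0 σ : Qbar) ^ χ σ) := by
  have key : ∀ {A : Type} [Field A] [Algebra Qbar A] (z : Emb E → A), (∀ σ, z σ ≠ 0) →
      MvPolynomial.aeval (Sum.elim z (fun σ => (z σ)⁻¹))
        ((∏ σ, (MvPolynomial.X (Sum.inl σ) ^ (χ σ).toNat *
          MvPolynomial.X (Sum.inr σ) ^ (-χ σ).toNat) : MvPolynomial (Emb E ⊕ Emb E) Qbar) -
          MvPolynomial.C (∏ σ, (b0 σ : Qbar) ^ χ σ)) =
        (∏ σ, z σ ^ χ σ) - algebraMap Qbar A (∏ σ, (b0 σ : Qbar) ^ χ σ) := by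
    intro A _ _ z hz
    rw [map_sub, map_prod]
    congr 1
    · refine Finset.prod_congr rfl fun σ _ => ?_
      rw [map_mul, map_pow, map_pow, MvPolynomial.aeval_X, MvPolynomial.aeval_X]
      exact zpow_toNat _ (hz σ) _
    · exact MvPolynomial.algHom_C _ _
  have h := S.nullT _ (fun u hu => by
    rw [key (fun σ => (u σ : Qbar)) (fun σ => (u σ).ne_zero)]
    have hu' : u * b0⁻¹ ∈ S.Γ b0 hb0 := by
      change glC (S.X (u * b0⁻¹ * b0)) ∈ S.T
      rwa [inv_mul_cancel_right]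
    have h3 := hχ _ hu'
    have h4 : (∏ σ, (((u * b0⁻¹) σ : Qbarˣ) : Qbar) ^ χ σ) =
        (∏ σ, (u σ : Qbar) ^ χ σ) * (∏ σ, (b0 σ : Qbar) ^ χ σ)⁻¹ := by
      rw [← Finset.prod_inv_distrib, ← Finset.prod_mul_distrib]
      refine Finset.prod_congr rfl fun σ _ => ?_
      simp [_root_.mul_zpow]
    rw [h4] at h3
    have h5 : (∏ σ, (b0 σ : Qbar) ^ χ σ) ≠ 0 :=
      Finset.prod_ne_zero_iff.2 fun σ _ => zpow_ne_zero _ (b0 σ).ne_zero
    have h6 : (∏ σ, (u σ : Qbar) ^ χ σ) = ∏ σ, (b0 σ : Qbar) ^ χ σ := by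
      rw [mul_inv_eq_one₀ h5] at h3
      exact h3
    rw [h6]
    simp)
  rw [key S.s S.hs] at h
  exact sub_eq_zero.1 h

end Sit

end Pool.Agent.Lib.MPf11a48.CM
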