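import Pool.Agent.Lib.MP_f11a48_ag.helper16.Heap2

/-! Closed subtorsors and the torus: Galois stability, independence of characters. -/

namespace Pool.Agent.Lib.MPf11a48.CM

open Matrix Module

theorem map_gal_mul' {μ ν ξ : Type} [Fintype ν] (γ : Qbar ≃ₐ[ℚ] Qbar) (M : Matrix μ ν Qbar)
    (N : Matrix ν ξ Qbar) : (M * N).map γ = M.map γ * N.map γ :=
  Matrix.map_mul (f := (γ : Qbar →+* Qbar))

theorem map_gal_diagonal' {μ : Type} [DecidableEq μ] (γ : Qbar ≃ₐ[ℚ] Qbar) (d : μ → Qbar) :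
    (diagonal d).map γ = diagonal (fun σ => γ (d σ)) := by
  refine Matrix.ext fun i j => ?_
  simp only [map_apply, diagonal_apply]
  split_ifs <;> simp

/-- the Galois action on `GL(Qbar)` -/
noncomputable abbrev galG {ι : Type} [Fintype ι] [DecidableEq ι] (γ : Qbar ≃ₐ[ℚ] Qbar) :
    GL ι Qbar →* GL ι Qbar := Matrix.GeneralLinearGroup.map (γ : Qbar →+* Qbar)

variable {K : IntermediateField ℚ ℂ} {ι E : Type} [Fintype ι] [DecidableEq ι]
  [CommRing E] [Algebra ℚ E] [Fintype (Emb E)] [DecidableEq (Emb E)]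

theorem aeval_K {τ : Type} (hK : K ≤ Qbar) (z : τ → Qbar) (p : MvPolynomial τ K) :
    MvPolynomial.aeval (fun j => ((z j : Qbar) : ℂ)) p =
      algebraMap Qbar ℂ (MvPolynomial.eval₂ (incl hK) z p) := by
  rw [MvPolynomial.eval₂_comp_left, MvPolynomial.aeval_def]
  rfl

/-- conjugates of algebraic points of a `K`-closed set lie in it -/
theorem gal_mem (hK : K ≤ Qbar) {T : Set (GL ι ℂ)} (hT : IsKClosed K T)
    (γ : Qbar ≃ₐ[ℚ] Qbar) (hγ : ∀ z : Qbar, (z : ℂ) ∈ K → γ z = z) {g : GL ι Qbar}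
    (hg : glC g ∈ T) : glC (galG γ g) ∈ T := by
  obtain ⟨P, rfl⟩ := hT
  intro p hp
  have h1 : MvPolynomial.aeval (fun ij : ι × ι => ((g.1 ij.1 ij.2 : Qbar) : ℂ)) p = 0 :=
    hg p hp
  rw [aeval_K hK] at h1
  have h2 := (map_eq_zero_iff _ (algebraMap Qbar ℂ).injective).1 h1
  have h3 : MvPolynomial.aeval (fun ij : ι × ι => ((γ (g.1 ij.1 ij.2) : Qbar) : ℂ)) p = 0 := by
    rw [aeval_K hK]
    have h4 : MvPolynomial.eval₂ (incl hK) (fun ij : ι × ι => γ (g.1 ij.1 ij.2)) p =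
        γ (MvPolynomial.eval₂ (incl hK) (fun ij : ι × ι => g.1 ij.1 ij.2) p) := by
      have h5 := MvPolynomial.eval₂_comp_left (γ : Qbar →+* Qbar) (incl hK)
        (fun ij : ι × ι => g.1 ij.1 ij.2) p
      have h6 : (γ : Qbar →+* Qbar).comp (incl hK) = incl hK := by
        refine RingHom.ext fun z => ?_
        exact hγ _ z.2
      rw [h6] at h5
      exact h5.symm
    rw [h4, h2, map_zero, map_zero]
  exact h3

namespace Sit

variable (S : Sit K ι E)

theorem gal_torus (γ : Qbar ≃ₐ[ℚ] Qbar) (u : Emb E → Qbar) :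
    S.P'.map γ * diagonal (fun σ => γ (u σ)) * (embMat S.b).map γ =
      S.P' * diagonal (fun σ => γ (u ((gal γ).symm σ))) * embMat S.b := by
  refine Matrix.ext fun i j => ?_
  rw [mul_apply, mul_apply]
  simp only [mul_diagonal, map_apply]
  refine Fintype.sum_equiv (gal γ) _ _ fun σ => ?_
  rw [Equiv.symm_apply_apply, embInv_gal S.b S.h1 S.h2, embMat_gal]

theorem triv_gal {b0 : Emb E → Qbarˣ} {hb0 : glC (S.X b0) ∈ S.T} {χ : Emb E → ℤ}
    (hχ : S.Triv b0 hb0 χ) (γ : Qbar ≃ₐ[ℚ] Qbar) (hγ : ∀ z : Qbar, (z : ℂ) ∈ K → γ z = z) :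
    S.Triv b0 hb0 (fun σ => χ (gal γ σ)) := by
  intro u hu
  let v : Emb E → Qbarˣ := fun σ => Units.map ((γ : Qbar →+* Qbar) : Qbar →* Qbar)
    (u ((gal γ).symm σ))
  have hclosed : IsKClosed K S.T := ⟨S.P, S.hT⟩
  have hv : v ∈ S.Γ b0 hb0 := by
    change glC (S.X (v * b0)) ∈ S.T
    have e1 := gal_mem S.hK hclosed γ hγ (g := S.X (u * b0)) hu
    have e2 := gal_mem S.hK hclosed γ hγ hb0
    have e3 := S.heap _ e1 _ e2 _ hb0
    have e4 : galG γ (S.X (u * b0)) * (galG γ (S.X b0))⁻¹ * S.X b0 = S.X (v * b0) := by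
      apply Units.ext
      have f1 : (galG γ (S.X (u * b0))).1 =
          (S.P'.map γ * diagonal (fun σ => γ (((u * b0) σ : Qbarˣ) : Qbar)) * S.q.map γ) := by
        change (S.P' * diagonal (fun σ => (((u * b0) σ : Qbarˣ) : Qbar)) * S.q).map γ = _
        rw [map_gal_mul', map_gal_mul', map_gal_diagonal']
      have f2 : (galG γ (S.X b0))⁻¹.1 =
          (S.q'.map γ * diagonal (fun σ => γ (((b0⁻¹) σ : Qbarˣ) : Qbar)) *
            (embMat S.b).map γ) := by
        change (S.q' * diagonal (fun σ => (((b0⁻¹) σ : Qbarˣ) : Qbar)) * embMat S.b).map γ = _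
        rw [map_gal_mul', map_gal_mul', map_gal_diagonal']
      have hqγ : S.q.map γ * S.q'.map γ = 1 := by
        rw [← map_gal_mul', S.hq]
        exact Matrix.map_one _ (map_zero _) (map_one _)
      change (galG γ (S.X (u * b0))).1 * (galG γ (S.X b0))⁻¹.1 * (S.X b0).1 = (S.X (v * b0)).1
      rw [f1, f2, S.X_val, S.X_val]
      calc S.P'.map γ * diagonal (fun σ => γ (((u * b0) σ : Qbarˣ) : Qbar)) * S.q.map γ *
            (S.q'.map γ * diagonal (fun σ => γ (((b0⁻¹) σ : Qbarˣ) : Qbar)) *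
              (embMat S.b).map γ) *
            (S.P' * diagonal (fun σ => (b0 σ : Qbar)) * S.q)
          = S.P'.map γ * diagonal (fun σ => γ (((u * b0) σ : Qbarˣ) : Qbar)) *
              (S.q.map γ * S.q'.map γ) * diagonal (fun σ => γ (((b0⁻¹) σ : Qbarˣ) : Qbar)) *
              (embMat S.b).map γ * (S.P' * diagonal (fun σ => (b0 σ : Qbar)) * S.q) := by
            simp only [Matrix.mul_assoc]
        _ = (S.P'.map γ * diagonal (fun σ => γ ((u σ : Qbarˣ) : Qbar)) *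
              (embMat S.b).map γ) * (S.P' * diagonal (fun σ => (b0 σ : Qbar)) * S.q) := by
            rw [hqγ, Matrix.mul_one]
            have f3 : diagonal (fun σ => γ (((u * b0) σ : Qbarˣ) : Qbar)) *
                diagonal (fun σ => γ (((b0⁻¹) σ : Qbarˣ) : Qbar)) =
                diagonal (fun σ => γ ((u σ : Qbarˣ) : Qbar)) := by
              rw [diagonal_mul_diagonal]
              congr 1
              funext σ
              rw [← map_mul, ← Units.val_mul]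
              congr 2
              simp
            rw [Matrix.mul_assoc (S.P'.map γ) _ (diagonal _), f3]
        _ = S.P' * diagonal (fun σ => γ ((u ((gal γ).symm σ) : Qbarˣ) : Qbar)) *
              (embMat S.b * S.P') * diagonal (fun σ => (b0 σ : Qbar)) * S.q := by
            rw [S.gal_torus γ (fun σ => ((u σ : Qbarˣ) : Qbar))]
            simp only [Matrix.mul_assoc]
        _ = S.P' * diagonal (fun σ => (((v * b0) σ : Qbarˣ) : Qbar)) * S.q := by
            rw [S.h1, Matrix.mul_one, Matrix.mul_assoc S.P', diagonal_mul_diagonal]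
            rfl
    rw [← e4, map_mul, map_mul, map_inv]
    exact e3
  have h1 := hχ v hv
  have h2 : (∏ σ, ((v σ : Qbarˣ) : Qbar) ^ χ σ) =
      γ (∏ σ, ((u σ : Qbarˣ) : Qbar) ^ χ (gal γ σ)) := by
    rw [map_prod]
    refine (Fintype.prod_equiv (gal γ) _ _ fun σ => ?_).symm
    rw [map_zpow₀]
    change _ = (γ ((u ((gal γ).symm (gal γ σ)) : Qbarˣ) : Qbar)) ^ _
    rw [Equiv.symm_apply_apply]
  rw [h2] at h1
  have h3 : γ (∏ σ, ((u σ : Qbarˣ) : Qbar) ^ χ (gal γ σ)) = γ 1 := by rw [h1, map_one]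
  exact γ.injective h3

theorem core_of_triv {b0 : Emb E → Qbarˣ} {hb0 : glC (S.X b0) ∈ S.T} {χ : Emb E → ℤ}
    (hχ : S.Triv b0 hb0 χ) (γ : Qbar ≃ₐ[ℚ] Qbar) (hγ : ∀ z : Qbar, (z : ℂ) ∈ K → γ z = z) :
    (∏ σ, S.s (gal γ σ) ^ χ σ) ∈ Qbar := by
  have hγ' : ∀ z : Qbar, (z : ℂ) ∈ K → γ.symm z = z := by
    intro z hz
    rw [AlgEquiv.symm_apply_eq]
    exact (hγ z hz).symm
  have h1 := S.triv_eq (S.triv_gal hχ γ.symm hγ')
  have h2 : (∏ σ, S.s (gal γ σ) ^ χ σ) = ∏ σ, S.s σ ^ χ (gal γ.symm σ) := by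
    refine Fintype.prod_equiv (gal γ) _ _ fun σ => ?_
    congr 2
    refine AlgHom.ext fun x => ?_
    simp
  rw [h2, h1]
  exact (∏ σ, (b0 σ : Qbar) ^ χ (gal γ.symm σ)).2

end Sit

end Pool.Agent.Lib.MPf11a48.CM
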