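import Pool.Agent.Lib.MP_f11a48_ag.helper16.Heap3

/-! Closed subtorsors and the torus: conclusion. -/

namespace Pool.Agent.Lib.MPf11a48.CM

open Matrix Module

variable {K : IntermediateField ℚ ℂ} {ι E : Type} [Fintype ι] [DecidableEq ι]
  [CommRing E] [Algebra ℚ E] [Fintype (Emb E)] [DecidableEq (Emb E)]

namespace Sit

variable (S : Sit K ι E)

/-- the character of `Γ` attached to a monomial -/
noncomputable def φ (b0 : Emb E → Qbarˣ) (hb0 : glC (S.X b0) ∈ S.T) (d : Emb E →₀ ℕ) :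
    S.Γ b0 hb0 →* Qbar where
  toFun u := ∏ σ, ((u.1 σ : Qbarˣ) : Qbar) ^ d σ
  map_one' := by simp
  map_mul' u v := by
    rw [← Finset.prod_mul_distrib]
    refine Finset.prod_congr rfl fun σ _ => ?_
    simp [mul_pow]

theorem dedekind (b0 : Emb E → Qbarˣ) (hb0 : glC (S.X b0) ∈ S.T) (t : Emb E → ℂ)
    (ht0 : ∀ σ, t σ ≠ 0) (ht : ∀ χ, S.Triv b0 hb0 χ → ∏ σ, t σ ^ χ σ = 1)
    {p : MvPolynomial (ι × ι) K} (hp : p ∈ S.P) :
    MvPolynomial.aeval (fun σ => t σ * ((b0 σ : Qbar) : ℂ)) (pullPoly S.hK S.P' S.q p) = 0 := by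
  classical
  set h := pullPoly S.hK S.P' S.q p with hh
  let a : (Emb E →₀ ℕ) → Qbar := fun d => h.coeff d * ∏ σ, (b0 σ : Qbar) ^ d σ
  -- the relation between characters
  have hrel : ∀ u : S.Γ b0 hb0, ∑ d ∈ h.support, a d * S.φ b0 hb0 d u = 0 := by
    intro u
    have h1 := (S.X_mem (u.1 * b0)).1 u.2 p hp
    rw [← hh, MvPolynomial.aeval_def, MvPolynomial.eval₂_eq'] at h1
    rw [← h1]
    refine Finset.sum_congr rfl fun d _ => ?_
    have h2 : (∏ σ, (((u.1 * b0) σ : Qbarˣ) : Qbar) ^ d σ) =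
        (∏ σ, ((u.1 σ : Qbarˣ) : Qbar) ^ d σ) * ∏ σ, (b0 σ : Qbar) ^ d σ := by
      rw [← Finset.prod_mul_distrib]
      refine Finset.prod_congr rfl fun σ _ => ?_
      simp [mul_pow]
    rw [h2]
    change h.coeff d * (∏ σ, (b0 σ : Qbar) ^ d σ) * (∏ σ, ((u.1 σ : Qbarˣ) : Qbar) ^ d σ) =
      algebraMap Qbar Qbar (h.coeff d) * _
    simp only [Algebra.algebraMap_self, RingHom.id_apply]
    ring
  -- independence of characters
  have hfib : ∀ f ∈ h.support.image (S.φ b0 hb0),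
      ∑ d ∈ h.support with S.φ b0 hb0 d = f, a d = 0 := by
    have hli := linearIndependent_monoidHom (S.Γ b0 hb0) Qbar
    rw [linearIndependent_iff'] at hli
    refine hli (h.support.image (S.φ b0 hb0))
      (fun f => ∑ d ∈ h.support with S.φ b0 hb0 d = f, a d) ?_
    funext u
    rw [Finset.sum_apply]
    have h1 := hrel u
    rw [← Finset.sum_fiberwise_of_maps_to (g := S.φ b0 hb0) (t := h.support.image (S.φ b0 hb0))
      (fun d hd => Finset.mem_image_of_mem _ hd)] at h1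
    rw [Pi.zero_apply, ← h1]
    refine Finset.sum_congr rfl fun f _ => ?_
    rw [Pi.smul_apply, smul_eq_mul, Finset.sum_mul]
    refine Finset.sum_congr rfl fun d hd => ?_
    rw [(Finset.mem_filter.1 hd).2]
  -- the value of the monomials at `t` only depends on the character
  have hconst : ∀ d d' : Emb E →₀ ℕ, S.φ b0 hb0 d = S.φ b0 hb0 d' →
      (∏ σ, t σ ^ d σ) = ∏ σ, t σ ^ d' σ := by
    intro d d' hdd
    have h1 : S.Triv b0 hb0 (fun σ => (d σ : ℤ) - (d' σ : ℤ)) := by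
      intro u hu
      have h2 : (∏ σ, ((u σ : Qbarˣ) : Qbar) ^ d σ) = ∏ σ, ((u σ : Qbarˣ) : Qbar) ^ d' σ :=
        DFunLike.congr_fun hdd (⟨u, hu⟩ : S.Γ b0 hb0)
      have h3 : (∏ σ, ((u σ : Qbarˣ) : Qbar) ^ ((d σ : ℤ) - (d' σ : ℤ))) =
          (∏ σ, ((u σ : Qbarˣ) : Qbar) ^ d σ) / ∏ σ, ((u σ : Qbarˣ) : Qbar) ^ d' σ := by
        rw [← Finset.prod_div_distrib]
        refine Finset.prod_congr rfl fun σ _ => ?_
        rw [zpow_sub₀ (u σ).ne_zero, zpow_natCast, zpow_natCast]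
      rw [h3, h2, div_self]
      exact Finset.prod_ne_zero_iff.2 fun σ _ => pow_ne_zero _ (u σ).ne_zero
    have h2 := ht _ h1
    have h3 : (∏ σ, t σ ^ ((d σ : ℤ) - (d' σ : ℤ))) =
        (∏ σ, t σ ^ d σ) / ∏ σ, t σ ^ d' σ := by
      rw [← Finset.prod_div_distrib]
      refine Finset.prod_congr rfl fun σ _ => ?_
      rw [zpow_sub₀ (ht0 σ), zpow_natCast, zpow_natCast]
    rw [h3] at h2
    exact (div_eq_one_iff_eq (Finset.prod_ne_zero_iff.2 fun σ _ => pow_ne_zero _ (ht0 σ))).1 h2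
  -- conclusion
  rw [MvPolynomial.aeval_def, MvPolynomial.eval₂_eq']
  have h4 : ∀ d ∈ h.support, algebraMap Qbar ℂ (h.coeff d) *
      (∏ σ, (t σ * ((b0 σ : Qbar) : ℂ)) ^ d σ) = algebraMap Qbar ℂ (a d) * ∏ σ, t σ ^ d σ := by
    intro d _
    simp only [mul_pow, Finset.prod_mul_distrib, a, map_mul, map_prod, map_pow]
    change _ * (_ * ∏ σ, ((b0 σ : Qbar) : ℂ) ^ d σ) =
      _ * (∏ σ, ((b0 σ : Qbar) : ℂ) ^ d σ) * _
    ring
  rw [Finset.sum_congr rfl h4]
  rw [← Finset.sum_fiberwise_of_maps_to (g := S.φ b0 hb0) (t := h.support.image (S.φ b0 hb0))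
    (fun d hd => Finset.mem_image_of_mem _ hd)]
  refine Finset.sum_eq_zero fun f hf => ?_
  obtain ⟨d0, _, hd0⟩ := Finset.mem_image.1 hf
  have h5 : ∀ d ∈ h.support.filter (fun d => S.φ b0 hb0 d = f),
      algebraMap Qbar ℂ (a d) * (∏ σ, t σ ^ d σ) =
        algebraMap Qbar ℂ (a d) * ∏ σ, t σ ^ d0 σ := by
    intro d hd
    rw [hconst d d0 ((Finset.mem_filter.1 hd).2.trans hd0.symm)]
  rw [Finset.sum_congr rfl h5, ← Finset.sum_mul, ← map_sum, hfib f hf, map_zero, zero_mul]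

/-- Torus points killed by the Galois-stable relations over `K` move `c` inside `T`. -/
theorem torus_heap (θ : GL ι ℂ) (t : Emb E → ℂ) (ht0 : ∀ σ, t σ ≠ 0)
    (hθ : toC (embMat S.b) * θ.1 = diagonal t * toC (embMat S.b))
    (hcore : ∀ χ : Emb E → ℤ, (∀ γ : Qbar ≃ₐ[ℚ] Qbar, (∀ z : Qbar, (z : ℂ) ∈ K → γ z = z) →
      (∏ σ, S.s (gal γ σ) ^ χ σ) ∈ Qbar) → ∏ σ, t σ ^ χ σ = 1) : θ * S.c ∈ S.T := by
  obtain ⟨b0, hb0⟩ := S.exists_pt
  have h2C : toC S.P' * toC (embMat S.b) = 1 := by rw [← toC_mul, S.h2, toC_one]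
  have h1C : toC (embMat S.b) * toC S.P' = 1 := by rw [← toC_mul, S.h1, toC_one]
  have h1 : θ * glC (S.X b0) ∈ S.T := by
    rw [S.mem_T]
    intro p hp
    have h3 : (θ * glC (S.X b0)).1 =
        toC S.P' * diagonal (fun σ => t σ * ((b0 σ : Qbar) : ℂ)) * toC S.q := by
      change θ.1 * toC (S.X b0).1 = _
      rw [S.toC_X]
      calc θ.1 * (toC S.P' * diagonal (fun σ => ((b0 σ : Qbar) : ℂ)) * toC S.q)
          = (toC S.P' * toC (embMat S.b)) * θ.1 *
              (toC S.P' * diagonal (fun σ => ((b0 σ : Qbar) : ℂ)) * toC S.q) := by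
            rw [h2C, Matrix.one_mul]
        _ = toC S.P' * (toC (embMat S.b) * θ.1) *
              (toC S.P' * diagonal (fun σ => ((b0 σ : Qbar) : ℂ)) * toC S.q) := by
            simp only [Matrix.mul_assoc]
        _ = toC S.P' * diagonal t * (toC (embMat S.b) * toC S.P') *
              diagonal (fun σ => ((b0 σ : Qbar) : ℂ)) * toC S.q := by
            rw [hθ]
            simp only [Matrix.mul_assoc]
        _ = _ := by
            rw [h1C, Matrix.mul_one, Matrix.mul_assoc (toC S.P'), diagonal_mul_diagonal]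
    rw [h3, ← aeval_pull S.hK]
    exact S.dedekind b0 hb0 t ht0 (fun χ hχ => hcore χ fun γ hγ => S.core_of_triv hχ γ hγ) hp
  have h4 := S.heap _ h1 _ hb0 _ S.mem
  rwa [mul_inv_cancel_right] at h4

end Sit

end Pool.Agent.Lib.MPf11a48.CM
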