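import Pool.Agent.Lib.MP_f11a48_ag.helper16.Data

/-! The dichotomy for objects with complex multiplication. -/

namespace Pool.Agent.Lib.MPf11a48.CM

open Matrix Module

variable {K : IntermediateField ℚ ℂ} {ι E : Type} [Fintype ι] [DecidableEq ι]
  [CommRing E] [Algebra ℚ E] {ρ : E ≃ₐ[ℚ] E}

namespace CMObj

/-- Some nonzero vector of `M_dR ⊗ Qbar` has all its periods in `Qbar * lam`, where
`lam ^ 2 = (2 π i) ^ w`. -/
def Exceptional (M : CMObj K ι E ρ) : Prop :=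
  ∃ lam : ℂ, lam ^ 2 = (2 * Real.pi * Complex.I : ℂ) ^ M.w ∧
    ∃ x : ι → Qbar, x ≠ 0 ∧ ∀ i, ∃ y : Qbar,
      (M.c.1 *ᵥ fun j => (x j : ℂ)) i = lam * (y : ℂ)

end CMObj

namespace PData

variable {M : CMObj K ι E ρ} [Fintype (Emb E)] [DecidableEq (Emb E)] (D : PData M)

theorem not_mem {lam : ℂ} (hlam : lam ^ 2 = (2 * Real.pi * Complex.I : ℂ) ^ M.w)
    (hexc : ¬ M.Exceptional) (σ : Emb E) : D.s σ / lam ∉ Qbar := by
  have hlam0 : lam ≠ 0 := by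
    intro h0
    rw [h0] at hlam
    exact two_pi_I_ne M.w (by rw [← hlam]; simp)
  intro hmem
  apply hexc
  refine ⟨lam, hlam, fun i => D.q' i σ, ?_, fun i => ⟨⟨D.s σ / lam, hmem⟩ * D.P' i σ, ?_⟩⟩
  · intro h0
    have h3 := congrFun (congrFun D.hq σ) σ
    rw [mul_apply, one_apply_eq] at h3
    rw [Finset.sum_eq_zero] at h3
    · exact zero_ne_one h3
    · intro i _
      have := congrFun h0 i
      simp only [Pi.zero_apply] at this
      rw [this, mul_zero]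
  · have e1 : M.c.1 * toC D.q' = toC D.P' * diagonal D.s := by
      calc M.c.1 * toC D.q' = (toC D.P' * toC (embMat M.b)) * M.c.1 * toC D.q' := by
            rw [D.h2C, Matrix.one_mul]
        _ = toC D.P' * (toC (embMat M.b) * M.c.1) * toC D.q' := by simp only [Matrix.mul_assoc]
        _ = toC D.P' * diagonal D.s * (toC D.q * toC D.q') := by
          rw [D.hc]
          simp only [Matrix.mul_assoc]
        _ = toC D.P' * diagonal D.s := by rw [D.hqC, Matrix.mul_one]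
    have e2 := congrFun (congrFun e1 i) σ
    rw [mul_diagonal] at e2
    have e3 : (M.c.1 *ᵥ fun j => ((D.q' j σ : Qbar) : ℂ)) i = (M.c.1 * toC D.q') i σ := rfl
    rw [e3, e2]
    change ((D.P' i σ : Qbar) : ℂ) * D.s σ = lam * (D.s σ / lam * ((D.P' i σ : Qbar) : ℂ))
    field_simp

/-- the Galois-stable relations kill the torus of similitudes -/
def Kill : Prop :=
  ∀ t : Emb E → ℂ, (∀ σ, t σ ≠ 0) → (∃ μ : ℂ, ∀ σ, t σ * t (bar ρ σ) = μ) →
    ∀ χ : Emb E → ℤ, (∀ γ : Qbar ≃ₐ[ℚ] Qbar, (∏ σ, D.s (gal γ σ) ^ χ σ) ∈ Qbar) →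
    ∏ σ, t σ ^ χ σ = 1

theorem kill_of_rigid (hK : K ≤ Qbar) (cm : IsCM ρ) (hrig : OddRigid ρ)
    (hexc : ¬ M.Exceptional) : D.Kill := by
  intro t ht hμ χ hχ
  obtain ⟨lam, hlam⟩ : ∃ lam : ℂ, lam ^ 2 = (2 * Real.pi * Complex.I : ℂ) ^ M.w :=
    IsAlgClosed.exists_pow_nat_eq _ (by norm_num)
  obtain ⟨μ, hμ⟩ := hμ
  obtain ⟨h3, h4⟩ := core_even cm D.hs hrig M.w_ne (fun n hn => two_pi_I_zpow hn) (D.hα hK)
    (D.hpol hK) hlam (D.not_mem hlam hexc) hχ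
  exact prod_sim cm h3 h4 ht hμ

/-- the algebraic isomorphism attached to `β` -/
noncomputable def x (β : Emb E → Qbar) : Matrix ι ι Qbar := D.P' * diagonal β * D.q

/-- its inverse -/
noncomputable def x' (β : Emb E → Qbar) : Matrix ι ι Qbar :=
  D.q' * diagonal (fun σ => (β σ)⁻¹) * embMat M.b

theorem hxx' {β : Emb E → Qbar} (hβ0 : ∀ σ, β σ ≠ 0) : D.x β * D.x' β = 1 := by
  have hββ : diagonal β * diagonal (fun σ => (β σ)⁻¹) = 1 := by
    rw [diagonal_mul_diagonal]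
    simp [mul_inv_cancel₀ (hβ0 _)]
  calc D.x β * D.x' β = D.P' * diagonal β * (D.q * D.q') * diagonal (fun σ => (β σ)⁻¹) *
          embMat M.b := by
        simp only [x, x', Matrix.mul_assoc]
    _ = D.P' * (diagonal β * diagonal (fun σ => (β σ)⁻¹)) * embMat M.b := by
        rw [D.hq, Matrix.mul_one]
        simp only [Matrix.mul_assoc]
    _ = 1 := by rw [hββ, Matrix.mul_one, D.h2]

theorem hx'x {β : Emb E → Qbar} (hβ0 : ∀ σ, β σ ≠ 0) : D.x' β * D.x β = 1 := by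
  have hββ' : diagonal (fun σ => (β σ)⁻¹) * diagonal β = 1 := by
    rw [diagonal_mul_diagonal]
    simp [inv_mul_cancel₀ (hβ0 _)]
  calc D.x' β * D.x β = D.q' * diagonal (fun σ => (β σ)⁻¹) * (embMat M.b * D.P') * diagonal β *
          D.q := by
        simp only [x, x', Matrix.mul_assoc]
    _ = D.q' * (diagonal (fun σ => (β σ)⁻¹) * diagonal β) * D.q := by
        rw [D.h1, Matrix.mul_one]
        simp only [Matrix.mul_assoc]
    _ = 1 := by rw [hββ', Matrix.mul_one, D.hq']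

theorem hPx (β : Emb E → Qbar) : embMat M.b * D.x β = diagonal β * D.q := by
  simp only [x, ← Matrix.mul_assoc]
  rw [D.h1, Matrix.one_mul]

/-- the algebraic point as an element of `GL` -/
noncomputable def X {β : Emb E → Qbar} (hβ0 : ∀ σ, β σ ≠ 0) : GL ι ℂ :=
  ⟨toC (D.x β), toC (D.x' β), by rw [← toC_mul, D.hxx' hβ0, toC_one],
    by rw [← toC_mul, D.hx'x hβ0, toC_one]⟩

theorem hPX {β : Emb E → Qbar} (hβ0 : ∀ σ, β σ ≠ 0) :
    toC (embMat M.b) * (D.X hβ0).1 = diagonal (fun σ => ((β σ : Qbar) : ℂ)) * toC D.q := by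
  change toC (embMat M.b) * toC (D.x β) = _
  rw [← toC_mul, D.hPx, toC_mul, toC_diagonal]

theorem hXmem (hK : K ≤ Qbar) (hkill : D.Kill)
    {β : Emb E → Qbar} (hβ0 : ∀ σ, β σ ≠ 0)
    (hβ : ∀ σ, β σ * β (bar ρ σ) = D.α hK σ) : D.X hβ0 ∈ OmegaDRB K M.c := by
  have hβ0C : ∀ σ, ((β σ : Qbar) : ℂ) ≠ 0 := fun σ h0 => hβ0 σ (Subtype.ext h0)
  refine torus_mem M.b hK D.h1 D.h2 D.hq D.hq' D.hs D.hc (t := fun σ => ((β σ : Qbar) : ℂ) / D.s σ)
    (fun σ => div_ne_zero (hβ0C σ) (D.hs σ)) ?_ ?_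
  · refine hkill _ (fun σ => div_ne_zero (hβ0C σ) (D.hs σ))
      ⟨((2 * Real.pi * Complex.I : ℂ) ^ M.w)⁻¹, fun σ => ?_⟩
    have h3 : ((β σ : Qbar) : ℂ) * ((β (bar ρ σ) : Qbar) : ℂ) = ((D.α hK σ : Qbar) : ℂ) := by
      rw [← hβ σ]
      rfl
    have h4 := D.hαC0 hK σ
    have h5 := two_pi_I_ne M.w
    rw [div_mul_div_comm, h3, D.hpol hK]
    field_simp
  · have e : (fun σ => ((β σ : Qbar) : ℂ) / D.s σ * D.s σ) = fun σ => ((β σ : Qbar) : ℂ) := by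
      funext σ
      exact div_mul_cancel₀ _ (D.hs σ)
    rw [e]
    exact D.hPX hβ0

theorem hPA (a : E) : (Algebra.leftMulMatrix M.b a).map (algebraMap ℚ Qbar) * D.P' =
    D.P' * diagonal (fun σ : Emb E => σ a) := by
  calc (Algebra.leftMulMatrix M.b a).map (algebraMap ℚ Qbar) * D.P'
      = (D.P' * embMat M.b) * ((Algebra.leftMulMatrix M.b a).map (algebraMap ℚ Qbar)) * D.P' := by
        rw [D.h2, Matrix.one_mul]
    _ = D.P' * (embMat M.b * (Algebra.leftMulMatrix M.b a).map (algebraMap ℚ Qbar)) * D.P' := by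
        simp only [Matrix.mul_assoc]
    _ = D.P' * (diagonal (fun σ : Emb E => σ a) * (embMat M.b * D.P')) := by
        rw [embMat_mul]
        simp only [Matrix.mul_assoc]
    _ = D.P' * diagonal (fun σ : Emb E => σ a) := by rw [D.h1, Matrix.mul_one]

theorem hxA (β : Emb E → Qbar) (a : E) : D.x β * M.AdR a =
    (Algebra.leftMulMatrix M.b a).map (algebraMap ℚ Qbar) * D.x β := by
  have e2 : diagonal β * diagonal (fun σ : Emb E => σ a) =
      diagonal (fun σ : Emb E => σ a) * diagonal β := by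
    rw [diagonal_mul_diagonal, diagonal_mul_diagonal]
    congr 1
    funext σ
    exact mul_comm _ _
  calc D.x β * M.AdR a = D.P' * diagonal β * (D.q * M.AdR a) := by
        simp only [x, Matrix.mul_assoc]
    _ = D.P' * (diagonal β * diagonal (fun σ : Emb E => σ a)) * D.q := by
        rw [D.hqA]
        simp only [Matrix.mul_assoc]
    _ = (D.P' * diagonal (fun σ : Emb E => σ a)) * diagonal β * D.q := by
        rw [e2]
        simp only [Matrix.mul_assoc]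
    _ = (Algebra.leftMulMatrix M.b a).map (algebraMap ℚ Qbar) * D.x β := by
        rw [← D.hPA]
        simp only [x, Matrix.mul_assoc]

theorem hXform (hK : K ≤ Qbar) {β : Emb E → Qbar} (hβ0 : ∀ σ, β σ ≠ 0)
    (hβ : ∀ σ, β σ * β (bar ρ σ) = D.α hK σ) :
    (D.X hβ0).1ᵀ * M.ψB.map (algebraMap ℚ ℂ) * (D.X hβ0).1 = M.ψdR.map (algebraMap K ℂ) := by
  have h := (D.hsim hK (D.X hβ0).1 _ 1 (D.hPX hβ0)).2 (by
    intro σ
    rw [one_mul, ← hβ σ]
    rfl)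
  rwa [one_smul] at h

/-- the Galois conjugate of the algebraic point -/
noncomputable def Y {β : Emb E → Qbar} (hβ0 : ∀ σ, β σ ≠ 0) (γ : Qbar ≃ₐ[ℚ] Qbar) : GL ι ℂ :=
  ⟨toC ((D.x β).map γ), toC ((D.x' β).map γ),
    by rw [← toC_mul, ← map_gal_mul, D.hxx' hβ0, map_gal_one, toC_one],
    by rw [← toC_mul, ← map_gal_mul, D.hx'x hβ0, map_gal_one, toC_one]⟩

theorem hYmem (hK : K ≤ Qbar) (hkill : D.Kill)
    {β : Emb E → Qbar} (hβ0 : ∀ σ, β σ ≠ 0)
    (hβ : ∀ σ, β σ * β (bar ρ σ) = D.α hK σ) (γ : Qbar ≃ₐ[ℚ] Qbar)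
    (hγ : ∀ z : Qbar, (z : ℂ) ∈ K → γ z = z) : D.Y hβ0 γ ∈ OmegaDRB K M.c :=
  galois_point hK (D.hxx' hβ0) (D.hx'x hβ0) (f := D.X hβ0) rfl
    (D.hXmem hK hkill hβ0 hβ) γ hγ rfl

theorem hYA {β : Emb E → Qbar} (hβ0 : ∀ σ, β σ ≠ 0) (γ : Qbar ≃ₐ[ℚ] Qbar) (a : E) :
    (D.Y hβ0 γ).1 * toC ((M.AdR a).map γ) =
      (Algebra.leftMulMatrix M.b a).map (algebraMap ℚ ℂ) * (D.Y hβ0 γ).1 := by
  have h3 := congrArg (fun N : Matrix ι ι Qbar => toC (N.map γ)) (D.hxA β a)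
  rw [map_gal_mul, map_gal_mul, map_gal_rat, toC_mul, toC_mul, toC_rat] at h3
  exact h3

theorem hYform (hK : K ≤ Qbar) {β : Emb E → Qbar} (hβ0 : ∀ σ, β σ ≠ 0)
    (hβ : ∀ σ, β σ * β (bar ρ σ) = D.α hK σ) (γ : Qbar ≃ₐ[ℚ] Qbar)
    (hγ : ∀ z : Qbar, (z : ℂ) ∈ K → γ z = z) :
    (D.Y hβ0 γ).1ᵀ * M.ψB.map (algebraMap ℚ ℂ) * (D.Y hβ0 γ).1 =
      M.ψdR.map (algebraMap K ℂ) := by
  have hx : (D.x β)ᵀ * M.ψB.map (algebraMap ℚ Qbar) * D.x β = ψ' M hK := by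
    apply toC_injective
    rw [toC_mul, toC_mul, toC_rat, hψ']
    exact D.hXform hK hβ0 hβ
  have h3 := congrArg (fun N : Matrix ι ι Qbar => toC (N.map γ)) hx
  rw [map_gal_mul, map_gal_mul, map_gal_rat, toC_mul, toC_mul, toC_rat] at h3
  have e2 : toC ((ψ' M hK).map γ) = M.ψdR.map (algebraMap K ℂ) := by
    refine Matrix.ext fun i j => ?_
    have h4 : γ (ψ' M hK i j) = ψ' M hK i j := hγ _ (M.ψdR i j).2
    simp only [map_apply]
    rw [h4]
    rfl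
  rw [e2] at h3
  exact h3

include D in
/-- `E`-linear automorphisms of `M_B ⊗ ℂ` are diagonal in the eigenbasis -/
theorem diag_of_comm (θ : Matrix ι ι ℂ)
    (hθ : ∀ a, θ * (Algebra.leftMulMatrix M.b a).map (algebraMap ℚ ℂ) =
      (Algebra.leftMulMatrix M.b a).map (algebraMap ℚ ℂ) * θ) :
    ∃ t : Emb E → ℂ, toC (embMat M.b) * θ = diagonal t * toC (embMat M.b) := by
  set N := toC (embMat M.b) * θ * toC D.P' with hN
  have hcomm : ∀ a, N * diagonal (fun σ : Emb E => ((σ a : Qbar) : ℂ)) =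
      diagonal (fun σ : Emb E => ((σ a : Qbar) : ℂ)) * N := by
    intro a
    have e1 : toC D.P' * diagonal (fun σ : Emb E => ((σ a : Qbar) : ℂ)) =
        (Algebra.leftMulMatrix M.b a).map (algebraMap ℚ ℂ) * toC D.P' := by
      have := congrArg toC (D.hPA a)
      rw [toC_mul, toC_mul, toC_rat, toC_diagonal] at this
      exact this.symm
    calc N * diagonal (fun σ : Emb E => ((σ a : Qbar) : ℂ))
        = toC (embMat M.b) * θ *
            (toC D.P' * diagonal (fun σ : Emb E => ((σ a : Qbar) : ℂ))) := by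
          simp only [hN, Matrix.mul_assoc]
      _ = toC (embMat M.b) * (θ * (Algebra.leftMulMatrix M.b a).map (algebraMap ℚ ℂ)) *
            toC D.P' := by
          rw [e1]
          simp only [Matrix.mul_assoc]
      _ = (toC (embMat M.b) * (Algebra.leftMulMatrix M.b a).map (algebraMap ℚ ℂ)) * θ *
            toC D.P' := by
          rw [hθ]
          simp only [Matrix.mul_assoc]
      _ = _ := by
          rw [embMatC_mul]
          simp only [hN, Matrix.mul_assoc]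
  refine ⟨fun σ => N σ σ, ?_⟩
  have hd : N = diagonal (fun σ => N σ σ) := by
    refine Matrix.ext fun σ τ => ?_
    by_cases hστ : σ = τ
    · subst hστ
      rw [diagonal_apply_eq]
    · rw [diagonal_apply_ne _ hστ]
      by_contra hne0
      apply hστ
      refine AlgHom.ext fun a => ?_
      have h3 := congrFun (congrFun (hcomm a) σ) τ
      rw [mul_diagonal, diagonal_mul, mul_comm] at h3
      exact Subtype.ext (mul_right_cancel₀ hne0 h3).symm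
  rw [← hd, hN, Matrix.mul_assoc, Matrix.mul_assoc, D.h2C, Matrix.mul_one]

include D in
theorem diag_ne_zero (θ : GL ι ℂ) {t : Emb E → ℂ}
    (ht : toC (embMat M.b) * θ.1 = diagonal t * toC (embMat M.b)) (σ : Emb E) : t σ ≠ 0 := by
  intro h0
  have hθθ : θ.1 * θ⁻¹.1 = 1 := θ.mul_inv
  have e1 : diagonal t * (toC (embMat M.b) * θ⁻¹.1 * toC D.P') = 1 := by
    calc diagonal t * (toC (embMat M.b) * θ⁻¹.1 * toC D.P')
        = (diagonal t * toC (embMat M.b)) * θ⁻¹.1 * toC D.P' := by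
          simp only [Matrix.mul_assoc]
      _ = toC (embMat M.b) * (θ.1 * θ⁻¹.1) * toC D.P' := by
          rw [← ht]
          simp only [Matrix.mul_assoc]
      _ = 1 := by rw [hθθ, Matrix.mul_one, D.h1C]
  have e2 := congrFun (congrFun e1 σ) σ
  rw [diagonal_mul, h0, zero_mul, one_apply_eq] at e2
  exact zero_ne_one e2

/-- a similitude `θ` of `M_B ⊗ ℂ` that is diagonal satisfies `t σ * t (bar σ) = μ` -/
theorem diag_sim (hK : K ≤ Qbar) {β : Emb E → Qbar} (hβ0 : ∀ σ, β σ ≠ 0)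
    (hβ : ∀ σ, β σ * β (bar ρ σ) = D.α hK σ) (θ : GL ι ℂ) {t : Emb E → ℂ}
    (ht : toC (embMat M.b) * θ.1 = diagonal t * toC (embMat M.b)) {μ : ℂ}
    (hθ : θ.1ᵀ * M.ψB.map (algebraMap ℚ ℂ) * θ.1 = μ • M.ψB.map (algebraMap ℚ ℂ)) (σ : Emb E) :
    t σ * t (bar ρ σ) = μ := by
  have hθX : toC (embMat M.b) * (θ.1 * (D.X hβ0).1) =
      diagonal (fun σ => t σ * ((β σ : Qbar) : ℂ)) * toC D.q := by
    rw [← Matrix.mul_assoc, ht, Matrix.mul_assoc, D.hPX, ← Matrix.mul_assoc,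
      diagonal_mul_diagonal]
  have hform : (θ.1 * (D.X hβ0).1)ᵀ * M.ψB.map (algebraMap ℚ ℂ) * (θ.1 * (D.X hβ0).1) =
      μ • M.ψdR.map (algebraMap K ℂ) := by
    calc (θ.1 * (D.X hβ0).1)ᵀ * M.ψB.map (algebraMap ℚ ℂ) * (θ.1 * (D.X hβ0).1)
        = (D.X hβ0).1ᵀ * (θ.1ᵀ * M.ψB.map (algebraMap ℚ ℂ) * θ.1) * (D.X hβ0).1 := by
          rw [transpose_mul]
          simp only [Matrix.mul_assoc]
      _ = μ • ((D.X hβ0).1ᵀ * M.ψB.map (algebraMap ℚ ℂ) * (D.X hβ0).1) := by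
          rw [hθ, Matrix.mul_smul, Matrix.smul_mul]
      _ = _ := by rw [D.hXform hK hβ0 hβ]
  have h3 := (D.hsim hK _ _ _ hθX).1 hform σ
  have h4 : ((β σ : Qbar) : ℂ) * ((β (bar ρ σ) : Qbar) : ℂ) = ((D.α hK σ : Qbar) : ℂ) := by
    rw [← hβ σ]
    rfl
  have h6 : t σ * t (bar ρ σ) * ((D.α hK σ : Qbar) : ℂ) = μ * ((D.α hK σ : Qbar) : ℂ) := by
    rw [← h3, ← h4]
    ring
  exact mul_right_cancel₀ (D.hαC0 hK σ) h6

include D in
/-- similitudes commuting with `E` stabilise every sub-object -/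
theorem stab (hK : K ≤ Qbar) (hkill : D.Kill)
    (θ : GL ι ℂ) {t : Emb E → ℂ}
    (ht : toC (embMat M.b) * θ.1 = diagonal t * toC (embMat M.b)) {μ : ℂ}
    (hμ : ∀ σ, t σ * t (bar ρ σ) = μ) {r : ℕ} {sh : Fin r → ℕ × ℕ}
    {WdR : Submodule K (SIdx ι sh → K)} {WB : Submodule ℚ (SIdx ι sh → ℚ)}
    (hsub : IsSub K M.c sh WdR WB) : (spanC WB).map (act sh θ.1 θ⁻¹.1) = spanC WB := by
  have ht0 : ∀ σ, t σ ≠ 0 := fun σ => D.diag_ne_zero θ ht σ
  have hθc : θ * M.c ∈ OmegaDRB K M.c := by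
    refine torus_mem M.b hK D.h1 D.h2 D.hq D.hq' D.hs D.hc (t := t) ht0
      (hkill t ht0 ⟨μ, hμ⟩) ?_
    change toC (embMat M.b) * (θ.1 * M.c.1) = _
    rw [← Matrix.mul_assoc, ht, Matrix.mul_assoc, D.hc, ← Matrix.mul_assoc,
      diagonal_mul_diagonal]
  have e1 := hθc r sh WdR WB hsub
  have hsub' : (spanC WdR).map (act sh M.c.1 M.c⁻¹.1) = spanC WB := hsub
  have e2 : (spanC WdR).map (act sh (θ * M.c).1 (θ * M.c)⁻¹.1) =
      ((spanC WdR).map (act sh M.c.1 M.c⁻¹.1)).map (act sh θ.1 θ⁻¹.1) := by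
    rw [← Submodule.map_comp]
    congr 1
    refine LinearMap.ext fun v => ?_
    exact act_gl_mul sh θ M.c v
  rw [e1, hsub'] at e2
  exact e2.symm

end PData

namespace CMObj

theorem omegaCM_subset_drb (M : CMObj K ι E ρ) (hK : K ≤ Qbar) (cm : IsCM ρ)
    [Fintype (Emb E)] [DecidableEq (Emb E)] (D : PData M) (hkill : D.Kill) :
    M.OmegaCM ⊆ OmegaDRB K M.c := by
  obtain ⟨β, hβ0, hβ⟩ := D.exists_beta hK cm
  rintro f ⟨γ, hγ, hfA, μ, hfμ⟩
  set Y := D.Y hβ0 γ with hYdef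
  have hYmem : Y ∈ OmegaDRB K M.c := D.hYmem hK hkill hβ0 hβ γ hγ
  have hYA := D.hYA hβ0 γ
  have hYform := D.hYform hK hβ0 hβ γ hγ
  rw [← hYdef] at hYA hYform
  have hYY : Y.1 * Y⁻¹.1 = 1 := Y.mul_inv
  have hYY' : Y⁻¹.1 * Y.1 = 1 := Y.inv_mul
  obtain ⟨θ, hθ⟩ : ∃ θ : GL ι ℂ, θ = f * Y⁻¹ := ⟨_, rfl⟩
  have hθ1 : θ.1 = f.1 * Y⁻¹.1 := by rw [hθ]; rfl
  have hθA : ∀ a, θ.1 * (Algebra.leftMulMatrix M.b a).map (algebraMap ℚ ℂ) =
      (Algebra.leftMulMatrix M.b a).map (algebraMap ℚ ℂ) * θ.1 := by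
    intro a
    have e1 : Y⁻¹.1 * (Algebra.leftMulMatrix M.b a).map (algebraMap ℚ ℂ) =
        toC ((M.AdR a).map γ) * Y⁻¹.1 := by
      calc Y⁻¹.1 * (Algebra.leftMulMatrix M.b a).map (algebraMap ℚ ℂ)
          = Y⁻¹.1 * ((Algebra.leftMulMatrix M.b a).map (algebraMap ℚ ℂ) * Y.1) * Y⁻¹.1 := by
            rw [Matrix.mul_assoc, Matrix.mul_assoc, hYY, Matrix.mul_one]
        _ = (Y⁻¹.1 * Y.1) * toC ((M.AdR a).map γ) * Y⁻¹.1 := by
            rw [← hYA]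
            simp only [Matrix.mul_assoc]
        _ = _ := by rw [hYY', Matrix.one_mul]
    rw [hθ1, Matrix.mul_assoc, e1, ← Matrix.mul_assoc]
    rw [hfA a, Matrix.mul_assoc]
  obtain ⟨t, ht⟩ := D.diag_of_comm θ.1 hθA
  have hθform : θ.1ᵀ * M.ψB.map (algebraMap ℚ ℂ) * θ.1 = μ • M.ψB.map (algebraMap ℚ ℂ) := by
    have e1 : Y⁻¹.1ᵀ * Y.1ᵀ = 1 := by rw [← transpose_mul, hYY, transpose_one]
    calc θ.1ᵀ * M.ψB.map (algebraMap ℚ ℂ) * θ.1
        = Y⁻¹.1ᵀ * (f.1ᵀ * M.ψB.map (algebraMap ℚ ℂ) * f.1) * Y⁻¹.1 := by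
          rw [hθ1, transpose_mul]
          simp only [Matrix.mul_assoc]
      _ = μ • (Y⁻¹.1ᵀ * (Y.1ᵀ * M.ψB.map (algebraMap ℚ ℂ) * Y.1) * Y⁻¹.1) := by
          rw [hfμ, hYform, Matrix.mul_smul, Matrix.smul_mul]
      _ = μ • ((Y⁻¹.1ᵀ * Y.1ᵀ) * M.ψB.map (algebraMap ℚ ℂ) * (Y.1 * Y⁻¹.1)) := by
          simp only [Matrix.mul_assoc]
      _ = _ := by rw [e1, hYY, Matrix.one_mul, Matrix.mul_one]
  have htμ := D.diag_sim hK hβ0 hβ θ ht hθform
  intro r sh WdR WB hsub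
  have e2 := hYmem r sh WdR WB hsub
  have e3 := D.stab hK hkill θ ht htμ hsub
  have hf : f = θ * Y := by
    rw [hθ, inv_mul_cancel_right]
  rw [hf]
  have e4 : (spanC WdR).map (act sh (θ * Y).1 (θ * Y)⁻¹.1) =
      ((spanC WdR).map (act sh Y.1 Y⁻¹.1)).map (act sh θ.1 θ⁻¹.1) := by
    rw [← Submodule.map_comp]
    congr 1
    refine LinearMap.ext fun v => ?_
    exact act_gl_mul sh θ Y v
  rw [e4, e2, e3]

theorem dichotomy (M : CMObj K ι E ρ) (hK : K ≤ Qbar) (cm : IsCM ρ) (hrig : OddRigid ρ) :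
    M.Exceptional ∨ M.OmegaCM ⊆ OmegaDRB K M.c := by
  classical
  by_cases hexc : M.Exceptional
  · exact Or.inl hexc
  refine Or.inr ?_
  have : Module.Finite ℚ E := Module.Finite.of_basis M.b
  let _ : Fintype (Emb E) := minpoly.AlgHom.fintype _ _ _
  obtain ⟨D⟩ := exists_pdata M cm
  exact M.omegaCM_subset_drb hK cm D (D.kill_of_rigid hK cm hrig hexc)

end CMObj

end Pool.Agent.Lib.MPf11a48.CM
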