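import Pool.Agent.Lib.MP_f11a48_ag.helper16.Torus

/-! Points of the CM torus lie in the torsor `Ω^dRB`. -/

namespace Pool.Agent.Lib.MPf11a48.CM

open Matrix Module

variable {E : Type} [CommRing E] [Algebra ℚ E]

theorem spanL_span {k L J : Type} [Field k] [Field L] [Algebra k L] (S : Set (J → k)) :
    spanL L (Submodule.span k S) =
      Submodule.span L {v | ∃ w ∈ S, v = fun j => algebraMap k L (w j)} := by
  apply le_antisymm
  · refine Submodule.span_le.2 ?_
    rintro _ ⟨w, hw, rfl⟩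
    induction hw using Submodule.span_induction with
    | mem x hx => exact Submodule.subset_span ⟨x, hx, rfl⟩
    | zero =>
      have : (fun j : J => algebraMap k L ((0 : J → k) j)) = 0 := by
        funext j
        simp
      rw [this]
      exact Submodule.zero_mem _
    | add x y _ _ hx hy =>
      have : (fun j : J => algebraMap k L ((x + y) j)) =
          (fun j => algebraMap k L (x j)) + fun j => algebraMap k L (y j) := by
        funext j
        simp
      rw [this]
      exact Submodule.add_mem _ hx hy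
    | smul c x _ hx =>
      have : (fun j : J => algebraMap k L ((c • x) j)) =
          algebraMap k L c • fun j => algebraMap k L (x j) := by
        funext j
        simp
      rw [this]
      exact Submodule.smul_mem _ _ hx
  · refine Submodule.span_le.2 ?_
    rintro _ ⟨w, hw, rfl⟩
    exact mem_spanL (Submodule.subset_span hw)

variable {ι : Type} [Fintype ι] [DecidableEq ι] (b : Basis ι ℚ E)

/-- extension of scalars of a matrix -/
noncomputable abbrev toC {μ ν : Type} (M : Matrix μ ν Qbar) : Matrix μ ν ℂ :=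
  M.map (algebraMap Qbar ℂ)

theorem toC_mul {μ ν ξ : Type} [Fintype ν] (M : Matrix μ ν Qbar) (N : Matrix ν ξ Qbar) :
    toC (M * N) = toC M * toC N := Matrix.map_mul

theorem toC_one {μ : Type} [DecidableEq μ] : toC (1 : Matrix μ μ Qbar) = 1 :=
  Matrix.map_one _ (map_zero _) (map_one _)

theorem torus_mem [Fintype (Emb E)] [DecidableEq (Emb E)] {K : IntermediateField ℚ ℂ}
    (hK : K ≤ Qbar) {P' : Matrix ι (Emb E) Qbar}
    (h1 : embMat b * P' = 1) (h2 : P' * embMat b = 1)
    {q : Matrix (Emb E) ι Qbar} {q' : Matrix ι (Emb E) Qbar} (hq : q * q' = 1) (hq' : q' * q = 1)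
    {s : Emb E → ℂ} (hs : ∀ σ, s σ ≠ 0) {c : GL ι ℂ}
    (hc : toC (embMat b) * c.1 = diagonal s * toC q)
    {t : Emb E → ℂ} (ht : ∀ σ, t σ ≠ 0)
    (hcore : ∀ χ : Emb E → ℤ, (∀ γ : Qbar ≃ₐ[ℚ] Qbar, (∏ σ, s (gal γ σ) ^ χ σ) ∈ Qbar) →
      ∏ σ, t σ ^ χ σ = 1) {f : GL ι ℂ}
    (hf : toC (embMat b) * f.1 = diagonal (fun σ => t σ * s σ) * toC q) :
    f ∈ OmegaDRB K c := by
  intro r sh WdR WB hsub
  unfold IsSub at hsub
  -- complex versions of the base change matrices
  have h1C : toC (embMat b) * toC P' = 1 := by rw [← toC_mul, h1, toC_one]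
  have h2C : toC P' * toC (embMat b) = 1 := by rw [← toC_mul, h2, toC_one]
  have hqC : toC q * toC q' = 1 := by rw [← toC_mul, hq, toC_one]
  have hqC' : toC q' * toC q = 1 := by rw [← toC_mul, hq', toC_one]
  have hdiag : ∀ d : Emb E → ℂ, (∀ σ, d σ ≠ 0) →
      diagonal d * diagonal (fun σ => (d σ)⁻¹) = 1 := by
    intro d hd
    rw [diagonal_mul_diagonal]
    simp [mul_inv_cancel₀ (hd _)]
  have hdiag' : ∀ d : Emb E → ℂ, (∀ σ, d σ ≠ 0) →
      diagonal (fun σ => (d σ)⁻¹) * diagonal d = 1 := by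
    intro d hd
    rw [diagonal_mul_diagonal]
    simp [inv_mul_cancel₀ (hd _)]
  -- inverse relation
  have hinv : ∀ (g : GL ι ℂ) (d : Emb E → ℂ), (∀ σ, d σ ≠ 0) →
      toC (embMat b) * g.1 = diagonal d * toC q →
      g⁻¹.1 * toC P' = toC q' * diagonal (fun σ => (d σ)⁻¹) := by
    intro g d hd hg
    have e1 : g⁻¹.1 * g.1 = 1 := g.inv_mul
    have e2 : g.1 = toC P' * (diagonal d * toC q) := by
      rw [← hg, ← Matrix.mul_assoc, h2C, Matrix.one_mul]
    have e3 : g.1 * (toC q' * diagonal (fun σ => (d σ)⁻¹)) = toC P' := by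
      rw [e2]
      calc toC P' * (diagonal d * toC q) * (toC q' * diagonal fun σ => (d σ)⁻¹)
          = toC P' * (diagonal d * (toC q * toC q') * diagonal fun σ => (d σ)⁻¹) := by
            simp only [Matrix.mul_assoc]
        _ = toC P' := by rw [hqC, Matrix.mul_one, hdiag d hd, Matrix.mul_one]
    calc g⁻¹.1 * toC P' = g⁻¹.1 * (g.1 * (toC q' * diagonal (fun σ => (d σ)⁻¹))) := by rw [e3]
      _ = toC q' * diagonal (fun σ => (d σ)⁻¹) := by
        rw [← Matrix.mul_assoc, e1, Matrix.one_mul]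
  -- conjugated action
  have hconj : ∀ (g : GL ι ℂ) (d : Emb E → ℂ), (∀ σ, d σ ≠ 0) →
      toC (embMat b) * g.1 = diagonal d * toC q → ∀ v : SIdx ι sh → ℂ,
      act sh (toC (embMat b)) (toC P') (act sh g.1 g⁻¹.1 v) =
        fun j => wt d (fun σ => (d σ)⁻¹) j * act sh (toC q) (toC q') v j := by
    intro g d hd hg v
    rw [← act_mul, hg, hinv g d hd hg, act_mul]
    funext j
    rw [act_diagonal]
  -- the `Qbar`-forms
  let W : Submodule Qbar (SIdx (Emb E) sh → Qbar) := Submodule.span Qbar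
    {w | ∃ u ∈ WB, w = act sh (embMat b) P' (fun j => algebraMap ℚ Qbar (u j))}
  let N : Submodule Qbar (SIdx (Emb E) sh → Qbar) := Submodule.span Qbar
    {w | ∃ v ∈ WdR, w = act sh q q' (fun j => (⟨(v j : ℂ), hK (v j).2⟩ : Qbar))}
  have hWC : spanL ℂ W = (spanC WB).map (act sh (toC (embMat b)) (toC P')) := by
    rw [spanL_span, spanC, Submodule.map_span]
    congr 1
    ext v
    constructor
    · rintro ⟨w, ⟨u, hu, rfl⟩, rfl⟩
      refine ⟨fun j => algebraMap ℚ ℂ (u j), ⟨u, hu, rfl⟩, ?_⟩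
      funext j
      rw [act_map]
      rfl
    · rintro ⟨_, ⟨u, hu, rfl⟩, rfl⟩
      refine ⟨_, ⟨u, hu, rfl⟩, ?_⟩
      funext j
      rw [act_map]
      rfl
  have hNC : spanL ℂ N = (spanC WdR).map (act sh (toC q) (toC q')) := by
    rw [spanL_span, spanC, Submodule.map_span]
    congr 1
    ext v
    constructor
    · rintro ⟨w, ⟨u, hu, rfl⟩, rfl⟩
      refine ⟨fun j => algebraMap K ℂ (u j), ⟨u, hu, rfl⟩, ?_⟩
      funext j
      rw [act_map]
      rfl
    · rintro ⟨_, ⟨u, hu, rfl⟩, rfl⟩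
      refine ⟨_, ⟨u, hu, rfl⟩, ?_⟩
      funext j
      rw [act_map]
      rfl
  have hPinj : Function.Injective (act sh (toC (embMat b)) (toC P')) := by
    intro u v huv
    have := congrArg (act sh (toC P') (toC (embMat b))) huv
    rw [← act_mul, ← act_mul, h2C, act_one, act_one] at this
    exact this
  have hqinj : Function.Injective (act sh (toC q) (toC q')) := by
    intro u v huv
    have := congrArg (act sh (toC q') (toC q)) huv
    rw [← act_mul, ← act_mul, hqC', act_one, act_one] at this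
    exact this
  -- `W` is stable under the twisted Galois action
  have hW : ∀ γ : Qbar ≃ₐ[ℚ] Qbar, ∀ w ∈ W, tw γ w ∈ W := by
    intro γ w hw
    induction hw using Submodule.span_induction with
    | mem x hx =>
      obtain ⟨u, hu, rfl⟩ := hx
      have : tw γ (act sh (embMat b) P' (fun j => algebraMap ℚ Qbar (u j))) =
          act sh (embMat b) P' (fun j => algebraMap ℚ Qbar (u j)) := by
        funext j
        obtain ⟨x, rfl⟩ := (galIdx γ).surjective j
        rw [tw_galIdx, act_emb_gal b h1 h2]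
      rw [this]
      exact Submodule.subset_span ⟨u, hu, rfl⟩
    | zero =>
      have : tw γ (0 : SIdx (Emb E) sh → Qbar) = 0 := by
        funext j
        simp [tw]
      rw [this]
      exact Submodule.zero_mem _
    | add x y _ _ hx hy =>
      have : tw γ (x + y) = tw γ x + tw γ y := by
        funext j
        simp [tw]
      rw [this]
      exact Submodule.add_mem _ hx hy
    | smul c x _ hx =>
      have : tw γ (c • x) = γ c • tw γ x := by
        funext j
        simp [tw]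
      rw [this]
      exact Submodule.smul_mem _ _ hx
  -- relation between `N` and `W`
  have hrel : ∀ v : SIdx (Emb E) sh → ℂ, v ∈ spanL ℂ N ↔
      (fun j => wt s (fun σ => (s σ)⁻¹) j * v j) ∈ spanL ℂ W := by
    intro v
    rw [hNC, hWC, ← hsub]
    constructor
    · rintro ⟨u, hu, rfl⟩
      refine ⟨act sh c.1 c⁻¹.1 u, ⟨u, hu, rfl⟩, ?_⟩
      exact hconj c s hs hc u
    · rintro ⟨_, ⟨u, hu, rfl⟩, he⟩
      rw [hconj c s hs hc u] at he
      refine ⟨u, hu, ?_⟩
      funext j
      exact mul_left_cancel₀ (wt_ne_zero s hs j) (congrFun he j)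
  have ht' : ∀ σ, (t σ)⁻¹ ≠ 0 := fun σ => inv_ne_zero (ht σ)
  have hst : ∀ v ∈ spanL ℂ W, (fun j => wt t (fun σ => (t σ)⁻¹) j * v j) ∈ spanL ℂ W :=
    fun v hv => spanW_stable hW hs hrel ht hcore hv
  have hst' : ∀ v ∈ spanL ℂ W, (fun j => wt (fun σ => (t σ)⁻¹) (fun σ => ((t σ)⁻¹)⁻¹) j * v j) ∈
      spanL ℂ W := by
    intro v hv
    refine spanW_stable (t := fun σ => (t σ)⁻¹) hW hs hrel ht' ?_ hv
    intro χ hχ
    have := hcore χ hχ
    simp only [_root_.inv_zpow, Finset.prod_inv_distrib, this, inv_one]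
  -- conclusion
  have hts : ∀ σ, t σ * s σ ≠ 0 := fun σ => mul_ne_zero (ht σ) (hs σ)
  have hwtmul : ∀ j : SIdx (Emb E) sh, wt (fun σ => t σ * s σ) (fun σ => (t σ * s σ)⁻¹) j =
      wt t (fun σ => (t σ)⁻¹) j * wt s (fun σ => (s σ)⁻¹) j := by
    intro j
    simp only [wt, mul_inv, Finset.prod_mul_distrib]
    ring
  have hwtinv : ∀ j : SIdx (Emb E) sh, wt t (fun σ => (t σ)⁻¹) j *
      wt (fun σ => (t σ)⁻¹) (fun σ => ((t σ)⁻¹)⁻¹) j = 1 := by
    intro j
    simp only [wt, inv_inv]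
    rw [show ((∏ a, t (j.2.1 a)) * ∏ b, (t (j.2.2 b))⁻¹) * ((∏ a, (t (j.2.1 a))⁻¹) *
      ∏ b, t (j.2.2 b)) = (∏ a, t (j.2.1 a) * (t (j.2.1 a))⁻¹) *
        ∏ b, (t (j.2.2 b))⁻¹ * t (j.2.2 b) from by
        simp only [Finset.prod_mul_distrib]
        ring]
    simp [mul_inv_cancel₀ (ht _), inv_mul_cancel₀ (ht _)]
  have hfinal : ((spanC WdR).map (act sh f.1 f⁻¹.1)).map (act sh (toC (embMat b)) (toC P')) =
      (spanC WB).map (act sh (toC (embMat b)) (toC P')) := by
    rw [← hWC]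
    apply le_antisymm
    · rintro _ ⟨_, ⟨u, hu, rfl⟩, rfl⟩
      rw [hconj f _ hts hf u]
      have hu' : act sh (toC q) (toC q') u ∈ spanL ℂ N := by
        rw [hNC]
        exact ⟨u, hu, rfl⟩
      have := hst _ ((hrel _).1 hu')
      convert this using 1
      funext j
      rw [hwtmul, mul_assoc]
    · intro v hv
      have h3 := hst' v hv
      have h4 : (fun j => wt (fun σ => (t σ)⁻¹) (fun σ => ((t σ)⁻¹)⁻¹) j * v j) =
          fun j => wt s (fun σ => (s σ)⁻¹) j * ((wt s (fun σ => (s σ)⁻¹) j)⁻¹ *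
            (wt (fun σ => (t σ)⁻¹) (fun σ => ((t σ)⁻¹)⁻¹) j * v j)) := by
        funext j
        rw [mul_inv_cancel_left₀ (wt_ne_zero s hs j)]
      rw [h4] at h3
      have h5 := (hrel _).2 h3
      rw [hNC] at h5
      obtain ⟨u, hu, hu2⟩ := h5
      refine ⟨act sh f.1 f⁻¹.1 u, ⟨u, hu, rfl⟩, ?_⟩
      rw [hconj f _ hts hf u]
      funext j
      rw [hwtmul, congrFun hu2 j]
      have := hwtinv j
      calc wt t (fun σ => (t σ)⁻¹) j * wt s (fun σ => (s σ)⁻¹) j *
            ((wt s (fun σ => (s σ)⁻¹) j)⁻¹ *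
              (wt (fun σ => (t σ)⁻¹) (fun σ => ((t σ)⁻¹)⁻¹) j * v j))
          = (wt s (fun σ => (s σ)⁻¹) j * (wt s (fun σ => (s σ)⁻¹) j)⁻¹) *
            (wt t (fun σ => (t σ)⁻¹) j *
              wt (fun σ => (t σ)⁻¹) (fun σ => ((t σ)⁻¹)⁻¹) j) * v j := by ring
        _ = v j := by rw [mul_inv_cancel₀ (wt_ne_zero s hs j), this, one_mul, one_mul]
  exact Submodule.map_injective_of_injective hPinj hfinal

end Pool.Agent.Lib.MPf11a48.CM
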