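import Pool.Agent.Lib.MP_f11a48_ag.helper16.Core
import Pool.Agent.Lib.MP_f11a48_ag.helper16.Stable

/-! Polarised de Rham-Betti objects with complex multiplication. -/

namespace Pool.Agent.Lib.MPf11a48.CM

open Matrix Module

variable {K : IntermediateField ℚ ℂ} {ι E : Type} [Fintype ι] [DecidableEq ι]
  [CommRing E] [Algebra ℚ E] {ρ : E ≃ₐ[ℚ] E}

theorem toC_injective {μ ν : Type} {M N : Matrix μ ν Qbar} (h : toC M = toC N) : M = N :=
  Matrix.ext fun i j => (algebraMap Qbar ℂ).injective (congrFun (congrFun h i) j)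

theorem embMatC_mul [Fintype (Emb E)] [DecidableEq (Emb E)] (b : Basis ι ℚ E) (a : E) :
    toC (embMat b) * (Algebra.leftMulMatrix b a).map (algebraMap ℚ ℂ) =
      diagonal (fun σ : Emb E => ((σ a : Qbar) : ℂ)) * toC (embMat b) := by
  have h := congrArg toC (embMat_mul b a)
  rw [toC_mul, toC_mul] at h
  have e1 : toC ((Algebra.leftMulMatrix b a).map (algebraMap ℚ Qbar)) =
      (Algebra.leftMulMatrix b a).map (algebraMap ℚ ℂ) := by
    refine Matrix.ext fun i j => ?_
    simp only [map_apply]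
    exact (IsScalarTower.algebraMap_apply ℚ Qbar ℂ _).symm
  have e2 : toC (diagonal fun σ : Emb E => σ a) =
      diagonal (fun σ : Emb E => ((σ a : Qbar) : ℂ)) := by
    refine Matrix.ext fun i j => ?_
    simp only [map_apply, diagonal_apply]
    split_ifs <;> simp
  rw [e1, e2] at h
  exact h

namespace CMObj

variable (M : CMObj K ι E ρ)

theorem exists_periods [Fintype (Emb E)] [DecidableEq (Emb E)]
    {P' : Matrix ι (Emb E) Qbar} (h1 : embMat M.b * P' = 1) (h2 : P' * embMat M.b = 1) :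
    ∃ (s : Emb E → ℂ) (q : Matrix (Emb E) ι Qbar) (q' : Matrix ι (Emb E) Qbar),
      (∀ σ, s σ ≠ 0) ∧ q * q' = 1 ∧ q' * q = 1 ∧
      toC (embMat M.b) * M.c.1 = diagonal s * toC q ∧
      ∀ a, toC q * toC (M.AdR a) = diagonal (fun σ : Emb E => ((σ a : Qbar) : ℂ)) * toC q := by
  have h1C : toC (embMat M.b) * toC P' = 1 := by rw [← toC_mul, h1, toC_one]
  have h2C : toC P' * toC (embMat M.b) = 1 := by rw [← toC_mul, h2, toC_one]
  set Q : Matrix (Emb E) ι ℂ := toC (embMat M.b) * M.c.1 with hQ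
  set Q' : Matrix ι (Emb E) ℂ := M.c⁻¹.1 * toC P' with hQ'
  have hcc : M.c.1 * M.c⁻¹.1 = 1 := M.c.mul_inv
  have hcc' : M.c⁻¹.1 * M.c.1 = 1 := M.c.inv_mul
  have hQQ' : Q * Q' = 1 := by
    calc Q * Q' = toC (embMat M.b) * (M.c.1 * M.c⁻¹.1) * toC P' := by
          simp only [hQ, hQ', Matrix.mul_assoc]
      _ = 1 := by rw [hcc, Matrix.mul_one, h1C]
  have hQ'Q : Q' * Q = 1 := by
    calc Q' * Q = M.c⁻¹.1 * (toC P' * toC (embMat M.b)) * M.c.1 := by
          simp only [hQ, hQ', Matrix.mul_assoc]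
      _ = 1 := by rw [h2C, Matrix.mul_one, hcc']
  have hQA : ∀ a, Q * toC (M.AdR a) = diagonal (fun σ : Emb E => ((σ a : Qbar) : ℂ)) * Q := by
    intro a
    rw [hQ, Matrix.mul_assoc, M.comm a, ← Matrix.mul_assoc, embMatC_mul, Matrix.mul_assoc]
  have hA : ∀ a i i', ((M.AdR a i i' : Qbar) : ℂ) =
      ∑ τ : Emb E, Q' i τ * ((τ a : Qbar) : ℂ) * Q τ i' := by
    intro a i i'
    have h3 : toC (M.AdR a) = Q' * (diagonal (fun σ : Emb E => ((σ a : Qbar) : ℂ)) * Q) := by
      rw [← hQA a, ← Matrix.mul_assoc, hQ'Q, Matrix.one_mul]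
    have h4 := congrFun (congrFun h3 i) i'
    rw [mul_apply] at h4
    simp only [diagonal_mul] at h4
    have h5 : toC (M.AdR a) i i' = ((M.AdR a i i' : Qbar) : ℂ) := rfl
    rw [← h5, h4]
    exact Finset.sum_congr rfl fun τ _ => by ring
  -- the projectors
  let Pr : Emb E → ι → ι → Qbar := fun σ i i' => ∑ j, P' j σ * M.AdR (M.b j) i i'
  have hPr : ∀ σ i i', ((Pr σ i i' : Qbar) : ℂ) = Q' i σ * Q σ i' := by
    intro σ i i'
    have e1 : ((Pr σ i i' : Qbar) : ℂ) =
        ∑ j, ((P' j σ : Qbar) : ℂ) * ((M.AdR (M.b j) i i' : Qbar) : ℂ) := by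
      change algebraMap Qbar ℂ _ = _
      simp only [map_sum, map_mul]
      rfl
    rw [e1]
    simp only [hA, Finset.mul_sum]
    rw [Finset.sum_comm]
    have e2 : ∀ τ : Emb E, (∑ j, ((P' j σ : Qbar) : ℂ) *
        (Q' i τ * ((τ (M.b j) : Qbar) : ℂ) * Q τ i')) =
        (if τ = σ then 1 else 0) * (Q' i τ * Q τ i') := by
      intro τ
      have e3 := congrFun (congrFun h1C τ) σ
      rw [mul_apply, one_apply] at e3
      rw [← e3, Finset.sum_mul]
      refine Finset.sum_congr rfl fun j _ => ?_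
      simp only [map_apply, embMat]
      change _ = ((τ (M.b j) : Qbar) : ℂ) * ((P' j σ : Qbar) : ℂ) * _
      ring
    simp only [e2]
    simp
  have hex : ∀ σ, ∃ i, Q σ i ≠ 0 ∧ Q' i σ ≠ 0 := by
    intro σ
    by_contra hcon
    push Not at hcon
    have h3 := congrFun (congrFun hQQ' σ) σ
    rw [mul_apply, one_apply_eq] at h3
    rw [Finset.sum_eq_zero] at h3
    · exact zero_ne_one h3
    · intro i _
      by_cases hi : Q σ i = 0
      · rw [hi, zero_mul]
      · rw [hcon i hi, mul_zero]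
  choose i0 hi0 hi0' using hex
  let s : Emb E → ℂ := fun σ => (Q' (i0 σ) σ)⁻¹
  have hs : ∀ σ, s σ ≠ 0 := fun σ => inv_ne_zero (hi0' σ)
  let q : Matrix (Emb E) ι Qbar := fun σ i => Pr σ (i0 σ) i
  let q' : Matrix ι (Emb E) Qbar := fun i σ => Pr σ i (i0 σ) / Pr σ (i0 σ) (i0 σ)
  have hq : ∀ σ i, toC q σ i = (s σ)⁻¹ * Q σ i := by
    intro σ i
    change ((Pr σ (i0 σ) i : Qbar) : ℂ) = _
    rw [hPr]
    simp only [s, inv_inv]
  have hq' : ∀ i σ, toC q' i σ = Q' i σ * s σ := by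
    intro i σ
    change algebraMap Qbar ℂ (Pr σ i (i0 σ) / Pr σ (i0 σ) (i0 σ)) = _
    rw [map_div₀]
    change ((Pr σ i (i0 σ) : Qbar) : ℂ) / ((Pr σ (i0 σ) (i0 σ) : Qbar) : ℂ) = _
    rw [hPr, hPr]
    simp only [s]
    have := hi0 σ
    have := hi0' σ
    field_simp
  have eq1 : diagonal s * toC q = Q := by
    refine Matrix.ext fun σ i => ?_
    rw [diagonal_mul, hq, ← mul_assoc, mul_inv_cancel₀ (hs σ), one_mul]
  have eq2 : toC q = diagonal (fun σ => (s σ)⁻¹) * Q := by
    refine Matrix.ext fun σ i => ?_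
    rw [diagonal_mul, hq]
  have eq3 : toC q' = Q' * diagonal s := by
    refine Matrix.ext fun i σ => ?_
    rw [mul_diagonal, hq']
  refine ⟨s, q, q', hs, ?_, ?_, eq1.symm, ?_⟩
  · apply toC_injective
    rw [toC_mul, toC_one, eq2, eq3]
    calc diagonal (fun σ => (s σ)⁻¹) * Q * (Q' * diagonal s)
        = diagonal (fun σ => (s σ)⁻¹) * (Q * Q') * diagonal s := by
          simp only [Matrix.mul_assoc]
      _ = 1 := by
          rw [hQQ', Matrix.mul_one, diagonal_mul_diagonal]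
          simp [inv_mul_cancel₀ (hs _)]
  · apply toC_injective
    rw [toC_mul, toC_one, eq2, eq3]
    calc Q' * diagonal s * (diagonal (fun σ => (s σ)⁻¹) * Q)
        = Q' * (diagonal s * diagonal (fun σ => (s σ)⁻¹)) * Q := by
          simp only [Matrix.mul_assoc]
      _ = 1 := by
          rw [diagonal_mul_diagonal]
          simp [mul_inv_cancel₀ (hs _), hQ'Q]
  · intro a
    have hcomm : diagonal (fun σ => (s σ)⁻¹) * diagonal (fun σ : Emb E => ((σ a : Qbar) : ℂ)) =
        diagonal (fun σ : Emb E => ((σ a : Qbar) : ℂ)) * diagonal (fun σ => (s σ)⁻¹) := by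
      rw [diagonal_mul_diagonal, diagonal_mul_diagonal]
      congr 1
      funext σ
      exact mul_comm _ _
    calc toC q * toC (M.AdR a)
        = diagonal (fun σ => (s σ)⁻¹) * (Q * toC (M.AdR a)) := by rw [eq2, Matrix.mul_assoc]
      _ = (diagonal (fun σ => (s σ)⁻¹) * diagonal (fun σ : Emb E => ((σ a : Qbar) : ℂ))) * Q := by
          rw [hQA a, Matrix.mul_assoc]
      _ = diagonal (fun σ : Emb E => ((σ a : Qbar) : ℂ)) * toC q := by
          rw [hcomm, Matrix.mul_assoc, eq2]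

/-- the transported Gram matrix -/
theorem phi_facts [Fintype (Emb E)] [DecidableEq (Emb E)]
    {P' : Matrix ι (Emb E) Qbar} (h1 : embMat M.b * P' = 1) (h2 : P' * embMat M.b = 1) :
    ∀ σ τ : Emb E, ((P'ᵀ * M.ψB.map (algebraMap ℚ Qbar) * P') σ τ ≠ 0 ↔ σ = bar ρ τ) := by
  set Φ := P'ᵀ * M.ψB.map (algebraMap ℚ Qbar) * P' with hΦ
  have hsupp : ∀ σ τ, Φ σ τ ≠ 0 → σ = bar ρ τ := by
    intro σ τ hne
    refine AlgHom.ext fun a => ?_
    -- relation `diag (σ a) Φ = Φ diag (τ (ρ a))`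
    have hPA : ∀ a, (Algebra.leftMulMatrix M.b a).map (algebraMap ℚ Qbar) * P' =
        P' * diagonal (fun σ : Emb E => σ a) := by
      intro a
      calc (Algebra.leftMulMatrix M.b a).map (algebraMap ℚ Qbar) * P'
          = (P' * embMat M.b) * ((Algebra.leftMulMatrix M.b a).map (algebraMap ℚ Qbar)) * P' := by
            rw [h2, Matrix.one_mul]
        _ = P' * (embMat M.b * (Algebra.leftMulMatrix M.b a).map (algebraMap ℚ Qbar)) * P' := by
            simp only [Matrix.mul_assoc]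
        _ = P' * (diagonal (fun σ : Emb E => σ a) * (embMat M.b * P')) := by
            rw [embMat_mul]
            simp only [Matrix.mul_assoc]
        _ = P' * diagonal (fun σ : Emb E => σ a) := by rw [h1, Matrix.mul_one]
    have hPA' : P'ᵀ * ((Algebra.leftMulMatrix M.b a).map (algebraMap ℚ Qbar))ᵀ =
        diagonal (fun σ : Emb E => σ a) * P'ᵀ := by
      rw [← transpose_mul, hPA, transpose_mul, diagonal_transpose]
    have hadj : ((Algebra.leftMulMatrix M.b a).map (algebraMap ℚ Qbar))ᵀ *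
        M.ψB.map (algebraMap ℚ Qbar) = M.ψB.map (algebraMap ℚ Qbar) *
          (Algebra.leftMulMatrix M.b (ρ a)).map (algebraMap ℚ Qbar) := by
      have := congrArg (fun N : Matrix ι ι ℚ => N.map (algebraMap ℚ Qbar)) (M.adj a)
      simpa only [Matrix.map_mul, transpose_map] using this
    have hrel : diagonal (fun σ : Emb E => σ a) * Φ = Φ * diagonal (fun τ : Emb E => τ (ρ a)) := by
      calc diagonal (fun σ : Emb E => σ a) * Φ
          = (diagonal (fun σ : Emb E => σ a) * P'ᵀ) * (M.ψB.map (algebraMap ℚ Qbar) * P') := by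
            simp only [hΦ, Matrix.mul_assoc]
        _ = P'ᵀ * (((Algebra.leftMulMatrix M.b a).map (algebraMap ℚ Qbar))ᵀ *
            M.ψB.map (algebraMap ℚ Qbar)) * P' := by
            rw [← hPA']
            simp only [Matrix.mul_assoc]
        _ = P'ᵀ * M.ψB.map (algebraMap ℚ Qbar) *
            ((Algebra.leftMulMatrix M.b (ρ a)).map (algebraMap ℚ Qbar) * P') := by
            rw [hadj]
            simp only [Matrix.mul_assoc]
        _ = Φ * diagonal (fun τ : Emb E => τ (ρ a)) := by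
            rw [hPA]
            simp only [hΦ, Matrix.mul_assoc]
    have h3 := congrFun (congrFun hrel σ) τ
    rw [diagonal_mul, mul_diagonal, mul_comm] at h3
    exact mul_left_cancel₀ hne h3
  refine fun σ τ => ⟨hsupp σ τ, ?_⟩
  rintro rfl
  -- `Φ` is invertible
  intro h0
  have hdet : IsUnit (M.ψB.map (algebraMap ℚ Qbar)).det := by
    have h4 : (M.ψB.map (algebraMap ℚ Qbar)).det = algebraMap ℚ Qbar M.ψB.det :=
      ((algebraMap ℚ Qbar).map_det M.ψB).symm
    rw [h4]
    exact (isUnit_iff_ne_zero.2 M.det_ne).map _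
  have hinv := Matrix.nonsing_inv_mul _ hdet
  have h5 : embMat M.b * (M.ψB.map (algebraMap ℚ Qbar))⁻¹ * (embMat M.b)ᵀ * Φ = 1 := by
    calc embMat M.b * (M.ψB.map (algebraMap ℚ Qbar))⁻¹ * (embMat M.b)ᵀ * Φ
        = embMat M.b * (M.ψB.map (algebraMap ℚ Qbar))⁻¹ * ((embMat M.b)ᵀ * P'ᵀ) *
            (M.ψB.map (algebraMap ℚ Qbar) * P') := by
          simp only [hΦ, Matrix.mul_assoc]
      _ = embMat M.b * ((M.ψB.map (algebraMap ℚ Qbar))⁻¹ * M.ψB.map (algebraMap ℚ Qbar)) * P' := by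
          rw [← transpose_mul, h2, transpose_one, Matrix.mul_one]
          simp only [Matrix.mul_assoc]
      _ = 1 := by rw [hinv, Matrix.mul_one, h1]
  have h6 := congrFun (congrFun h5 τ) τ
  rw [mul_apply, one_apply_eq] at h6
  rw [Finset.sum_eq_zero] at h6
  · exact zero_ne_one h6
  · intro σ _
    by_cases hσ : Φ σ τ = 0
    · rw [hσ, mul_zero]
    · rw [hsupp σ τ hσ] at hσ
      exact absurd h0 hσ

end CMObj

end Pool.Agent.Lib.MPf11a48.CM
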