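import Pool.Agent.Lib.MP_f11a48_ag.helper16.Sep
import Pool.Agent.Lib.MP_f11a48_ag.helper17.Rigid

/-! All CM fields of degree `4` are separating. -/

namespace Pool.Agent.Lib.MPf11a48.CM

open Module

variable {F : Type} [Field F] [NumberField F] {ρ : F ≃ₐ[ℚ] F}

theorem oddVec_bar {E : Type} [CommRing E] [Algebra ℚ E] {ρ : E ≃ₐ[ℚ] E} (cm : IsCM ρ)
    (σ : E →ₐ[ℚ] Qbar) : oddVec ρ (bar ρ σ) = -oddVec ρ σ := by
  classical
  funext τ
  have h5 : (bar ρ σ : E →ₐ[ℚ] Qbar).comp (ρ : E →ₐ[ℚ] E) = σ := bar_bar cm σ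
  have h6 : (if τ = (bar ρ σ : E →ₐ[ℚ] Qbar).comp (ρ : E →ₐ[ℚ] E) then (1 : ℚ) else 0) =
      if τ = σ then 1 else 0 := if_congr (by rw [h5]) rfl rfl
  rw [Pi.neg_apply, oddVec, oddVec, h6]
  have h7 : (if τ = bar ρ σ then (1 : ℚ) else 0) =
      if τ = σ.comp (ρ : E →ₐ[ℚ] E) then 1 else 0 := if_congr Iff.rfl rfl rfl
  rw [h7]
  ring

/-- **CM fields of degree `4`.** -/
theorem separating_quartic (cm : IsCM ρ) (h4 : finrank ℚ F = 4) : OddSeparating ρ := by
  classical
  have := Fintype.ofFinite (F →ₐ[ℚ] Qbar)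
  intro U hodd hstab hne
  have hfin : ∀ σ : F →ₐ[ℚ] Qbar, oddVec ρ σ ∈ U → ∃ σ τ : F →ₐ[ℚ] Qbar, σ ≠ τ ∧
      oddVec ρ σ - oddVec ρ τ ∈ U := by
    intro σ hσ
    refine ⟨σ, bar ρ σ, (cm.ne σ).symm, ?_⟩
    rw [oddVec_bar cm, sub_neg_eq_add]
    exact U.add_mem hσ hσ
  obtain ⟨u, hu, hu0⟩ := Submodule.exists_mem_ne_zero_of_ne_bot hne
  obtain ⟨σ, hσ⟩ : ∃ σ, u σ ≠ 0 := by
    by_contra h
    push Not at h
    exact hu0 (funext h)
  have hcard : Fintype.card (F →ₐ[ℚ] Qbar) = 4 := by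
    rw [← Nat.card_eq_fintype_card, cm.card, h4]
  obtain ⟨τ, hτ⟩ : ∃ τ : F →ₐ[ℚ] Qbar, τ ∉ ({σ, bar ρ σ} : Finset (F →ₐ[ℚ] Qbar)) := by
    by_contra h
    push Not at h
    have h1 : Fintype.card (F →ₐ[ℚ] Qbar) ≤ 2 := by
      rw [← Finset.card_univ]
      refine (Finset.card_le_card fun x _ => h x).trans ?_
      exact Finset.card_le_two
    omega
  simp only [Finset.mem_insert, Finset.mem_singleton, not_or] at hτ
  obtain ⟨h1, h2⟩ := hτ
  have haux : ∀ x : F →ₐ[ℚ] Qbar, x ≠ σ → x ≠ bar ρ σ → x = τ ∨ x = bar ρ τ :=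
    fun x h3 h5 => quartic_aux cm h4 h1 h2 h3 h5
  obtain ⟨γ, hγ⟩ := exists_gal σ τ
  have huo : ∀ v ∈ U, ∀ x, v (bar ρ x) = -v x := fun v hv x => hodd v hv x
  have hγb : gal γ (bar ρ σ) = bar ρ τ := by rw [← bar_gal, hγ]
  -- the value at `γ τ`
  have hε : gal γ τ = σ ∨ gal γ τ = bar ρ σ := by
    by_contra hcon
    push Not at hcon
    rcases haux _ hcon.1 hcon.2 with h3 | h3
    · exact h1 ((gal γ).injective (h3.trans hγ.symm))
    · exact h2 ((gal γ).injective (h3.trans hγb.symm))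
  have hu' : (fun x => u (gal γ x)) ∈ U := hstab γ u hu
  have hw : (u σ) • (fun x => u (gal γ x)) - (u τ) • u ∈ U :=
    U.sub_mem (U.smul_mem _ hu') (U.smul_mem _ hu)
  set w : (F →ₐ[ℚ] Qbar) → ℚ := (u σ) • (fun x => u (gal γ x)) - (u τ) • u with hwdef
  have hwσ : w σ = 0 := by
    simp only [hwdef, Pi.sub_apply, Pi.smul_apply, smul_eq_mul, hγ]
    ring
  by_cases hwτ : w τ = 0
  · -- `u σ = ± u τ`
    have h3 : u σ * u (gal γ τ) = u τ * u τ := by
      simp only [hwdef, Pi.sub_apply, Pi.smul_apply, smul_eq_mul] at hwτ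
      linarith
    have h5 : u τ = u σ ∨ u τ = -u σ := by
      rcases hε with h6 | h6
      · rw [h6] at h3
        rcases mul_self_eq_mul_self_iff.1 h3 with h7 | h7
        · exact Or.inl h7.symm
        · exact Or.inr (by rw [h7, neg_neg])
      · rw [h6, huo u hu] at h3
        exfalso
        have h7 : 0 < u σ * u σ := mul_self_pos.2 hσ
        have h8 := mul_self_nonneg (u τ)
        nlinarith
    have hval : ∀ x, u x = if x = σ then u σ else if x = bar ρ σ then -u σ else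
        if x = τ then u τ else -u τ := by
      intro x
      by_cases a1 : x = σ
      · rw [if_pos a1, a1]
      · rw [if_neg a1]
        by_cases a2 : x = bar ρ σ
        · rw [if_pos a2, a2, huo u hu]
        · rw [if_neg a2]
          by_cases a3 : x = τ
          · rw [if_pos a3, a3]
          · rw [if_neg a3]
            rcases haux x a1 a2 with a4 | a4
            · exact absurd a4 a3
            · rw [a4, huo u hu]
    have hbb : bar ρ σ ≠ σ := cm.ne σ
    have hbt : bar ρ τ ≠ τ := cm.ne τ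
    have hts : bar ρ τ ≠ σ := fun h => h2 (by rw [← h, bar_bar cm])
    have htsb : bar ρ τ ≠ bar ρ σ := fun h => h1 ((bar ρ).injective h)
    have hform : ∀ e : ℚ, u τ = e * u σ →
        u = (u σ) • (oddVec ρ σ + e • oddVec ρ τ) := by
      intro e he
      funext x
      have c1 : σ.comp (ρ : F →ₐ[ℚ] F) = bar ρ σ := rfl
      have c2 : τ.comp (ρ : F →ₐ[ℚ] F) = bar ρ τ := rfl
      rw [hval x]
      simp only [Pi.smul_apply, Pi.add_apply, smul_eq_mul, oddVec, c1, c2]
      by_cases a1 : x = σ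
      · subst a1
        rw [if_pos rfl, if_pos rfl, if_neg (Ne.symm hbb), if_neg (Ne.symm h1),
          if_neg (Ne.symm hts)]
        ring
      · rw [if_neg a1, if_neg a1]
        by_cases a2 : x = bar ρ σ
        · rw [if_pos a2, if_pos a2, a2, if_neg (Ne.symm h2), if_neg (Ne.symm htsb)]
          ring
        · rw [if_neg a2, if_neg a2]
          by_cases a3 : x = τ
          · rw [if_pos a3, if_pos a3, a3, if_neg (Ne.symm hbt), he]
            ring
          · rcases haux x a1 a2 with a4 | a4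
            · exact absurd a4 a3
            · rw [if_neg a3, if_neg a3, if_pos a4, he]
              ring
    have hmem : ∀ e : ℚ, u τ = e * u σ → oddVec ρ σ + e • oddVec ρ τ ∈ U := by
      intro e he
      have h6 := U.smul_mem (u σ)⁻¹ hu
      have h7 := congrArg (fun v => (u σ)⁻¹ • v) (hform e he)
      simp only [inv_smul_smul₀ hσ] at h7
      rwa [h7] at h6
    rcases h5 with h5 | h5
    · refine ⟨σ, bar ρ τ, Ne.symm hts, ?_⟩
      have h6 := hmem 1 (by rw [h5, one_mul])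
      rwa [oddVec_bar cm, sub_neg_eq_add, ← one_smul ℚ (oddVec ρ τ)]
    · refine ⟨σ, τ, Ne.symm h1, ?_⟩
      have h6 := hmem (-1) (by rw [h5]; ring)
      rwa [neg_one_smul, ← sub_eq_add_neg] at h6
  · refine hfin τ (oddVec_mem_of_support cm hw (hodd w hw) hwτ fun x hx1 hx2 => ?_)
    by_cases a1 : x = σ
    · rw [a1, hwσ]
    · by_cases a2 : x = bar ρ σ
      · rw [a2, huo w hw, hwσ, neg_zero]
      · rcases haux x a1 a2 with a4 | a4
        · exact absurd a4 hx1
        · exact absurd a4 hx2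

end Pool.Agent.Lib.MPf11a48.CM
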