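import Pool.Agent.Lib.MP_f11a48_ag.helper16.Closed
import Mathlib.FieldTheory.Galois.Infinite

/-! The dichotomy in terms of endomorphisms. -/

namespace Pool.Agent.Lib.MPf11a48.CM

open Matrix Module

variable {K : IntermediateField ℚ ℂ} {ι E : Type} [Fintype ι] [DecidableEq ι]
  [CommRing E] [Algebra ℚ E] {ρ : E ≃ₐ[ℚ] E}

/-- Every nonzero Galois-stable space of odd functions on the embeddings contains
`(δ_σ - δ_{σ ∘ ρ}) - (δ_τ - δ_{τ ∘ ρ})` for some `σ ≠ τ`. -/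
def OddSeparating (ρ : E ≃ₐ[ℚ] E) : Prop :=
  ∀ U : Submodule ℚ ((E →ₐ[ℚ] Qbar) → ℚ), (∀ u ∈ U, IsOdd ρ u) →
    (∀ γ : Qbar ≃ₐ[ℚ] Qbar, ∀ u ∈ U, (fun σ => u ((γ : Qbar →ₐ[ℚ] Qbar).comp σ)) ∈ U) →
    U ≠ ⊥ → ∃ σ τ : E →ₐ[ℚ] Qbar, σ ≠ τ ∧ oddVec ρ σ - oddVec ρ τ ∈ U

theorem OddRigid.separating (cm : IsCM ρ) (h : OddRigid ρ) : OddSeparating ρ := by
  classical
  intro U h1 h2 h3
  obtain ⟨σ, hσ⟩ := h U h1 h2 h3
  refine ⟨σ, σ.comp (ρ : E →ₐ[ℚ] E), (cm.ne σ).symm, ?_⟩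
  have h4 : oddVec ρ (σ.comp (ρ : E →ₐ[ℚ] E)) = -oddVec ρ σ := by
    funext τ
    have h5 : (σ.comp (ρ : E →ₐ[ℚ] E)).comp (ρ : E →ₐ[ℚ] E) = σ := bar_bar cm σ
    have h6 : (if τ = (σ.comp (ρ : E →ₐ[ℚ] E)).comp (ρ : E →ₐ[ℚ] E) then (1 : ℚ) else 0) =
        if τ = σ then 1 else 0 := if_congr (by rw [h5]) rfl rfl
    rw [Pi.neg_apply, oddVec, oddVec, h6]
    ring
  rw [h4, sub_neg_eq_add]
  exact U.add_mem hσ hσ

section Core

variable [Fintype (Emb E)] {s : Emb E → ℂ}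

theorem core_deg (cm : IsCM ρ) (hs : ∀ σ, s σ ≠ 0) {w : ℤ} (hw : w ≠ 0)
    {α : Emb E → Qbar} (hα : ∀ σ, α σ ≠ 0)
    (hpol : ∀ σ, s σ * s (bar ρ σ) = (2 * Real.pi * Complex.I : ℂ) ^ w * (α σ : ℂ))
    {χ : Emb E → ℤ} (hχ : InCore s χ) : ∑ σ, χ σ = 0 := by
  have hχ' : InCore s (fun σ => χ (bar ρ σ)) := by
    have := hχ.gal ccQ
    simpa only [bar_eq_gal cm] using this
  have h1 := InCore.add hs hχ hχ' 1
  have e1 : ∀ τ : Emb E, gal (1 : Qbar ≃ₐ[ℚ] Qbar) τ = τ := fun τ =>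
    AlgHom.ext fun x => rfl
  have h2 : (∏ σ, s (gal (1 : Qbar ≃ₐ[ℚ] Qbar) σ) ^ (χ σ + χ (bar ρ σ))) =
      ((2 * Real.pi * Complex.I : ℂ) ^ (w * ∑ σ, χ σ)) * ∏ σ, (α σ : ℂ) ^ χ σ := by
    simp only [e1, zpow_add₀ (hs _), Finset.prod_mul_distrib]
    have e2 : (∏ σ, s σ ^ χ (bar ρ σ)) = ∏ σ, s (bar ρ σ) ^ χ σ := by
      refine Fintype.prod_equiv (bar ρ) _ _ fun σ => ?_
      rw [bar_bar cm]
    rw [e2, ← Finset.prod_mul_distrib]
    have e3 : ∀ σ, s σ ^ χ σ * s (bar ρ σ) ^ χ σ =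
        ((2 * Real.pi * Complex.I : ℂ) ^ w) ^ χ σ * (α σ : ℂ) ^ χ σ := by
      intro σ
      rw [← _root_.mul_zpow, hpol, _root_.mul_zpow]
    simp only [e3, Finset.prod_mul_distrib]
    congr 1
    rw [← zpow_sum₀ _ (two_pi_I_ne w), ← _root_.zpow_mul]
  rw [h2] at h1
  have h3 : (∏ σ, (α σ : ℂ) ^ χ σ) ∈ Qbar := prod_mem fun σ _ => zpow_mem (α σ).2 _
  have h4 : (∏ σ, (α σ : ℂ) ^ χ σ) ≠ 0 := Finset.prod_ne_zero_iff.2 fun σ _ =>
    zpow_ne_zero _ (by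
      intro h0
      exact hα σ (Subtype.ext h0))
  have h5 : (2 * Real.pi * Complex.I : ℂ) ^ (w * ∑ σ, χ σ) ∈ Qbar := by
    have := div_mem h1 h3
    rwa [mul_div_assoc, div_self h4, mul_one] at this
  exact (mul_eq_zero.1 (two_pi_I_zpow h5)).resolve_left hw

open Classical in
theorem prod_single {g : Emb E → ℂ} (σ : Emb E) :
    (∏ κ, g κ ^ (if κ = σ then (1 : ℤ) else 0)) = g σ := by
  rw [Finset.prod_eq_single σ]
  · simp
  · intro τ _ hτ
    simp [hτ]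
  · intro h
    exact absurd (Finset.mem_univ _) h

theorem core_even2 (cm : IsCM ρ) (hs : ∀ σ, s σ ≠ 0) (hsep : OddSeparating ρ) {w : ℤ}
    {α : Emb E → Qbar}
    (hpol : ∀ σ, s σ * s (bar ρ σ) = (2 * Real.pi * Complex.I : ℂ) ^ w * (α σ : ℂ))
    (hne : ∀ σ τ : Emb E, σ ≠ τ → ∃ γ : Qbar ≃ₐ[ℚ] Qbar, s (gal γ σ) / s (gal γ τ) ∉ Qbar)
    {χ : Emb E → ℤ} (hχ : InCore s χ) : ∀ σ, χ (bar ρ σ) = χ σ := by
  classical
  have hχ' : InCore s (fun σ => χ (bar ρ σ)) := by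
    have := hχ.gal ccQ
    simpa only [bar_eq_gal cm] using this
  by_contra hcon
  push Not at hcon
  obtain ⟨σ₁, hσ₁⟩ := hcon
  have hodd : InCore s (fun σ => χ σ - χ (bar ρ σ)) := by
    have := InCore.add hs hχ (hχ'.smul (-1))
    simpa only [neg_mul, one_mul, ← sub_eq_add_neg] using this
  have hmem : (fun σ => ((χ σ - χ (bar ρ σ) : ℤ) : ℚ)) ∈ oddCore ρ s hs := by
    refine ⟨fun σ => ?_, 1, _, one_ne_zero, fun σ => ?_, hodd⟩
    · change ((χ (bar ρ σ) - χ (bar ρ (bar ρ σ)) : ℤ) : ℚ) = -((χ σ - χ (bar ρ σ) : ℤ) : ℚ)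
      rw [bar_bar cm]
      push_cast
      ring
    · simp
  have hne0 : oddCore ρ s hs ≠ ⊥ := by
    intro h0
    rw [h0, Submodule.mem_bot] at hmem
    have := congrFun hmem σ₁
    simp only [Pi.zero_apply] at this
    have h2 : χ σ₁ - χ (bar ρ σ₁) = 0 := by exact_mod_cast this
    exact hσ₁ (by omega)
  obtain ⟨σ, τ, hστ, -, n, χ₀, hn, hχ₀, hc₀⟩ := hsep (oddCore ρ s hs) (fun u hu => hu.1)
    (by
      rintro γ u ⟨hu, n, χ, hn, hχ, hc⟩
      exact ⟨fun σ => hu (gal γ σ), n, fun σ => χ (gal γ σ), hn, fun σ => hχ _,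
        hc.gal γ⟩) hne0
  -- the relation `2 (δ_σ - δ_τ)`
  have h1 : InCore s (fun κ => (n : ℤ) * (((if κ = σ then 1 else 0) -
      if κ = bar ρ σ then 1 else 0) - ((if κ = τ then 1 else 0) -
      if κ = bar ρ τ then 1 else 0))) := by
    convert hc₀ using 2 with κ
    have h2 := hχ₀ κ
    have h3 : (((n : ℤ) * (((if κ = σ then 1 else 0) -
        if κ = bar ρ σ then 1 else 0) - ((if κ = τ then 1 else 0) -
        if κ = bar ρ τ then 1 else 0)) : ℤ) : ℚ) = χ₀ κ := by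
      rw [← h2, Pi.sub_apply, oddVec, oddVec]
      push_cast
      rfl
    exact_mod_cast h3
  have h2 := h1.sat hn
  obtain ⟨γ, hγ⟩ := hne σ τ hστ
  apply hγ
  have h3 := h2 γ
  have e1 : (∏ κ, s (gal γ κ) ^ (((if κ = σ then (1 : ℤ) else 0) -
      if κ = bar ρ σ then 1 else 0) - ((if κ = τ then 1 else 0) -
      if κ = bar ρ τ then 1 else 0))) =
      (s (gal γ σ) / s (gal γ (bar ρ σ))) / (s (gal γ τ) / s (gal γ (bar ρ τ))) := by
    simp only [zpow_sub₀ (hs _), Finset.prod_div_distrib, prod_single (g := fun κ => s (gal γ κ))]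
  rw [e1, ← bar_gal, ← bar_gal] at h3
  -- multiply by the even relation
  have h4 : (s (gal γ σ) / s (gal γ τ)) ^ 2 =
      ((s (gal γ σ) / s (bar ρ (gal γ σ))) / (s (gal γ τ) / s (bar ρ (gal γ τ)))) *
        (((α (gal γ σ) : Qbar) : ℂ) / ((α (gal γ τ) : Qbar) : ℂ)) := by
    have h5 := hpol (gal γ σ)
    have h6 := hpol (gal γ τ)
    have h7 := two_pi_I_ne w
    have e2 : ((α (gal γ σ) : Qbar) : ℂ) = s (gal γ σ) * s (bar ρ (gal γ σ)) /
        (2 * Real.pi * Complex.I : ℂ) ^ w := by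
      rw [h5]
      field_simp
    have e3 : ((α (gal γ τ) : Qbar) : ℂ) = s (gal γ τ) * s (bar ρ (gal γ τ)) /
        (2 * Real.pi * Complex.I : ℂ) ^ w := by
      rw [h6]
      field_simp
    rw [e2, e3]
    have := hs (gal γ σ)
    have := hs (gal γ τ)
    have := hs (bar ρ (gal γ σ))
    have := hs (bar ρ (gal γ τ))
    field_simp
  refine mem_Qbar_of_pow (n := 2) two_ne_zero ?_
  rw [h4]
  exact mul_mem h3 (div_mem (α _).2 (α _).2)

end Core

namespace CMObj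

/-- Every endomorphism of the de Rham-Betti object `M ⊗ Qbar` is in `E`. -/
def EndIsE (M : CMObj K ι E ρ) : Prop :=
  ∀ B : Matrix ι ι ℚ, (∃ B' : Matrix ι ι Qbar,
    M.c.1 * B'.map (algebraMap Qbar ℂ) = B.map (algebraMap ℚ ℂ) * M.c.1) →
      ∃ a : E, B = Algebra.leftMulMatrix M.b a

end CMObj

theorem isGalois_Qbar : IsGalois ℚ Qbar := ⟨⟩

theorem exists_rat_of_fixed {x : Qbar} (h : ∀ γ : Qbar ≃ₐ[ℚ] Qbar, γ x = x) :
    ∃ r : ℚ, algebraMap ℚ Qbar r = x := by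
  have := isGalois_Qbar
  have h1 := (InfiniteGalois.mem_bot_iff_fixed (k := ℚ) (K := Qbar) x).2 h
  exact IntermediateField.mem_bot.1 h1

namespace PData

variable {M : CMObj K ι E ρ} [Fintype (Emb E)] [DecidableEq (Emb E)] (D : PData M)

theorem exists_endo (σ₀ τ₀ : Emb E) (hne : σ₀ ≠ τ₀)
    (h : ∀ γ : Qbar ≃ₐ[ℚ] Qbar, D.s (gal γ σ₀) / D.s (gal γ τ₀) ∈ Qbar) : ¬ M.EndIsE := by
  classical
  intro hend
  -- the orbit
  let R : Emb E → Emb E → Prop := fun σ τ => ∃ γ : Qbar ≃ₐ[ℚ] Qbar, gal γ σ₀ = σ ∧ gal γ τ₀ = τ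
  have hR : ∀ (γ : Qbar ≃ₐ[ℚ] Qbar) σ τ, R (gal γ σ) (gal γ τ) ↔ R σ τ := by
    intro γ σ τ
    constructor
    · rintro ⟨δ, h1, h2⟩
      refine ⟨δ.trans γ.symm, ?_, ?_⟩
      · refine AlgHom.ext fun x => ?_
        have := DFunLike.congr_fun h1 x
        simp only [gal_apply] at this ⊢
        simp [this]
      · refine AlgHom.ext fun x => ?_
        have := DFunLike.congr_fun h2 x
        simp only [gal_apply] at this ⊢
        simp [this]
    · rintro ⟨δ, rfl, rfl⟩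
      exact ⟨δ.trans γ, AlgHom.ext fun x => by simp, AlgHom.ext fun x => by simp⟩
  let O : Matrix (Emb E) (Emb E) Qbar := fun σ τ => if R σ τ then 1 else 0
  let BQ : Matrix ι ι Qbar := D.P' * O * embMat M.b
  have hfix : ∀ (γ : Qbar ≃ₐ[ℚ] Qbar) i j, γ (BQ i j) = BQ i j := by
    intro γ i j
    simp only [BQ, mul_apply, map_sum, map_mul, Finset.sum_mul]
    refine Fintype.sum_equiv (gal γ) _ _ fun τ => ?_
    refine Fintype.sum_equiv (gal γ) _ _ fun σ => ?_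
    rw [embInv_gal M.b D.h1 D.h2, embMat_gal]
    congr 2
    simp only [O]
    rw [if_congr (hR γ σ τ) rfl rfl]
    split_ifs <;> simp
  choose B hB using fun i j => exists_rat_of_fixed (fun γ => hfix γ i j)
  have hBC : (Matrix.of B).map (algebraMap ℚ ℂ) = toC BQ := by
    refine Matrix.ext fun i j => ?_
    simp only [map_apply, of_apply]
    rw [← hB i j]
    exact IsScalarTower.algebraMap_apply ℚ Qbar ℂ _
  -- the de Rham side
  have hratio : ∀ σ τ, R σ τ → D.s τ / D.s σ ∈ Qbar := by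
    rintro _ _ ⟨γ, rfl, rfl⟩
    have := inv_mem (h γ)
    rwa [inv_div] at this
  let O' : Matrix (Emb E) (Emb E) Qbar := fun σ τ =>
    if hστ : R σ τ then ⟨D.s τ / D.s σ, hratio σ τ hστ⟩ else 0
  have hO : diagonal D.s * toC O' = toC O * diagonal D.s := by
    refine Matrix.ext fun σ τ => ?_
    rw [diagonal_mul, mul_diagonal]
    simp only [map_apply, O, O']
    by_cases hστ : R σ τ
    · rw [dif_pos hστ, if_pos hστ, map_one, one_mul]
      change D.s σ * (D.s τ / D.s σ) = D.s τ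
      have := D.hs σ
      field_simp
    · rw [dif_neg hστ, if_neg hστ, map_zero, mul_zero, zero_mul]
  have hc : M.c.1 = toC D.P' * diagonal D.s * toC D.q := by
    rw [Matrix.mul_assoc, ← D.hc, ← Matrix.mul_assoc, D.h2C, Matrix.one_mul]
  obtain ⟨a, ha⟩ := hend (Matrix.of B) ⟨D.q' * O' * D.q, by
    change M.c.1 * toC (D.q' * O' * D.q) = _
    rw [hBC, toC_mul, toC_mul]
    simp only [BQ]
    rw [toC_mul, toC_mul]
    calc M.c.1 * (toC D.q' * toC O' * toC D.q)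
        = toC D.P' * diagonal D.s * (toC D.q * toC D.q') * toC O' * toC D.q := by
          rw [hc]
          simp only [Matrix.mul_assoc]
      _ = toC D.P' * (diagonal D.s * toC O') * toC D.q := by
          rw [D.hqC, Matrix.mul_one]
          simp only [Matrix.mul_assoc]
      _ = toC D.P' * toC O * (toC (embMat M.b) * toC D.P') * diagonal D.s * toC D.q := by
          rw [hO, D.h1C, Matrix.mul_one]
          simp only [Matrix.mul_assoc]
      _ = toC D.P' * toC O * toC (embMat M.b) * M.c.1 := by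
          rw [hc]
          simp only [Matrix.mul_assoc]⟩
  -- contradiction at the entry `(σ₀, τ₀)`
  have h1 : BQ = (Algebra.leftMulMatrix M.b a).map (algebraMap ℚ Qbar) := by
    apply toC_injective
    rw [← hBC, ha, toC_rat]
  have h2 : embMat M.b * BQ * D.P' = O := by
    simp only [BQ]
    calc embMat M.b * (D.P' * O * embMat M.b) * D.P'
        = (embMat M.b * D.P') * O * (embMat M.b * D.P') := by simp only [Matrix.mul_assoc]
      _ = O := by rw [D.h1, Matrix.one_mul, Matrix.mul_one]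
  have h3 : embMat M.b * BQ * D.P' = diagonal (fun σ : Emb E => σ a) := by
    rw [h1, embMat_mul, Matrix.mul_assoc, D.h1, Matrix.mul_one]
  have h4 := congrFun (congrFun (h2.symm.trans h3) σ₀) τ₀
  rw [diagonal_apply_ne _ hne] at h4
  have h5 : R σ₀ τ₀ := ⟨AlgEquiv.refl, AlgHom.ext fun x => rfl, AlgHom.ext fun x => rfl⟩
  simp only [O] at h4
  rw [if_pos h5] at h4
  exact one_ne_zero h4

theorem kill_of_separating (hK : K ≤ Qbar) (cm : IsCM ρ) (hsep : OddSeparating ρ)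
    (hend : M.EndIsE) : D.Kill := by
  intro t ht hμ χ hχ
  obtain ⟨μ, hμ⟩ := hμ
  refine prod_sim cm (core_even2 cm D.hs hsep (D.hpol hK) (fun σ τ hστ => ?_) hχ)
    (core_deg cm D.hs M.w_ne (D.hα hK) (D.hpol hK) hχ) ht hμ
  by_contra hcon
  push Not at hcon
  exact D.exists_endo σ τ hστ hcon hend

end PData

end Pool.Agent.Lib.MPf11a48.CM
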