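import Pool.Agent.Lib.MP_f11a48_ag.helper16.Defs3
import Pool.Agent.Lib.MP_f11a48_ag.helper16.Closed
import Pool.Agent.Lib.MP_f11a48_ag.helper16.Sep
import Pool.Agent.Lib.MP_f11a48_ag.helper17.AutC

/-! The lattice criterion for objects with complex multiplication: preliminaries. -/

namespace Pool.Agent.Lib.MPf11a48.CM

open Matrix Module

variable {K : IntermediateField ℚ ℂ} {ι E : Type} [Fintype ι] [DecidableEq ι]
  [CommRing E] [Algebra ℚ E] {ρ : E ≃ₐ[ℚ] E}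

theorem imageContains_self (K : IntermediateField ℚ ℂ) (E : Type) [CommRing E] [Algebra ℚ E] :
    ImageContains K K E := fun γ hγ => ⟨γ, hγ, fun _ => rfl⟩

theorem over_bot (γ : Qbar ≃ₐ[ℚ] Qbar) : Over ⊥ γ := by
  intro z hz
  obtain ⟨r, hr⟩ := IntermediateField.mem_bot.1 hz
  have h1 : z = algebraMap ℚ Qbar r := by
    apply Subtype.ext
    rw [← hr]
    exact IsScalarTower.algebraMap_apply ℚ Qbar ℂ r
  rw [h1]
  exact γ.commutes r

theorem Over.trans {k : IntermediateField ℚ ℂ} {γ δ : Qbar ≃ₐ[ℚ] Qbar} (h : Over k γ)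
    (h' : Over k δ) : Over k (γ.trans δ) := by
  intro z hz
  rw [AlgEquiv.trans_apply, h z hz, h' z hz]

theorem Over.symm {k : IntermediateField ℚ ℂ} {γ : Qbar ≃ₐ[ℚ] Qbar} (h : Over k γ) :
    Over k γ.symm := by
  intro z hz
  rw [AlgEquiv.symm_apply_eq]
  exact (h z hz).symm

theorem over_refl (k : IntermediateField ℚ ℂ) : Over k AlgEquiv.refl := fun _ _ => rfl

/-- the fixed field of `Gal(Qbar/k)` is `k` -/
theorem mem_of_fixed_over {k : IntermediateField ℚ ℂ} {x : Qbar}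
    (h : ∀ γ : Qbar ≃ₐ[ℚ] Qbar, Over k γ → γ x = x) : (x : ℂ) ∈ k := by
  refine AutC.mem_of_fixed k fun σ hσ => ?_
  let σ' : ℂ ≃ₐ[ℚ] ℂ := AlgEquiv.ofRingEquiv (f := σ) (fun r => by simp)
  have hres : ∀ z : Qbar, ((σ'.restrictNormal Qbar z : Qbar) : ℂ) = σ (z : ℂ) := fun z =>
    AlgEquiv.restrictNormal_commutes σ' Qbar z
  have h1 : Over k (σ'.restrictNormal Qbar) := fun z hz => Subtype.ext (by rw [hres, hσ _ hz])
  rw [← hres, h _ h1]

namespace CMObj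

theorem eigen_iff (M : CMObj K ι E ρ) [Fintype (Emb E)] [DecidableEq (Emb E)] (θ : GL ι ℂ)
    (t : Emb E → ℂ) : M.Eigen θ t ↔ toC (embMat M.b) * θ.1 = diagonal t * toC (embMat M.b) := by
  constructor
  · intro h
    refine Matrix.ext fun σ j => ?_
    rw [mul_apply, diagonal_mul]
    exact h σ j
  · intro h σ j
    have h1 := congrFun (congrFun h σ) j
    rw [mul_apply, diagonal_mul] at h1
    exact h1

end CMObj

/-- `θ` respects the Betti tensor of `α` -/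
def FixB (θ : GL ι ℂ) (α : TPair K ι) : Prop :=
  tens α.n α.m θ.1 θ⁻¹.1 *ᵥ (fun J => ((α.B J : ℚ) : ℂ)) = fun I => ((α.B I : ℚ) : ℂ)

theorem fixes_mul {θ f : GL ι ℂ} {α : TPair K ι} (hf : Fixes f α) :
    Fixes (θ * f) α ↔ FixB θ α := by
  have h1 := (fixes_iff f α).1 hf
  have e1 : (θ * f).1 = θ.1 * f.1 := rfl
  have e2 : (θ * f)⁻¹.1 = f⁻¹.1 * θ⁻¹.1 := by
    rw [_root_.mul_inv_rev]
    rfl
  rw [fixes_iff, e1, e2, tens_mul, ← mulVec_mulVec, h1]
  rfl

omit [Fintype ι] [DecidableEq ι] in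
theorem tens_toC (n m : ℕ) (g g' : Matrix ι ι Qbar) :
    tens n m (toC g) (toC g') = toC (tens n m g g') := by
  refine Matrix.ext fun I J => ?_
  simp only [tens, map_apply, map_mul, map_prod]

theorem fixB_glC (g : GL ι Qbar) (α : TPair K ι) : FixB (glC g) α ↔
    ∀ I, ∑ J, tens α.n α.m g.1 g⁻¹.1 I J * algebraMap ℚ Qbar (α.B J) =
      algebraMap ℚ Qbar (α.B I) := by
  unfold FixB
  have e1 : (glC g)⁻¹.1 = toC g⁻¹.1 := by
    rw [← map_inv]
    rfl
  rw [e1, glC_val, tens_toC, funext_iff]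
  refine forall_congr' fun I => ?_
  have e2 : ((α.B I : ℚ) : ℂ) = algebraMap Qbar ℂ (algebraMap ℚ Qbar (α.B I)) := by
    simp
  have e3 : (toC (tens α.n α.m g.1 g⁻¹.1) *ᵥ fun J => ((α.B J : ℚ) : ℂ)) I =
      algebraMap Qbar ℂ (∑ J, tens α.n α.m g.1 g⁻¹.1 I J * algebraMap ℚ Qbar (α.B J)) := by
    rw [mulVec, dotProduct, map_sum]
    refine Finset.sum_congr rfl fun J _ => ?_
    rw [map_mul]
    change algebraMap Qbar ℂ (tens α.n α.m g.1 g⁻¹.1 I J) * _ = _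
    congr 1
  rw [e2, e3]
  exact (algebraMap Qbar ℂ).injective.eq_iff

theorem fixB_gal (g : GL ι Qbar) (α : TPair K ι) (γ : Qbar ≃ₐ[ℚ] Qbar)
    (h : FixB (glC g) α) : FixB (glC (galG γ g)) α := by
  rw [fixB_glC] at h ⊢
  intro I
  have h1 := congrArg γ (h I)
  rw [map_sum, AlgEquiv.commutes] at h1
  rw [← h1]
  refine Finset.sum_congr rfl fun J _ => ?_
  rw [map_mul, AlgEquiv.commutes]
  congr 1
  have e1 : (galG γ g)⁻¹.1 = g⁻¹.1.map γ := by
    rw [← map_inv]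
    rfl
  have e2 : (galG γ g).1 = g.1.map γ := rfl
  rw [e1, e2]
  simp only [tens, map_apply, map_mul, map_prod]

end Pool.Agent.Lib.MPf11a48.CM
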