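import Pool.Agent.Lib.MP_f11a48_ag.helper16.Rel

/-! The lattice criterion: the relations between the periods. -/

namespace Pool.Agent.Lib.MPf11a48.CM

open Matrix Module

variable {K : IntermediateField ℚ ℂ} {ι E : Type} [Fintype ι] [DecidableEq ι]
  [CommRing E] [Algebra ℚ E] {ρ : E ≃ₐ[ℚ] E}

/-- the relations all of whose conjugates over `k` are relations -/
noncomputable def coreOver [Fintype (Emb E)] (k : IntermediateField ℚ ℂ) (s : Emb E → ℂ)
    (hs : ∀ σ, s σ ≠ 0) : AddSubgroup (Emb E → ℤ) where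
  carrier := {χ | ∀ γ : Qbar ≃ₐ[ℚ] Qbar, Over k γ → (∏ σ, s (gal γ σ) ^ χ σ) ∈ Qbar}
  zero_mem' := by
    intro γ _
    simp only [Pi.zero_apply, zpow_zero, Finset.prod_const_one]
    exact one_mem _
  add_mem' := by
    intro χ χ' h h' γ hγ
    have : (∏ σ, s (gal γ σ) ^ (χ + χ') σ) =
        (∏ σ, s (gal γ σ) ^ χ σ) * ∏ σ, s (gal γ σ) ^ χ' σ := by
      simp only [Pi.add_apply, zpow_add₀ (hs _), Finset.prod_mul_distrib]
    rw [this]
    exact mul_mem (h γ hγ) (h' γ hγ)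
  neg_mem' := by
    intro χ h γ hγ
    have : (∏ σ, s (gal γ σ) ^ (-χ) σ) = (∏ σ, s (gal γ σ) ^ χ σ)⁻¹ := by
      simp only [Pi.neg_apply, _root_.zpow_neg, Finset.prod_inv_distrib]
    rw [this]
    exact inv_mem (h γ hγ)

section

variable [Fintype (Emb E)] {k : IntermediateField ℚ ℂ} {s : Emb E → ℂ} (hs : ∀ σ, s σ ≠ 0)

theorem coreOver_gal {χ : Emb E → ℤ} (h : χ ∈ coreOver k s hs) {δ : Qbar ≃ₐ[ℚ] Qbar}
    (hδ : Over k δ) : (fun σ => χ (gal δ σ)) ∈ coreOver k s hs := by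
  intro γ hγ
  have h1 := h (δ.symm.trans γ) (hδ.symm.trans hγ)
  have : (∏ σ, s (gal γ σ) ^ χ (gal δ σ)) =
      ∏ σ, s (gal (δ.symm.trans γ) σ) ^ χ σ := by
    refine Fintype.prod_equiv (gal δ) _ _ fun σ => ?_
    congr 2
    refine AlgHom.ext fun x => ?_
    simp
  rw [this]
  exact h1

theorem coreOver_sat {χ : Emb E → ℤ} {n : ℤ} (hn : n ≠ 0)
    (h : n • χ ∈ coreOver k s hs) : χ ∈ coreOver k s hs := by
  have h' : (n.natAbs : ℤ) • χ ∈ coreOver k s hs := by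
    rcases Int.natAbs_eq n with h1 | h1
    · rwa [← h1]
    · have h2 : (n.natAbs : ℤ) • χ = -(n • χ) := by
        conv_rhs => rw [h1]
        simp
      rw [h2]
      exact neg_mem h
  intro γ hγ
  have h1 := h' γ hγ
  have : (∏ σ, s (gal γ σ) ^ ((n.natAbs : ℤ) • χ) σ) =
      (∏ σ, s (gal γ σ) ^ χ σ) ^ n.natAbs := by
    rw [← Finset.prod_pow]
    refine Finset.prod_congr rfl fun σ _ => ?_
    rw [Pi.smul_apply, smul_eq_mul, mul_comm, _root_.zpow_mul, zpow_natCast]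
  rw [this] at h1
  exact mem_Qbar_of_pow (Int.natAbs_ne_zero.2 hn) h1

theorem coreOver_deg (cm : IsCM ρ) {w : ℤ} (hw : w ≠ 0)
    {α : Emb E → Qbar} (hα : ∀ σ, α σ ≠ 0)
    (hpol : ∀ σ, s σ * s (bar ρ σ) = (2 * Real.pi * Complex.I : ℂ) ^ w * (α σ : ℂ))
    {χ : Emb E → ℤ} (hχ : χ ∈ coreOver k s hs)
    (hχ' : (fun σ => χ (bar ρ σ)) ∈ coreOver k s hs) : ∑ σ, χ σ = 0 := by
  have h1 := add_mem hχ hχ' AlgEquiv.refl (over_refl k)
  have e1 : ∀ τ : Emb E, gal (AlgEquiv.refl : Qbar ≃ₐ[ℚ] Qbar) τ = τ := fun τ =>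
    AlgHom.ext fun x => rfl
  have h2 : (∏ σ, s (gal (AlgEquiv.refl : Qbar ≃ₐ[ℚ] Qbar) σ) ^
      (χ + fun σ => χ (bar ρ σ)) σ) =
      ((2 * Real.pi * Complex.I : ℂ) ^ (w * ∑ σ, χ σ)) * ∏ σ, (α σ : ℂ) ^ χ σ := by
    simp only [e1, Pi.add_apply, zpow_add₀ (hs _), Finset.prod_mul_distrib]
    have e2 : (∏ σ, s σ ^ χ (bar ρ σ)) = ∏ σ, s (bar ρ σ) ^ χ σ := by
      refine Fintype.prod_equiv (bar ρ) _ _ fun σ => ?_
      rw [bar_bar cm]
    rw [e2, ← Finset.prod_mul_distrib]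
    have e3 : ∀ σ, s σ ^ χ σ * s (bar ρ σ) ^ χ σ =
        ((2 * Real.pi * Complex.I : ℂ) ^ w) ^ χ σ * (α σ : ℂ) ^ χ σ := by
      intro σ
      rw [← _root_.mul_zpow, hpol, _root_.mul_zpow]
    simp only [e3, Finset.prod_mul_distrib]
    congr 1
    rw [← zpow_sum₀ _ (two_pi_I_ne w), ← _root_.zpow_mul]
  rw [h2] at h1
  have h3 : (∏ σ, (α σ : ℂ) ^ χ σ) ∈ Qbar := prod_mem fun σ _ => zpow_mem (α σ).2 _
  have h4 : (∏ σ, (α σ : ℂ) ^ χ σ) ≠ 0 := Finset.prod_ne_zero_iff.2 fun σ _ =>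
    zpow_ne_zero _ (by
      intro h0
      exact hα σ (Subtype.ext h0))
  have h5 : (2 * Real.pi * Complex.I : ℂ) ^ (w * ∑ σ, χ σ) ∈ Qbar := by
    have := div_mem h1 h3
    rwa [mul_div_assoc, div_self h4, mul_one] at this
  exact (mul_eq_zero.1 (two_pi_I_zpow h5)).resolve_left hw

end

namespace PData

variable {M : CMObj K ι E ρ} [Fintype (Emb E)] [DecidableEq (Emb E)] (D : PData M)

theorem not_endLinear {k : IntermediateField ℚ ℂ} (σ₀ τ₀ : Emb E) (hne : σ₀ ≠ τ₀)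
    (h : ∀ γ : Qbar ≃ₐ[ℚ] Qbar, Over k γ → D.s (gal γ σ₀) / D.s (gal γ τ₀) ∈ Qbar) :
    ¬ M.EndLinear k := by
  classical
  intro hend
  -- the orbit
  let R : Emb E → Emb E → Prop := fun σ τ =>
    ∃ γ : Qbar ≃ₐ[ℚ] Qbar, Over k γ ∧ gal γ σ₀ = σ ∧ gal γ τ₀ = τ
  have hR : ∀ (γ : Qbar ≃ₐ[ℚ] Qbar), Over k γ → ∀ σ τ, R (gal γ σ) (gal γ τ) ↔ R σ τ := by
    intro γ hγ σ τ
    constructor
    · rintro ⟨δ, hδ, h1, h2⟩
      refine ⟨δ.trans γ.symm, hδ.trans hγ.symm, ?_, ?_⟩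
      · refine AlgHom.ext fun x => ?_
        have := DFunLike.congr_fun h1 x
        simp only [gal_apply] at this ⊢
        simp [this]
      · refine AlgHom.ext fun x => ?_
        have := DFunLike.congr_fun h2 x
        simp only [gal_apply] at this ⊢
        simp [this]
    · rintro ⟨δ, hδ, rfl, rfl⟩
      exact ⟨δ.trans γ, hδ.trans hγ, AlgHom.ext fun x => by simp, AlgHom.ext fun x => by simp⟩
  let O : Matrix (Emb E) (Emb E) Qbar := fun σ τ => if R σ τ then 1 else 0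
  let BQ : Matrix ι ι Qbar := D.P' * O * embMat M.b
  have hfix : ∀ (γ : Qbar ≃ₐ[ℚ] Qbar), Over k γ → ∀ i j, γ (BQ i j) = BQ i j := by
    intro γ hγ i j
    simp only [BQ, mul_apply, map_sum, map_mul, Finset.sum_mul]
    refine Fintype.sum_equiv (gal γ) _ _ fun τ => ?_
    refine Fintype.sum_equiv (gal γ) _ _ fun σ => ?_
    rw [embInv_gal M.b D.h1 D.h2, embMat_gal]
    congr 2
    simp only [O]
    rw [if_congr (hR γ hγ σ τ) rfl rfl]
    split_ifs <;> simp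
  let B : Matrix ι ι k := fun i j =>
    ⟨(BQ i j : ℂ), mem_of_fixed_over fun γ hγ => hfix γ hγ i j⟩
  have hBC : B.map (algebraMap k ℂ) = toC BQ := by
    refine Matrix.ext fun i j => ?_
    rfl
  -- the de Rham side
  have hratio : ∀ σ τ, R σ τ → D.s τ / D.s σ ∈ Qbar := by
    rintro _ _ ⟨γ, hγ, rfl, rfl⟩
    have := inv_mem (h γ hγ)
    rwa [inv_div] at this
  let O' : Matrix (Emb E) (Emb E) Qbar := fun σ τ =>
    if hστ : R σ τ then ⟨D.s τ / D.s σ, hratio σ τ hστ⟩ else 0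
  have hO : diagonal D.s * toC O' = toC O * diagonal D.s := by
    refine Matrix.ext fun σ τ => ?_
    rw [diagonal_mul, mul_diagonal]
    change D.s σ * algebraMap Qbar ℂ
      (if hστ : R σ τ then ⟨D.s τ / D.s σ, hratio σ τ hστ⟩ else 0) =
        algebraMap Qbar ℂ (if R σ τ then 1 else 0) * D.s τ
    by_cases hστ : R σ τ
    · rw [dif_pos hστ, if_pos hστ, map_one, one_mul]
      change D.s σ * (D.s τ / D.s σ) = D.s τ
      have := D.hs σ
      field_simp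
    · rw [dif_neg hστ, if_neg hστ, map_zero, mul_zero, zero_mul]
  have hc : M.c.1 = toC D.P' * diagonal D.s * toC D.q := by
    rw [Matrix.mul_assoc, ← D.hc, ← Matrix.mul_assoc, D.h2C, Matrix.one_mul]
  have hlin := hend B (D.q' * O' * D.q) (by
    change M.c.1 * toC (D.q' * O' * D.q) = _
    rw [hBC, toC_mul, toC_mul]
    simp only [BQ]
    rw [toC_mul, toC_mul]
    calc M.c.1 * (toC D.q' * toC O' * toC D.q)
        = toC D.P' * diagonal D.s * (toC D.q * toC D.q') * toC O' * toC D.q := by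
          rw [hc]
          simp only [Matrix.mul_assoc]
      _ = toC D.P' * (diagonal D.s * toC O') * toC D.q := by
          rw [D.hqC, Matrix.mul_one]
          simp only [Matrix.mul_assoc]
      _ = toC D.P' * toC O * (toC (embMat M.b) * toC D.P') * diagonal D.s * toC D.q := by
          rw [hO, D.h1C, Matrix.mul_one]
          simp only [Matrix.mul_assoc]
      _ = toC D.P' * toC O * toC (embMat M.b) * M.c.1 := by
          rw [hc]
          simp only [Matrix.mul_assoc])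
  rw [hBC] at hlin
  obtain ⟨t, ht⟩ := D.diag_of_comm (toC BQ) hlin
  -- contradiction at the entry `(σ₀, τ₀)`
  have h2 : embMat M.b * BQ * D.P' = O := by
    simp only [BQ]
    calc embMat M.b * (D.P' * O * embMat M.b) * D.P'
        = (embMat M.b * D.P') * O * (embMat M.b * D.P') := by simp only [Matrix.mul_assoc]
      _ = O := by rw [D.h1, Matrix.one_mul, Matrix.mul_one]
  have h3 : toC O = diagonal t := by
    rw [← h2, toC_mul, toC_mul, ht, Matrix.mul_assoc, D.h1C, Matrix.mul_one]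
  have h4 := congrFun (congrFun h3 σ₀) τ₀
  rw [diagonal_apply_ne _ hne] at h4
  have h5 : R σ₀ τ₀ := ⟨AlgEquiv.refl, over_refl k, AlgHom.ext fun x => rfl,
    AlgHom.ext fun x => rfl⟩
  have h6 : toC O σ₀ τ₀ = 1 := by
    change algebraMap Qbar ℂ (if R σ₀ τ₀ then 1 else 0) = 1
    rw [if_pos h5, map_one]
  rw [h6] at h4
  exact one_ne_zero h4

end PData

end Pool.Agent.Lib.MPf11a48.CM
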