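import Pool.Agent.Lib.MP_f11a48_ag.helper16.Rel2

/-! The lattice criterion: characters that are trivial on `Ω_S` give relations between periods. -/

namespace Pool.Agent.Lib.MPf11a48.CM

open Matrix Module

variable {K : IntermediateField ℚ ℂ} {ι E : Type} [Fintype ι] [DecidableEq ι]
  [CommRing E] [Algebra ℚ E] {ρ : E ≃ₐ[ℚ] E}

namespace PData

variable {M : CMObj K ι E ρ} [Fintype (Emb E)] [DecidableEq (Emb E)] (D : PData M)

/-- the torus element with algebraic eigenvalues `u` -/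
noncomputable def tor (u : Emb E → Qbarˣ) : GL ι Qbar where
  val := D.P' * diagonal (fun σ => (u σ : Qbar)) * embMat M.b
  inv := D.P' * diagonal (fun σ => ((u⁻¹) σ : Qbar)) * embMat M.b
  val_inv := by
    calc D.P' * diagonal (fun σ => (u σ : Qbar)) * embMat M.b *
          (D.P' * diagonal (fun σ => ((u⁻¹) σ : Qbar)) * embMat M.b)
        = D.P' * diagonal (fun σ => (u σ : Qbar)) * (embMat M.b * D.P') *
          diagonal (fun σ => ((u⁻¹) σ : Qbar)) * embMat M.b := by simp only [Matrix.mul_assoc]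
      _ = D.P' * (diagonal (fun σ => (u σ : Qbar)) * diagonal (fun σ => ((u⁻¹) σ : Qbar))) *
          embMat M.b := by
        rw [D.h1, Matrix.mul_one]
        simp only [Matrix.mul_assoc]
      _ = 1 := by
        rw [diagonal_mul_diagonal]
        simp [D.h2]
  inv_val := by
    calc D.P' * diagonal (fun σ => ((u⁻¹) σ : Qbar)) * embMat M.b *
          (D.P' * diagonal (fun σ => (u σ : Qbar)) * embMat M.b)
        = D.P' * diagonal (fun σ => ((u⁻¹) σ : Qbar)) * (embMat M.b * D.P') *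
          diagonal (fun σ => (u σ : Qbar)) * embMat M.b := by simp only [Matrix.mul_assoc]
      _ = D.P' * (diagonal (fun σ => ((u⁻¹) σ : Qbar)) * diagonal (fun σ => (u σ : Qbar))) *
          embMat M.b := by
        rw [D.h1, Matrix.mul_one]
        simp only [Matrix.mul_assoc]
      _ = 1 := by
        rw [diagonal_mul_diagonal]
        simp [D.h2]

theorem tor_val (u : Emb E → Qbarˣ) :
    (D.tor u).1 = D.P' * diagonal (fun σ => (u σ : Qbar)) * embMat M.b := rfl

theorem eigen_tor (u : Emb E → Qbarˣ) :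
    M.Eigen (glC (D.tor u)) (fun σ => ((u σ : Qbar) : ℂ)) := by
  rw [M.eigen_iff]
  rw [glC_val, tor_val, ← toC_mul, ← Matrix.mul_assoc, ← Matrix.mul_assoc, D.h1,
    Matrix.one_mul, toC_mul, toC_diagonal]

theorem gal_tor (γ : Qbar ≃ₐ[ℚ] Qbar) (u : Emb E → Qbarˣ) :
    galG γ (D.tor u) = D.tor (fun σ => Units.map ((γ : Qbar →+* Qbar) : Qbar →* Qbar)
      (u ((gal γ).symm σ))) := by
  apply Units.ext
  change (D.P' * diagonal (fun σ => (u σ : Qbar)) * embMat M.b).map γ = _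
  rw [map_gal_mul', map_gal_mul', map_gal_diagonal', tor_val]
  refine Matrix.ext fun i j => ?_
  rw [mul_apply, mul_apply]
  simp only [mul_diagonal, map_apply]
  refine Fintype.sum_equiv (gal γ) _ _ fun σ => ?_
  rw [Equiv.symm_apply_apply, embInv_gal M.b D.h1 D.h2, embMat_gal]
  rfl

/-- the situation attached to a `K`-closed coset that contains `c` -/
noncomputable def sit (hK : K ≤ Qbar) {T : Set (GL ι ℂ)} (P : Set (MvPolynomial (ι × ι) K))
    (hP : T = {f | ∀ p ∈ P, MvPolynomial.aeval (fun ij : ι × ι => f.1 ij.1 ij.2) p = 0})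
    (hTh : IsHeap T) (hcT : M.c ∈ T) : Sit K ι E :=
  ⟨hK, M.b, D.P', D.h1, D.h2, D.q, D.q', D.hq, D.hq', D.s, D.hs, M.c, D.hc, T, P, hP, hTh, hcT⟩

theorem sit_X (hK : K ≤ Qbar) {T : Set (GL ι ℂ)} (P : Set (MvPolynomial (ι × ι) K))
    (hP : T = {f | ∀ p ∈ P, MvPolynomial.aeval (fun ij : ι × ι => f.1 ij.1 ij.2) p = 0})
    (hTh : IsHeap T) (hcT : M.c ∈ T) (u b0 : Emb E → Qbarˣ) :
    (D.sit hK P hP hTh hcT).X (u * b0) = D.tor u * (D.sit hK P hP hTh hcT).X b0 := by
  apply Units.ext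
  change D.P' * diagonal (fun σ => (((u * b0) σ : Qbarˣ) : Qbar)) * D.q =
    D.P' * diagonal (fun σ => (u σ : Qbar)) * embMat M.b *
      (D.P' * diagonal (fun σ => (b0 σ : Qbar)) * D.q)
  calc D.P' * diagonal (fun σ => (((u * b0) σ : Qbarˣ) : Qbar)) * D.q
      = D.P' * (diagonal (fun σ => (u σ : Qbar)) * (embMat M.b * D.P') *
          diagonal (fun σ => (b0 σ : Qbar))) * D.q := by
        rw [D.h1, Matrix.mul_one, diagonal_mul_diagonal]
        rfl
    _ = _ := by simp only [Matrix.mul_assoc]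

theorem core_of_trivial (hK : K ≤ Qbar) {S : Set (TPair K ι)} (hS : ∀ α ∈ S, Fixes M.c α)
    {χ : Emb E → ℤ} (hχ : M.Trivial S χ) (γ : Qbar ≃ₐ[ℚ] Qbar) :
    (∏ σ, D.s (gal γ σ) ^ χ σ) ∈ Qbar := by
  obtain ⟨P, hP⟩ := omegaS_closed S
  let Si : Sit K ι E := D.sit hK P hP (omegaS_heap S) hS
  obtain ⟨b0, hb0⟩ := Si.exists_pt
  have htriv : ∀ δ : Qbar ≃ₐ[ℚ] Qbar, Si.Triv b0 hb0 (fun σ => χ (gal δ σ)) := by
    intro δ u hu
    have hu' : glC (Si.X (u * b0)) ∈ OmegaS S := hu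
    have hX : Si.X (u * b0) = D.tor u * Si.X b0 := D.sit_X hK P hP (omegaS_heap S) hS u b0
    rw [hX, map_mul] at hu'
    set v : Emb E → Qbarˣ := fun σ => Units.map ((δ : Qbar →+* Qbar) : Qbar →* Qbar)
      (u ((gal δ).symm σ)) with hv
    have h1 : glC (D.tor v) * M.c ∈ OmegaS S := by
      intro α hα
      have h2 := (fixes_mul (hb0 α hα)).1 (hu' α hα)
      have h3 := fixB_gal _ α δ h2
      rw [D.gal_tor] at h3
      exact (fixes_mul (hS α hα)).2 h3
    have h2 := hχ _ _ (D.eigen_tor v) h1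
    rw [finprod_eq_prod_of_fintype] at h2
    have h3 : (∏ σ, ((v σ : Qbar) : ℂ) ^ χ σ) =
        algebraMap Qbar ℂ (δ (∏ σ, ((u σ : Qbarˣ) : Qbar) ^ χ (gal δ σ))) := by
      rw [map_prod, map_prod]
      refine (Fintype.prod_equiv (gal δ) _ _ fun σ => ?_).symm
      rw [map_zpow₀, map_zpow₀, hv]
      change _ = (algebraMap Qbar ℂ (δ ((u ((gal δ).symm (gal δ σ)) : Qbarˣ) : Qbar))) ^ _
      rw [Equiv.symm_apply_apply]
    rw [h3] at h2
    have h4 : algebraMap Qbar ℂ (δ (∏ σ, ((u σ : Qbarˣ) : Qbar) ^ χ (gal δ σ))) =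
        algebraMap Qbar ℂ (δ 1) := by rw [h2, map_one, map_one]
    exact δ.injective ((algebraMap Qbar ℂ).injective h4)
  have h1 := Si.triv_eq (htriv γ.symm)
  have h2 : (∏ σ, D.s (gal γ σ) ^ χ σ) = ∏ σ, Si.s σ ^ χ (gal γ.symm σ) := by
    refine Fintype.prod_equiv (gal γ) _ _ fun σ => ?_
    have e1 : gal γ.symm (gal γ σ) = σ := AlgHom.ext fun x => by simp
    rw [e1]
    rfl
  rw [h2, h1]
  exact (∏ σ, (b0 σ : Qbar) ^ χ (gal γ.symm σ)).2

/-- Under the lattice criterion all the `k`-stable relations are trivial on `Ω_S`. -/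
theorem trivial_of_core (hK : K ≤ Qbar) (cm : IsCM ρ) {S : Set (TPair K ι)}
    (hS : ∀ α ∈ S, Fixes M.c α) {k : IntermediateField ℚ ℂ} (hcrit : M.LatticeCrit k S)
    (hend : M.EndLinear k) {χ : Emb E → ℤ}
    (hχ : ∀ γ : Qbar ≃ₐ[ℚ] Qbar, Over k γ → (∏ σ, D.s (gal γ σ) ^ χ σ) ∈ Qbar) :
    M.Trivial S χ := by
  classical
  rcases hcrit (coreOver k D.s D.hs) ⟨fun γ hγ χ hχ => coreOver_gal D.hs hχ hγ,
    fun n χ hn h => coreOver_sat D.hs hn h,
    fun χ h h' => by
      rw [finsum_eq_sum_of_fintype]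
      exact coreOver_deg D.hs cm M.w_ne (D.hα hK) (D.hpol hK) h h'⟩
    (fun χ h γ _ => D.core_of_trivial hK hS h γ) with h | ⟨σ, τ, hne, χ', h, e1, e2, e3⟩
  · exact h χ hχ
  · exfalso
    refine D.not_endLinear (k := k) σ τ hne (fun γ hγ => ?_) hend
    have h1 := h γ hγ
    have h0 : ∀ κ, χ' κ = (if κ = σ then (1 : ℤ) else 0) - if κ = τ then 1 else 0 := by
      intro κ
      by_cases a1 : κ = σ
      · rw [a1, e1, if_pos rfl, if_neg hne]
        norm_num
      · by_cases a2 : κ = τ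
        · rw [a2, e2, if_neg (Ne.symm hne), if_pos rfl]
          norm_num
        · rw [e3 κ a1 a2, if_neg a1, if_neg a2]
          norm_num
    have h2 : (∏ κ, D.s (gal γ κ) ^ χ' κ) = D.s (gal γ σ) / D.s (gal γ τ) := by
      simp only [h0, zpow_sub₀ (D.hs _), Finset.prod_div_distrib]
      congr 1
      · rw [Finset.prod_eq_single σ]
        · simp
        · intro κ _ hκ
          simp [hκ]
        · intro h
          exact absurd (Finset.mem_univ _) h
      · rw [Finset.prod_eq_single τ]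
        · simp
        · intro κ _ hκ
          simp [hκ]
        · intro h
          exact absurd (Finset.mem_univ _) h
    rw [← h2]
    exact h1

end PData

end Pool.Agent.Lib.MPf11a48.CM
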