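import Pool.Agent.Lib.MP_f11a48_ag.helper16.Rel3

/-! The lattice criterion: `Ω_S = Ω^dRB_M` and `Ω_S = Ω_M`. -/

namespace Pool.Agent.Lib.MPf11a48.CM

open Matrix Module

variable {K : IntermediateField ℚ ℂ} {ι E : Type} [Fintype ι] [DecidableEq ι]
  [CommRing E] [Algebra ℚ E] {ρ : E ≃ₐ[ℚ] E}

theorem drb_heap (c : GL ι ℂ) : IsHeap (OmegaDRB K c) := by
  intro x hx y hy z hz r sh WdR WB hsub
  have h1 := hx r sh WdR WB hsub
  have h2 := hy r sh WdR WB hsub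
  have h3 := hz r sh WdR WB hsub
  have hy1 : y⁻¹ * y = 1 := inv_mul_cancel y
  have e1 : (spanC WB).map (act sh (y⁻¹).1 (y⁻¹)⁻¹.1) = spanC WdR := by
    rw [← h2, ← Submodule.map_comp]
    have : (act sh (y⁻¹).1 (y⁻¹)⁻¹.1).comp (act sh y.1 y⁻¹.1) = LinearMap.id := by
      refine LinearMap.ext fun v => ?_
      have h4 := act_gl_mul sh y⁻¹ y v
      rw [hy1] at h4
      rw [LinearMap.comp_apply, ← h4]
      exact act_one sh v
    rw [this, Submodule.map_id]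
  have e2 : (spanC WdR).map (act sh (x * y⁻¹ * z).1 (x * y⁻¹ * z)⁻¹.1) =
      (((spanC WdR).map (act sh z.1 z⁻¹.1)).map (act sh (y⁻¹).1 (y⁻¹)⁻¹.1)).map
        (act sh x.1 x⁻¹.1) := by
    rw [← Submodule.map_comp, ← Submodule.map_comp]
    congr 1
    refine LinearMap.ext fun v => ?_
    rw [LinearMap.comp_apply, LinearMap.comp_apply, act_gl_mul sh (x * y⁻¹) z v,
      act_gl_mul sh x y⁻¹]
  rw [e2, h3, e1, h1]

theorem drb_gal (hK : K ≤ Qbar) (c : GL ι ℂ) (γ : Qbar ≃ₐ[ℚ] Qbar) (hγ : Over K γ)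
    (g : GL ι Qbar) (hg : glC g ∈ OmegaDRB K c) : glC (galG γ g) ∈ OmegaDRB K c :=
  galois_point hK (x := g.1) (x' := g⁻¹.1) g.mul_inv g.inv_mul (f := glC g) rfl hg γ hγ rfl

namespace PData

variable {M : CMObj K ι E ρ} [Fintype (Emb E)] [DecidableEq (Emb E)] (D : PData M)

theorem eigen_alg (u : Emb E → Qbarˣ) (g : GL ι Qbar)
    (hg : g.1 = D.P' * diagonal (fun σ => (u σ : Qbar)) * D.q) :
    M.Eigen (glC g * M.c⁻¹) (fun σ => ((u σ : Qbar) : ℂ) * (D.s σ)⁻¹) := by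
  rw [M.eigen_iff]
  have hcc : M.c.1 * M.c⁻¹.1 = 1 := M.c.mul_inv
  have hq1 : toC D.q * M.c⁻¹.1 = diagonal (fun σ => (D.s σ)⁻¹) * toC (embMat M.b) := by
    have h1 : diagonal (fun σ => (D.s σ)⁻¹) * diagonal D.s = 1 := by
      rw [diagonal_mul_diagonal]
      simp [inv_mul_cancel₀ (D.hs _)]
    calc toC D.q * M.c⁻¹.1
        = (diagonal (fun σ => (D.s σ)⁻¹) * diagonal D.s) * toC D.q * M.c⁻¹.1 := by
          rw [h1, Matrix.one_mul]
      _ = diagonal (fun σ => (D.s σ)⁻¹) * (diagonal D.s * toC D.q) * M.c⁻¹.1 := by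
          simp only [Matrix.mul_assoc]
      _ = diagonal (fun σ => (D.s σ)⁻¹) * toC (embMat M.b) * (M.c.1 * M.c⁻¹.1) := by
          rw [← D.hc]
          simp only [Matrix.mul_assoc]
      _ = _ := by rw [hcc, Matrix.mul_one]
  change toC (embMat M.b) * (toC g.1 * M.c⁻¹.1) = _
  have h2 : toC (embMat M.b) * toC g.1 =
      diagonal (fun σ => ((u σ : Qbar) : ℂ)) * toC D.q := by
    rw [hg, ← toC_mul, ← Matrix.mul_assoc, ← Matrix.mul_assoc, D.h1, Matrix.one_mul, toC_mul,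
      toC_diagonal]
  rw [← Matrix.mul_assoc, h2, Matrix.mul_assoc, hq1, ← Matrix.mul_assoc, diagonal_mul_diagonal]

include D in
/-- The common part of the two comparison theorems. -/
theorem subset_of_trivial (hK : K ≤ Qbar) {S : Set (TPair K ι)}
    (hS : ∀ α ∈ S, Fixes M.c α) (hE : OmegaS S ⊆ M.OmegaE) {T : Set (GL ι ℂ)}
    (hT : IsHeap T) (hc : M.c ∈ T)
    (hgal : ∀ g : GL ι Qbar, glC g ∈ T → ∀ γ, Over K γ → glC (galG γ g) ∈ T)
    (htor : ∀ (θ : GL ι ℂ) (t : Emb E → ℂ), M.Eigen θ t → θ * M.c ∈ OmegaS S → θ * M.c ∈ T) :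
    OmegaS S ⊆ T := by
  obtain ⟨P, hP⟩ := omegaS_closed S
  let Si : Sit K ι E := D.sit hK P hP (omegaS_heap S) hS
  obtain ⟨b0, hb0⟩ := Si.exists_pt
  have hb0' : glC (Si.X b0) ∈ OmegaS S := hb0
  have hX : (Si.X b0).1 = D.P' * diagonal (fun σ => (b0 σ : Qbar)) * D.q := rfl
  -- the algebraic point
  have hXT : glC (Si.X b0) ∈ T := by
    have h1 := htor _ _ (D.eigen_alg b0 (Si.X b0) hX) (by
      rwa [inv_mul_cancel_right])
    rwa [inv_mul_cancel_right] at h1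
  intro f hf
  obtain ⟨γ, hγ, hfA⟩ := hE hf
  set Y : GL ι ℂ := glC (galG γ (Si.X b0)) with hY
  have hYT : Y ∈ T := hgal _ hXT γ hγ
  have hYS : Y ∈ OmegaS S := gal_mem hK (omegaS_closed S) γ hγ hb0'
  have hYA : ∀ a, Y.1 * toC ((M.AdR a).map γ) =
      (Algebra.leftMulMatrix M.b a).map (algebraMap ℚ ℂ) * Y.1 := by
    intro a
    have h1 : Y.1 = toC ((D.x (fun σ => (b0 σ : Qbar))).map γ) := rfl
    have h3 := congrArg (fun N : Matrix ι ι Qbar => toC (N.map γ))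
      (D.hxA (fun σ => (b0 σ : Qbar)) a)
    rw [map_gal_mul, map_gal_mul, map_gal_rat, toC_mul, toC_mul, toC_rat] at h3
    rw [h1]
    exact h3
  have hYY : Y.1 * Y⁻¹.1 = 1 := Y.mul_inv
  have hYY' : Y⁻¹.1 * Y.1 = 1 := Y.inv_mul
  obtain ⟨θ, hθ⟩ : ∃ θ : GL ι ℂ, θ = f * Y⁻¹ := ⟨_, rfl⟩
  have hθ1 : θ.1 = f.1 * Y⁻¹.1 := by rw [hθ]; rfl
  have hθA : ∀ a, θ.1 * (Algebra.leftMulMatrix M.b a).map (algebraMap ℚ ℂ) =
      (Algebra.leftMulMatrix M.b a).map (algebraMap ℚ ℂ) * θ.1 := by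
    intro a
    have e1 : Y⁻¹.1 * (Algebra.leftMulMatrix M.b a).map (algebraMap ℚ ℂ) =
        toC ((M.AdR a).map γ) * Y⁻¹.1 := by
      calc Y⁻¹.1 * (Algebra.leftMulMatrix M.b a).map (algebraMap ℚ ℂ)
          = Y⁻¹.1 * ((Algebra.leftMulMatrix M.b a).map (algebraMap ℚ ℂ) * Y.1) * Y⁻¹.1 := by
            rw [Matrix.mul_assoc, Matrix.mul_assoc, hYY, Matrix.mul_one]
        _ = (Y⁻¹.1 * Y.1) * toC ((M.AdR a).map γ) * Y⁻¹.1 := by
            rw [← hYA]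
            simp only [Matrix.mul_assoc]
        _ = _ := by rw [hYY', Matrix.one_mul]
    rw [hθ1, Matrix.mul_assoc, e1, ← Matrix.mul_assoc]
    rw [hfA a, Matrix.mul_assoc]
  obtain ⟨t, ht⟩ := D.diag_of_comm θ.1 hθA
  have hθS : θ * M.c ∈ OmegaS S := by
    rw [hθ]
    exact omegaS_heap S f hf Y hYS M.c hS
  have h1 := htor θ t ((M.eigen_iff θ t).2 ht) hθS
  have h2 := hT _ h1 _ hc _ hYT
  rw [mul_inv_cancel_right, hθ, inv_mul_cancel_right] at h2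
  exact h2

end PData

namespace CMObj

/-- **Third equality.** -/
theorem drb_eq (M : CMObj K ι E ρ) (hK : K ≤ Qbar) (cm : IsCM ρ) {S : Set (TPair K ι)}
    (hS : ∀ α ∈ S, Fixes M.c α) (hE : OmegaS S ⊆ M.OmegaE) (hcrit : M.LatticeCrit ⊥ S)
    (hend : M.EndLinear ⊥) : OmegaDRB K M.c = OmegaS S := by
  classical
  have : Module.Finite ℚ E := Module.Finite.of_basis M.b
  let _ : Fintype (Emb E) := minpoly.AlgHom.fintype _ _ _
  obtain ⟨D⟩ := exists_pdata M cm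
  refine Set.Subset.antisymm (drb_subset hS) ?_
  refine D.subset_of_trivial hK hS hE (drb_heap M.c) (fun r sh WdR WB h => h)
    (fun g hg γ hγ => drb_gal hK M.c γ hγ g hg) ?_
  intro θ t ht hθS
  have ht' := (M.eigen_iff θ t).1 ht
  refine torus_mem M.b hK D.h1 D.h2 D.hq D.hq' D.hs D.hc (t := t)
    (fun σ => D.diag_ne_zero θ ht' σ) ?_ ?_
  · intro χ hχ
    have h1 := D.trivial_of_core hK cm hS hcrit hend (fun γ _ => hχ γ) θ t ht hθS
    rwa [finprod_eq_prod_of_fintype] at h1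
  · change toC (embMat M.b) * (θ.1 * M.c.1) = _
    rw [← Matrix.mul_assoc, ht', Matrix.mul_assoc, D.hc, ← Matrix.mul_assoc,
      diagonal_mul_diagonal]

/-- **Second and third equality.** -/
theorem omegaM_eq (M : CMObj K ι E ρ) (hK : K ≤ Qbar) (cm : IsCM ρ) {S : Set (TPair K ι)}
    (hS : ∀ α ∈ S, Fixes M.c α) (hE : OmegaS S ⊆ M.OmegaE) {k : IntermediateField ℚ ℂ}
    (him : ImageContains K k E) (hcrit : M.LatticeCrit k S)
    (hend : M.EndLinear k) : OmegaM K M.c = OmegaS S := by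
  classical
  have : Module.Finite ℚ E := Module.Finite.of_basis M.b
  let _ : Fintype (Emb E) := minpoly.AlgHom.fintype _ _ _
  obtain ⟨D⟩ := exists_pdata M cm
  refine Set.Subset.antisymm (Set.sInter_subset_of_mem ⟨omegaS_closed S, omegaS_heap S, hS⟩) ?_
  refine Set.subset_sInter ?_
  rintro T ⟨hTc, hTh, hcT⟩
  refine D.subset_of_trivial hK hS hE hTh hcT
    (fun g hg γ hγ => gal_mem hK hTc γ hγ hg) ?_
  intro θ t ht hθS
  have ht' := (M.eigen_iff θ t).1 ht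
  obtain ⟨P, hP⟩ := hTc
  let Si : Sit K ι E := D.sit hK P hP hTh hcT
  refine Si.torus_heap θ t (fun σ => D.diag_ne_zero θ ht' σ) ht' fun χ hχ => ?_
  have h1 := D.trivial_of_core hK cm hS hcrit hend (χ := χ) (fun γ hγ => by
    obtain ⟨γ', hγ', hγγ'⟩ := him γ hγ
    have h1 := hχ γ' hγ'
    have h2 : ∀ σ : Emb E, gal γ' σ = gal γ σ := fun σ => hγγ' σ
    simp only [h2] at h1
    exact h1) θ t ht hθS
  rwa [finprod_eq_prod_of_fintype] at h1

end CMObj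

end Pool.Agent.Lib.MPf11a48.CM
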