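import Pool.Agent.Lib.MP_f11a48_ag.helper16.Rel4
import Pool.Agent.Lib.MP_f11a48_ag.helper16.Quartic

/-! The lattice criterion for odd parts that are separating. -/

namespace Pool.Agent.Lib.MPf11a48.CM

open Matrix Module

variable {K : IntermediateField ℚ ℂ} {ι E : Type} [Fintype ι] [DecidableEq ι]
  [CommRing E] [Algebra ℚ E] {ρ : E ≃ₐ[ℚ] E}

/-- the odd functions some multiple of which lies in `Λ` -/
def oddPart (ρ : E ≃ₐ[ℚ] E) (Λ : AddSubgroup ((E →ₐ[ℚ] Qbar) → ℤ)) :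
    Submodule ℚ ((E →ₐ[ℚ] Qbar) → ℚ) where
  carrier := {u | IsOdd ρ u ∧ ∃ (n : ℤ) (χ : (E →ₐ[ℚ] Qbar) → ℤ), n ≠ 0 ∧
    (∀ σ, (n : ℚ) * u σ = χ σ) ∧ χ ∈ Λ}
  zero_mem' := ⟨fun σ => by simp, 1, 0, one_ne_zero, fun σ => by simp, Λ.zero_mem⟩
  add_mem' := by
    rintro u v ⟨hu, n, χ, hn, hχ, hc⟩ ⟨hv, m, χ', hm, hχ', hc'⟩
    refine ⟨fun σ => ?_, n * m, m • χ + n • χ', mul_ne_zero hn hm, fun σ => ?_,
      Λ.add_mem (Λ.zsmul_mem hc m) (Λ.zsmul_mem hc' n)⟩
    · simp only [Pi.add_apply, hu σ, hv σ]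
      ring
    · simp only [Pi.add_apply, Pi.smul_apply, smul_eq_mul]
      push_cast
      rw [← hχ σ, ← hχ' σ]
      ring
  smul_mem' := by
    rintro a u ⟨hu, n, χ, hn, hχ, hc⟩
    refine ⟨fun σ => ?_, n * a.den, a.num • χ,
      mul_ne_zero hn (Int.natCast_ne_zero.2 a.den_ne_zero), fun σ => ?_, Λ.zsmul_mem hc _⟩
    · simp only [Pi.smul_apply, hu σ, smul_eq_mul]
      ring
    · simp only [Pi.smul_apply, smul_eq_mul]
      push_cast
      rw [← hχ σ]
      calc (n : ℚ) * a.den * (a * u σ) = a * a.den * (n * u σ) := by ring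
        _ = a.num * (n * u σ) := by
          congr 1
          exact Rat.mul_den_eq_num a

theorem OddSeparating.over (cm : IsCM ρ) (h : OddSeparating ρ) : SeparatingOver ⊥ ρ :=
  ⟨⟨ccQ, over_bot _, fun σ => (bar_eq_gal cm σ).symm⟩,
    fun U h1 h2 h3 => h U h1 (fun γ => h2 γ (over_bot γ)) h3⟩

/-- **Pairs criterion over `k`.** -/
theorem separatingOver_of_pairs [Finite (E →ₐ[ℚ] Qbar)] (cm : IsCM ρ)
    (k : IntermediateField ℚ ℂ) (hp : PairsOver k ρ) : SeparatingOver k ρ := by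
  obtain ⟨hbar, h⟩ := hp
  classical
  refine ⟨hbar, ?_⟩
  intro U hodd hstab hne
  have := Fintype.ofFinite (E →ₐ[ℚ] Qbar)
  have key : ∀ (n : ℕ) (u : (E →ₐ[ℚ] Qbar) → ℚ), u ∈ U → u ≠ 0 →
      (Finset.univ.filter fun σ => u σ ≠ 0).card = n → ∃ σ : E →ₐ[ℚ] Qbar, oddVec ρ σ ∈ U := by
    intro n
    induction n using Nat.strong_induction_on with
    | _ n ih =>
      intro u hu hu0 hcard
      obtain ⟨σ, hσ⟩ : ∃ σ, u σ ≠ 0 := by
        by_contra hcon
        push Not at hcon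
        exact hu0 (funext hcon)
      by_cases hsup : ∀ τ, τ ≠ σ → τ ≠ bar ρ σ → u τ = 0
      · exact ⟨σ, oddVec_mem_of_support cm hu (hodd u hu) hσ hsup⟩
      · push Not at hsup
        obtain ⟨τ, h1, h2, h3⟩ := hsup
        obtain ⟨γ, hγk, hγ, hγσ, hγτ⟩ := h σ τ h1 h2
        have hu' : (fun x => u (gal γ x)) ∈ U := hstab γ hγk u hu
        have hv : (fun x => u x + u (gal γ x)) ∈ U := U.add_mem hu hu'
        have hγσ' : gal γ σ = σ := hγσ
        have hγτ' : gal γ τ = bar ρ τ := hγτ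
        refine ih _ ?_ _ hv ?_ rfl
        · rw [← hcard]
          apply Finset.card_lt_card
          rw [Finset.ssubset_iff_of_subset]
          · refine ⟨τ, by simpa using h3, ?_⟩
            have h4 : u (bar ρ τ) = -u τ := hodd u hu τ
            simp only [Finset.mem_filter, Finset.mem_univ, true_and, not_not, hγτ', h4]
            ring
          · intro x hx
            simp only [Finset.mem_filter, Finset.mem_univ, true_and] at hx ⊢
            intro h0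
            apply hx
            rcases hγ x with h5 | h5
            · have h6 : gal γ x = x := h5
              rw [h6, h0, add_zero]
            · have h4 : u (bar ρ x) = -u x := hodd u hu x
              have h6 : gal γ x = bar ρ x := h5
              rw [h6, h4, h0, neg_zero, add_zero]
        · intro h0
          have := congrFun h0 σ
          simp only [Pi.zero_apply, hγσ'] at this
          exact hσ (by linarith)
  obtain ⟨u, hu, hu0⟩ := Submodule.exists_mem_ne_zero_of_ne_bot hne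
  obtain ⟨σ, hσ⟩ := key _ u hu hu0 rfl
  refine ⟨σ, bar ρ σ, (cm.ne σ).symm, ?_⟩
  rw [oddVec_bar cm, sub_neg_eq_add]
  exact U.add_mem hσ hσ

namespace PData

variable {M : CMObj K ι E ρ} [Fintype (Emb E)] [DecidableEq (Emb E)] (D : PData M)

include D in
theorem sim_of_mem (hK : K ≤ Qbar) {S : Set (TPair K ι)}
    (hCM : OmegaS S ⊆ M.OmegaCM) {θ : GL ι ℂ} {t : Emb E → ℂ} (ht : M.Eigen θ t)
    (hθ : θ * M.c ∈ OmegaS S) : ∃ μ : ℂ, ∀ σ, t σ * t (bar ρ σ) = μ := by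
  obtain ⟨γ, -, -, μ, hμ⟩ := hCM hθ
  have ht' := (M.eigen_iff θ t).1 ht
  have h1 : toC (embMat M.b) * (θ * M.c).1 = diagonal (fun σ => t σ * D.s σ) * toC D.q := by
    change toC (embMat M.b) * (θ.1 * M.c.1) = _
    rw [← Matrix.mul_assoc, ht', Matrix.mul_assoc, D.hc, ← Matrix.mul_assoc,
      diagonal_mul_diagonal]
  have h2 := (D.hsim hK _ _ μ h1).1 hμ
  refine ⟨μ / (2 * Real.pi * Complex.I : ℂ) ^ M.w, fun σ => ?_⟩
  have h3 := h2 σ
  have h4 := D.hpol hK σ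
  have h5 := D.hαC0 hK σ
  have h6 := two_pi_I_ne M.w
  have h7 : t σ * t (bar ρ σ) * ((2 * Real.pi * Complex.I : ℂ) ^ M.w * (D.α hK σ : ℂ)) =
      μ * (D.α hK σ : ℂ) := by
    rw [← h4, ← h3]
    ring
  rw [eq_div_iff h6]
  refine mul_right_cancel₀ h5 ?_
  rw [← h7]
  ring

include D in
theorem trivial_of_even (hK : K ≤ Qbar) (cm : IsCM ρ) {S : Set (TPair K ι)}
    (hCM : OmegaS S ⊆ M.OmegaCM) {χ : Emb E → ℤ} (h1 : ∀ σ, χ (bar ρ σ) = χ σ)
    (h2 : ∑ σ, χ σ = 0) : M.Trivial S χ := by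
  intro θ t ht hθ
  obtain ⟨μ, hμ⟩ := D.sim_of_mem hK hCM ht hθ
  rw [finprod_eq_prod_of_fintype]
  exact prod_sim cm h1 h2 (fun σ => D.diag_ne_zero θ ((M.eigen_iff θ t).1 ht) σ) hμ

end PData

namespace CMObj

theorem crit_of_separating (M : CMObj K ι E ρ) (hK : K ≤ Qbar) (cm : IsCM ρ)
    {k : IntermediateField ℚ ℂ} {S : Set (TPair K ι)} (hCM : OmegaS S ⊆ M.OmegaCM)
    (hsep : SeparatingOver k ρ) : M.LatticeCrit k S := by
  classical
  have : Module.Finite ℚ E := Module.Finite.of_basis M.b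
  let _ : Fintype (Emb E) := minpoly.AlgHom.fintype _ _ _
  obtain ⟨D⟩ := exists_pdata M cm
  obtain ⟨⟨γ₁, hγ₁, hγρ⟩, hsep⟩ := hsep
  rintro Λ ⟨hgal, hsat, hdeg⟩ htriv
  have hbar : ∀ χ ∈ Λ, (fun σ => χ (bar ρ σ)) ∈ Λ := by
    intro χ hχ
    have h1 := hgal γ₁ hγ₁ χ hχ
    have h2 : (fun σ => χ (bar ρ σ)) = fun σ => χ (galE γ₁ σ) := by
      funext σ
      rw [hγρ]
      rfl
    rwa [h2]
  have hsum : ∀ χ ∈ Λ, ∑ σ, χ σ = 0 := by
    intro χ hχ
    have h1 := hdeg χ hχ (hbar χ hχ)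
    rwa [finsum_eq_sum_of_fintype] at h1
  by_cases hU : oddPart ρ Λ = ⊥
  · left
    intro χ hχ
    refine D.trivial_of_even hK cm hCM (fun σ => ?_) (hsum χ hχ)
    have hodd : (fun σ => ((χ σ - χ (bar ρ σ) : ℤ) : ℚ)) ∈ oddPart ρ Λ := by
      refine ⟨fun σ => ?_, 1, fun σ => χ σ - χ (bar ρ σ), one_ne_zero, fun σ => ?_,
        Λ.sub_mem hχ (hbar χ hχ)⟩
      · change ((χ (bar ρ σ) - χ (bar ρ (bar ρ σ)) : ℤ) : ℚ) = -((χ σ - χ (bar ρ σ) : ℤ) : ℚ)
        rw [bar_bar cm]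
        push_cast
        ring
      · simp
    rw [hU, Submodule.mem_bot] at hodd
    have h1 := congrFun hodd σ
    simp only [Pi.zero_apply] at h1
    have h2 : χ σ - χ (bar ρ σ) = 0 := by exact_mod_cast h1
    omega
  · right
    obtain ⟨σ, τ, hne, hu, n, χ, hn, hχ, hχΛ⟩ := hsep (oddPart ρ Λ) (fun u hu => hu.1)
      (by
        rintro γ hγ u ⟨hu, n, χ, hn, hχ, hc⟩
        exact ⟨fun σ => hu (gal γ σ), n, fun σ => χ (gal γ σ), hn, fun σ => hχ _,
          hgal γ hγ χ hc⟩) hU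
    refine ⟨σ, τ, hne, ?_⟩
    -- the odd part of `δ_σ - δ_τ`
    let δ : Emb E → Emb E → ℤ := fun σ κ => if κ = σ then 1 else 0
    have h1 : n • (fun κ => (δ σ κ - δ (bar ρ σ) κ) - (δ τ κ - δ (bar ρ τ) κ)) ∈ Λ := by
      have h2 : n • (fun κ => (δ σ κ - δ (bar ρ σ) κ) - (δ τ κ - δ (bar ρ τ) κ)) = χ := by
        funext κ
        have h3 := hχ κ
        have h4 : (((n • (fun κ => (δ σ κ - δ (bar ρ σ) κ) -
            (δ τ κ - δ (bar ρ τ) κ)) : Emb E → ℤ) κ : ℤ) : ℚ) = χ κ := by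
          rw [← h3]
          simp only [Pi.smul_apply, smul_eq_mul, Pi.sub_apply, oddVec, δ]
          push_cast
          rfl
        exact_mod_cast h4
      rwa [h2]
    have h2 := hsat n _ hn h1
    -- the even part
    have h3 : (fun κ => (δ σ κ + δ (bar ρ σ) κ) - (δ τ κ + δ (bar ρ τ) κ)) ∈ Λ := by
      refine htriv _ (D.trivial_of_even hK cm hCM (fun κ => ?_) ?_)
      · have e1 : ∀ a b : Emb E, δ a (bar ρ b) = δ (bar ρ a) b := by
          intro a b
          refine if_congr ?_ rfl rfl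
          constructor
          · intro h
            rw [← h, bar_bar cm]
          · intro h
            rw [h, bar_bar cm]
        simp only [e1, bar_bar cm]
        ring
      · have e2 : ∀ a : Emb E, ∑ κ, δ a κ = 1 := fun a => by simp [δ]
        simp only [Finset.sum_sub_distrib, Finset.sum_add_distrib, e2]
        norm_num
    have h4 := Λ.add_mem h2 h3
    have h5 : (fun κ => (δ σ κ - δ (bar ρ σ) κ) - (δ τ κ - δ (bar ρ τ) κ)) +
        (fun κ => (δ σ κ + δ (bar ρ σ) κ) - (δ τ κ + δ (bar ρ τ) κ)) =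
        (2 : ℤ) • (fun κ => δ σ κ - δ τ κ) := by
      funext κ
      simp only [Pi.add_apply, Pi.smul_apply, smul_eq_mul]
      ring
    rw [h5] at h4
    have h6 := hsat 2 _ two_ne_zero h4
    have hnt : ¬ τ = σ := Ne.symm hne
    have hns : ¬ σ = τ := hne
    refine ⟨_, h6, ?_, ?_, fun κ hκ hκ' => ?_⟩
    · simp only [δ, if_true]
      rw [if_neg hns]
      norm_num
    · simp only [δ, if_true]
      rw [if_neg hnt]
      norm_num
    · simp only [δ]
      rw [if_neg hκ, if_neg hκ']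
      norm_num

theorem LatticeCrit.bot {M : CMObj K ι E ρ} {k : IntermediateField ℚ ℂ}
    {S : Set (TPair K ι)} (h : M.LatticeCrit k S) : M.LatticeCrit ⊥ S :=
  fun Λ h1 h4 => h Λ ⟨fun γ _ => h1.1 γ (over_bot γ), h1.2⟩ h4

theorem EndLinear.bot {M : CMObj K ι E ρ} {k : IntermediateField ℚ ℂ}
    (h : M.EndLinear k) : M.EndLinear ⊥ := by
  intro B B' hB a
  have h1 : (⊥ : IntermediateField ℚ ℂ) ≤ k := bot_le
  let B₁ : Matrix ι ι k := fun i j => ⟨(B i j : ℂ), h1 (B i j).2⟩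
  exact h B₁ B' hB a

end CMObj

end Pool.Agent.Lib.MPf11a48.CM
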