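import Pool.Agent.Lib.MP_f11a48_ag.helper16.CMAlg

/-! The torus cut out by the Galois-stable period relations stabilizes every sub-object. -/

namespace Pool.Agent.Lib.MPf11a48.CM

open Matrix Module

variable {E : Type} [CommRing E] [Algebra ℚ E]

section Weights

variable {κ : Type} [Fintype κ] [DecidableEq κ]

/-- the character of an index -/
def chi {r : ℕ} {s : Fin r → ℕ × ℕ} (x : SIdx κ s) : κ → ℤ :=
  fun σ => (∑ a, if x.2.1 a = σ then (1 : ℤ) else 0) - ∑ b, if x.2.2 b = σ then (1 : ℤ) else 0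

theorem zpow_sum₀ {α : Type} (t : ℂ) (ht : t ≠ 0) (S : Finset α) (n : α → ℤ) :
    t ^ (∑ i ∈ S, n i) = ∏ i ∈ S, t ^ n i := by
  classical
  induction S using Finset.induction_on with
  | empty => simp
  | insert a S ha ih => rw [Finset.sum_insert ha, Finset.prod_insert ha, zpow_add₀ ht, ih]

theorem prod_zpow_count {m : ℕ} (t : κ → ℂ) (ht : ∀ σ, t σ ≠ 0) (y : Fin m → κ) :
    (∏ σ, t σ ^ (∑ a, if y a = σ then (1 : ℤ) else 0)) = ∏ a, t (y a) := by
  simp only [zpow_sum₀ _ (ht _)]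
  rw [Finset.prod_comm]
  refine Finset.prod_congr rfl fun a _ => ?_
  rw [Finset.prod_eq_single (y a)]
  · simp
  · intro σ _ hσ
    simp [Ne.symm hσ]
  · intro h
    exact absurd (Finset.mem_univ _) h

theorem wt_eq {r : ℕ} {s : Fin r → ℕ × ℕ} (t : κ → ℂ) (ht : ∀ σ, t σ ≠ 0) (x : SIdx κ s) :
    wt t (fun σ => (t σ)⁻¹) x = ∏ σ, t σ ^ chi x σ := by
  simp only [wt, chi, zpow_sub₀ (ht _), Finset.prod_div_distrib, prod_zpow_count t ht]
  rw [div_eq_mul_inv, ← Finset.prod_inv_distrib]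

omit [Fintype κ] [DecidableEq κ] in
theorem wt_ne_zero {r : ℕ} {s : Fin r → ℕ × ℕ} (t : κ → ℂ) (ht : ∀ σ, t σ ≠ 0)
    (x : SIdx κ s) : wt t (fun σ => (t σ)⁻¹) x ≠ 0 := by
  unfold wt
  exact mul_ne_zero (Finset.prod_ne_zero_iff.2 fun a _ => ht _)
    (Finset.prod_ne_zero_iff.2 fun b _ => inv_ne_zero (ht _))

end Weights

/-- The Galois action on indices. -/
noncomputable def galIdx {r : ℕ} {s : Fin r → ℕ × ℕ} (γ : Qbar ≃ₐ[ℚ] Qbar) :
    SIdx (Emb E) s ≃ SIdx (Emb E) s where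
  toFun x := ⟨x.1, (fun a => gal γ (x.2.1 a), fun b => gal γ (x.2.2 b))⟩
  invFun x := ⟨x.1, (fun a => (gal γ).symm (x.2.1 a), fun b => (gal γ).symm (x.2.2 b))⟩
  left_inv x := by simp
  right_inv x := by simp

theorem wt_galIdx [Fintype (Emb E)] {r : ℕ} {s : Fin r → ℕ × ℕ} (γ : Qbar ≃ₐ[ℚ] Qbar)
    (t t' : Emb E → ℂ) (x : SIdx (Emb E) s) :
    wt t t' (galIdx γ x) = wt (fun σ => t (gal γ σ)) (fun σ => t' (gal γ σ)) x := rfl

/-- The twisted Galois action on vectors. -/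
noncomputable def tw {r : ℕ} {s : Fin r → ℕ × ℕ} (γ : Qbar ≃ₐ[ℚ] Qbar)
    (w : SIdx (Emb E) s → Qbar) : SIdx (Emb E) s → Qbar :=
  fun j => γ (w ((galIdx γ).symm j))

theorem tw_galIdx {r : ℕ} {s : Fin r → ℕ × ℕ} (γ : Qbar ≃ₐ[ℚ] Qbar)
    (w : SIdx (Emb E) s → Qbar) (x : SIdx (Emb E) s) : tw γ w (galIdx γ x) = γ (w x) := by
  simp [tw]

theorem galIdx_symm {r : ℕ} {s : Fin r → ℕ × ℕ} (γ : Qbar ≃ₐ[ℚ] Qbar)
    (x : SIdx (Emb E) s) : (galIdx γ⁻¹).symm x = galIdx γ x := by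
  rw [Equiv.symm_apply_eq]
  have h : ∀ σ : Emb E, gal γ⁻¹ (gal γ σ) = σ := by
    intro σ
    refine AlgHom.ext fun y => ?_
    exact γ.symm_apply_apply (σ y)
  obtain ⟨k, p, q⟩ := x
  simp [galIdx, h]

variable {ι : Type} [Fintype ι] [DecidableEq ι] (b : Basis ι ℚ E)

/-- Vectors of the `ℚ`-structure are fixed by the twisted action. -/
theorem act_emb_gal [Fintype (Emb E)] [DecidableEq (Emb E)] {P' : Matrix ι (Emb E) Qbar}
    (h1 : embMat b * P' = 1) (h2 : P' * embMat b = 1) {r : ℕ} {s : Fin r → ℕ × ℕ}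
    (γ : Qbar ≃ₐ[ℚ] Qbar) (u : SIdx ι s → ℚ) (x : SIdx (Emb E) s) :
    act s (embMat b) P' (fun j => algebraMap ℚ Qbar (u j)) (galIdx γ x) =
      γ (act s (embMat b) P' (fun j => algebraMap ℚ Qbar (u j)) x) := by
  have h3 := act_map (γ : Qbar →+* Qbar) s (embMat b) P' (fun j => algebraMap ℚ Qbar (u j)) x
  have h4 : (γ : Qbar →+* Qbar) (act s (embMat b) P' (fun j => algebraMap ℚ Qbar (u j)) x) =
    γ (act s (embMat b) P' (fun j => algebraMap ℚ Qbar (u j)) x) := rfl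
  rw [← h4, h3]
  have h5 : (fun y : SIdx ι s => (γ : Qbar →+* Qbar) (algebraMap ℚ Qbar (u y))) =
      fun j => algebraMap ℚ Qbar (u j) := by
    funext y
    exact γ.commutes (u y)
  rw [h5]
  simp only [act, LinearMap.coe_mk, AddHom.coe_mk, tens, galIdx, Equiv.coe_fn_mk, map_apply]
  refine Finset.sum_congr rfl fun J _ => ?_
  congr 2
  refine Finset.prod_congr rfl fun c _ => ?_
  exact embInv_gal b h1 h2 γ _ _

/-- The torus cut out by the Galois-stable relations stabilizes `W ⊗ ℂ`. -/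
theorem spanW_stable [Fintype (Emb E)] [DecidableEq (Emb E)] {r : ℕ} {sh : Fin r → ℕ × ℕ}
    {W N : Submodule Qbar (SIdx (Emb E) sh → Qbar)}
    (hW : ∀ γ : Qbar ≃ₐ[ℚ] Qbar, ∀ w ∈ W, tw γ w ∈ W) {s : Emb E → ℂ} (hs : ∀ σ, s σ ≠ 0)
    (h : ∀ v : SIdx (Emb E) sh → ℂ, v ∈ spanL ℂ N ↔
      (fun j => wt s (fun σ => (s σ)⁻¹) j * v j) ∈ spanL ℂ W)
    {t : Emb E → ℂ} (ht : ∀ σ, t σ ≠ 0)
    (hcore : ∀ χ : Emb E → ℤ, (∀ γ : Qbar ≃ₐ[ℚ] Qbar, (∏ σ, s (gal γ σ) ^ χ σ) ∈ Qbar) →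
      ∏ σ, t σ ^ χ σ = 1) {v : SIdx (Emb E) sh → ℂ} (hv : v ∈ spanL ℂ W) :
    (fun j => wt t (fun σ => (t σ)⁻¹) j * v j) ∈ spanL ℂ W := by
  obtain ⟨κ, _, _, a, w, hwW, hwa, hrep⟩ := exists_pivot W
  -- the weight of `t` is constant on the support of a pivot vector
  have hconst : ∀ p j, w p j ≠ 0 →
      wt t (fun σ => (t σ)⁻¹) j = wt t (fun σ => (t σ)⁻¹) (a p) := by
    intro p j hj
    have hχ := hcore (fun σ => chi j σ - chi (a p) σ) (by
      intro γ
      have hinj : ∀ v ∈ W, (∀ p, v (galIdx γ (a p)) = 0) → v = 0 := by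
        intro v hv h0
        have h1 := hW γ⁻¹ v hv
        have h2 : tw γ⁻¹ v = 0 := by
          rw [hrep _ h1]
          refine Finset.sum_eq_zero fun p _ => ?_
          have : tw γ⁻¹ v (a p) = 0 := by
            unfold tw
            rw [galIdx_symm, h0 p, map_zero]
          rw [this, zero_smul]
        funext j
        have h3 := congrFun h2 ((galIdx γ).symm j)
        unfold tw at h3
        rw [galIdx_symm, Equiv.apply_symm_apply] at h3
        exact (map_eq_zero_iff _ (γ⁻¹).injective).1 h3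
      obtain ⟨x, _, hx⟩ := pivot_ratio (d := fun j => wt s (fun σ => (s σ)⁻¹) j)
        (fun j => wt_ne_zero s hs j) h (fun p => galIdx γ (a p)) hinj (hW γ _ (hwW p)) p
        (by rw [tw_galIdx, hwa]; simp)
        (by
          intro p' hp'
          rw [tw_galIdx, hwa, if_neg (Ne.symm hp'), map_zero])
        (j := galIdx γ j) (by
          rw [tw_galIdx]
          exact (map_ne_zero_iff _ γ.injective).2 hj)
      have hs' : ∀ σ, s (gal γ σ) ≠ 0 := fun σ => hs _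
      have e1 := wt_galIdx γ s (fun σ => (s σ)⁻¹) j
      have e2 := wt_galIdx γ s (fun σ => (s σ)⁻¹) (a p)
      rw [wt_eq _ hs'] at e1 e2
      have e3 : (∏ σ, s (gal γ σ) ^ (chi j σ - chi (a p) σ)) = algebraMap Qbar ℂ x := by
        simp only [zpow_sub₀ (hs' _), Finset.prod_div_distrib]
        rw [hx, e1, e2]
      rw [e3]
      exact x.2)
    rw [wt_eq _ ht, wt_eq _ ht]
    simp only [zpow_sub₀ (ht _), Finset.prod_div_distrib] at hχ
    exact (div_eq_one_iff_eq (Finset.prod_ne_zero_iff.2 fun σ _ => zpow_ne_zero _ (ht σ))).1 hχ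
  -- conclude by linearity
  induction hv using Submodule.span_induction with
  | mem x hx =>
    obtain ⟨u, hu, rfl⟩ := hx
    have e : (fun j => wt t (fun σ => (t σ)⁻¹) j * algebraMap Qbar ℂ (u j)) =
        ∑ p, (algebraMap Qbar ℂ (u (a p)) * wt t (fun σ => (t σ)⁻¹) (a p)) •
          fun j => algebraMap Qbar ℂ (w p j) := by
      funext j
      have h1 := congrFun (hrep u hu) j
      rw [h1]
      simp only [Finset.sum_apply, Pi.smul_apply, smul_eq_mul, map_sum, map_mul, Finset.mul_sum]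
      refine Finset.sum_congr rfl fun p _ => ?_
      by_cases hj : w p j = 0
      · simp [hj]
      · rw [hconst p j hj]
        ring
    rw [e]
    exact Submodule.sum_mem _ fun p _ => Submodule.smul_mem _ _ (mem_spanL (hwW p))
  | zero =>
    have : (fun j : SIdx (Emb E) sh => wt t (fun σ => (t σ)⁻¹) j *
        (0 : SIdx (Emb E) sh → ℂ) j) = 0 := by
      funext j
      simp
    rw [this]
    exact Submodule.zero_mem _
  | add x y _ _ hx hy =>
    have : (fun j => wt t (fun σ => (t σ)⁻¹) j * (x + y) j) =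
        (fun j => wt t (fun σ => (t σ)⁻¹) j * x j) +
          fun j => wt t (fun σ => (t σ)⁻¹) j * y j := by
      funext j
      simp [mul_add]
    rw [this]
    exact Submodule.add_mem _ hx hy
  | smul c x _ hx =>
    have : (fun j => wt t (fun σ => (t σ)⁻¹) j * (c • x) j) =
        c • fun j => wt t (fun σ => (t σ)⁻¹) j * x j := by
      funext j
      simp only [Pi.smul_apply, smul_eq_mul]
      ring
    rw [this]
    exact Submodule.smul_mem _ _ hx

end Pool.Agent.Lib.MPf11a48.CM
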